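import Pool.Agent.CapThree.Spec

/-!
# Good parameters exist
-/

set_option autoImplicit false

noncomputable section

namespace Pool.Agent.CapThree

open Finset Pool.Agent.Caps Pool.Agent.CapFive
open scoped Classical

private def gg (F : Type) [Field F] [Fintype F] (a b c d x : F) : ℤ :=
  ch F ((b - a) * (c - a) * (d - a) * (x - a)) *
    (1 + ∑ y : F, ch F ((y - b) * (y - c) * (y - d) * (y - x)))

private theorem e0 : (univ.erase 0 : Finset (Fin 5)) = {1, 2, 3, 4} := by
  ext i; fin_cases i <;> simp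
private theorem e1 : (univ.erase 1 : Finset (Fin 5)) = {0, 2, 3, 4} := by
  ext i; fin_cases i <;> simp
private theorem e2 : (univ.erase 2 : Finset (Fin 5)) = {0, 1, 3, 4} := by
  ext i; fin_cases i <;> simp
private theorem e3 : (univ.erase 3 : Finset (Fin 5)) = {0, 1, 2, 4} := by
  ext i; fin_cases i <;> simp
private theorem e4 : (univ.erase 4 : Finset (Fin 5)) = {0, 1, 2, 3} := by
  ext i; fin_cases i <;> simp

private theorem pr {F : Type} [Field F] (f : Fin 5 → F) (i j k l : Fin 5) (h1 : i ≠ j) (h2 : i ≠ k)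
    (h3 : i ≠ l) (h4 : j ≠ k) (h5 : j ≠ l) (h6 : k ≠ l) :
    ∏ s ∈ ({i, j, k, l} : Finset (Fin 5)), f s = f i * f j * f k * f l := by
  rw [Finset.prod_insert (by simp [h1, h2, h3]), Finset.prod_insert (by simp [h4, h5]),
    Finset.prod_insert (by simp [h6]), Finset.prod_singleton]
  ring

/-- the sum for `μ = ![a, b, c, d, x]` -/
private theorem sm (F : Type) [Field F] [Fintype F] (a b c d x : F) :
    ∑ k ∈ univ.erase 4, ch F (∏ i ∈ univ.erase k, ((![a, b, c, d, x] : Fin 5 → F) i -
      (![a, b, c, d, x] : Fin 5 → F) k)) *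
      (1 + ∑ y : F, ch F (∏ i ∈ univ.erase k, (y - (![a, b, c, d, x] : Fin 5 → F) i))) =
    gg F a b c d x + gg F b a c d x + gg F c a b d x + gg F d a b c x := by
  rw [e4, Finset.sum_insert (by decide), Finset.sum_insert (by decide),
    Finset.sum_insert (by decide), Finset.sum_singleton, e0, e1, e2, e3]
  have p0 : ∀ f : Fin 5 → F, ∏ s ∈ ({1, 2, 3, 4} : Finset (Fin 5)), f s =
      f 1 * f 2 * f 3 * f 4 := fun f => pr f 1 2 3 4 (by decide) (by decide) (by decide)
    (by decide) (by decide) (by decide)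
  have p1 : ∀ f : Fin 5 → F, ∏ s ∈ ({0, 2, 3, 4} : Finset (Fin 5)), f s =
      f 0 * f 2 * f 3 * f 4 := fun f => pr f 0 2 3 4 (by decide) (by decide) (by decide)
    (by decide) (by decide) (by decide)
  have p2 : ∀ f : Fin 5 → F, ∏ s ∈ ({0, 1, 3, 4} : Finset (Fin 5)), f s =
      f 0 * f 1 * f 3 * f 4 := fun f => pr f 0 1 3 4 (by decide) (by decide) (by decide)
    (by decide) (by decide) (by decide)
  have p3 : ∀ f : Fin 5 → F, ∏ s ∈ ({0, 1, 2, 4} : Finset (Fin 5)), f s =
      f 0 * f 1 * f 2 * f 4 := fun f => pr f 0 1 2 4 (by decide) (by decide) (by decide)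
    (by decide) (by decide) (by decide)
  simp only [p0, p1, p2, p3]
  have v0 : (![a, b, c, d, x] : Fin 5 → F) 0 = a := rfl
  have v1 : (![a, b, c, d, x] : Fin 5 → F) 1 = b := rfl
  have v2 : (![a, b, c, d, x] : Fin 5 → F) 2 = c := rfl
  have v3 : (![a, b, c, d, x] : Fin 5 → F) 3 = d := rfl
  have v4 : (![a, b, c, d, x] : Fin 5 → F) 4 = x := rfl
  simp only [v0, v1, v2, v3, v4, gg]
  ring

theorem tAv (hK : S_AvK) : S_Av := by
  intro F _ _ hodd hq
  obtain ⟨φ⟩ : Nonempty (Fin 4 ↪ F) :=
    Function.Embedding.nonempty_of_card_le (by rw [Fintype.card_fin]; omega)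
  have hne : ∀ i j : Fin 4, i ≠ j → φ i ≠ φ j := fun i j h e => h (φ.injective e)
  obtain ⟨a, ha⟩ : ∃ a, a = φ 0 := ⟨_, rfl⟩
  obtain ⟨b, hb⟩ : ∃ b, b = φ 1 := ⟨_, rfl⟩
  obtain ⟨c, hc⟩ : ∃ c, c = φ 2 := ⟨_, rfl⟩
  obtain ⟨d, hd⟩ : ∃ d, d = φ 3 := ⟨_, rfl⟩
  have hab : a ≠ b := by rw [ha, hb]; exact hne 0 1 (by decide)
  have hac : a ≠ c := by rw [ha, hc]; exact hne 0 2 (by decide)
  have had : a ≠ d := by rw [ha, hd]; exact hne 0 3 (by decide)
  have hbc : b ≠ c := by rw [hb, hc]; exact hne 1 2 (by decide)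
  have hbd : b ≠ d := by rw [hb, hd]; exact hne 1 3 (by decide)
  have hcd : c ≠ d := by rw [hc, hd]; exact hne 2 3 (by decide)
  set X : Finset F := univ.filter (fun x : F => x ≠ a ∧ x ≠ b ∧ x ≠ c ∧ x ≠ d) with hX
  have hcard : Fintype.card F ≤ X.card + 4 := by
    have h1 : (univ : Finset F) ⊆ X ∪ {a, b, c, d} := by
      intro x _
      by_cases hx : x ∈ X
      · exact Finset.mem_union_left _ hx
      · refine Finset.mem_union_right _ ?_
        simp only [hX, Finset.mem_filter, Finset.mem_univ, true_and] at hx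
        simp only [Finset.mem_insert, Finset.mem_singleton]
        by_contra hcon
        push Not at hcon
        exact hx hcon
    have h2 := Finset.card_le_card h1
    rw [Finset.card_univ] at h2
    have h3 := Finset.card_union_le X {a, b, c, d}
    have h4 : ({a, b, c, d} : Finset F).card ≤ 4 := Finset.card_le_four
    omega
  have s0 : ∑ x ∈ X, gg F a b c d x ≤ 2 * (Fintype.card F : ℤ) :=
    hK F hodd a b c d hab hac had hbc hbd hcd
  have s1 : ∑ x ∈ X, gg F b a c d x ≤ 2 * (Fintype.card F : ℤ) := by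
    have h := hK F hodd b a c d hab.symm hbc hbd hac had hcd
    have e : X = univ.filter (fun x : F => x ≠ b ∧ x ≠ a ∧ x ≠ c ∧ x ≠ d) := by
      ext x
      simp only [hX, Finset.mem_filter, Finset.mem_univ, true_and]
      tauto
    rw [e]
    exact h
  have s2 : ∑ x ∈ X, gg F c a b d x ≤ 2 * (Fintype.card F : ℤ) := by
    have h := hK F hodd c a b d hac.symm hbc.symm hcd hab had hbd
    have e : X = univ.filter (fun x : F => x ≠ c ∧ x ≠ a ∧ x ≠ b ∧ x ≠ d) := by
      ext x
      simp only [hX, Finset.mem_filter, Finset.mem_univ, true_and]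
      tauto
    rw [e]
    exact h
  have s3 : ∑ x ∈ X, gg F d a b c x ≤ 2 * (Fintype.card F : ℤ) := by
    have h := hK F hodd d a b c had.symm hbd.symm hcd.symm hab hac hbc
    have e : X = univ.filter (fun x : F => x ≠ d ∧ x ≠ a ∧ x ≠ b ∧ x ≠ c) := by
      ext x
      simp only [hX, Finset.mem_filter, Finset.mem_univ, true_and]
      tauto
    rw [e]
    exact h
  by_contra hno
  push Not at hno
  have key : ∀ x ∈ X, (12 : ℤ) ≤ gg F a b c d x + gg F b a c d x + gg F c a b d x +
      gg F d a b c x := by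
    intro x hx
    simp only [hX, Finset.mem_filter, Finset.mem_univ, true_and] at hx
    obtain ⟨hxa, hxb, hxc, hxd⟩ := hx
    have hinj : Function.Injective (![a, b, c, d, x] : Fin 5 → F) := by
      intro i j hij
      fin_cases i <;> fin_cases j <;> simp at hij ⊢ <;>
        first
          | exact absurd hij hab | exact absurd hij hab.symm
          | exact absurd hij hac | exact absurd hij hac.symm
          | exact absurd hij had | exact absurd hij had.symm
          | exact absurd hij hbc | exact absurd hij hbc.symm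
          | exact absurd hij hbd | exact absurd hij hbd.symm
          | exact absurd hij hcd | exact absurd hij hcd.symm
          | exact absurd hij hxa | exact absurd hij hxa.symm
          | exact absurd hij hxb | exact absurd hij hxb.symm
          | exact absurd hij hxc | exact absurd hij hxc.symm
          | exact absurd hij hxd | exact absurd hij hxd.symm
    have h := hno _ hinj
    rw [sm] at h
    omega
  have h1 : (X.card : ℤ) * 12 ≤ ∑ x ∈ X, (gg F a b c d x + gg F b a c d x + gg F c a b d x +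
      gg F d a b c x) := by
    have := Finset.card_nsmul_le_sum X _ 12 key
    rwa [nsmul_eq_mul] at this
  rw [Finset.sum_add_distrib, Finset.sum_add_distrib, Finset.sum_add_distrib] at h1
  have h2 : (Fintype.card F : ℤ) ≤ X.card + 4 := by exact_mod_cast hcard
  have h3 : (13 : ℤ) ≤ Fintype.card F := by exact_mod_cast hq
  linarith

end Pool.Agent.CapThree
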