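import Pool.Agent.CapThree.Spec

/-!
# Average over the fifth parameter
-/

noncomputable section

namespace Pool.Agent.CapThree

open Finset Pool.Agent.Caps Pool.Agent.CapFive
open scoped Classical

section AvK

variable {F : Type} [Field F] [Fintype F]

private theorem ak_mul (x y : F) : ch F (x * y) = ch F x * ch F y := by
  unfold ch
  rw [map_mul]

private theorem ak_zero : ch F (0 : F) = 0 := by
  unfold ch
  exact quadraticChar_zero

private theorem ak_sq {x : F} (hx : x ≠ 0) : ch F x * ch F x = 1 := by
  have h := quadraticChar_sq_one (F := F) hx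
  unfold ch
  rw [← sq]
  exact h

private theorem ak_bd (x : F) : ch F x ≤ 1 ∧ -1 ≤ ch F x := by
  by_cases hx : x = 0
  · subst hx
    rw [ak_zero]
    constructor <;> norm_num
  · have h := ak_sq hx
    constructor <;> nlinarith

private theorem ak_sum (hodd : Odd (Fintype.card F)) : ∑ x : F, ch F x = 0 := by
  have hF : ringChar F ≠ 2 := by
    intro h
    have h2 := FiniteField.even_card_of_char_two h
    rw [Nat.odd_iff] at hodd
    omega
  exact quadraticChar_sum_zero hF

private theorem ak_shift (hodd : Odd (Fintype.card F)) (a : F) : ∑ x : F, ch F (x - a) = 0 := by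
  rw [← ak_sum hodd]
  exact Fintype.sum_equiv (Equiv.subRight a) _ _ (fun x => rfl)

/-- `∑_x χ((x-a)(y-x))` -/
private theorem ak_inner (hJ : ∀ a b : F, a ≠ b → ∑ x : F, ch F ((x - a) * (x - b)) = -1)
    (a y : F) : ∑ x : F, ch F ((x - a) * (y - x)) =
      ch F (-1) * (if y = a then (Fintype.card F : ℤ) - 1 else -1) := by
  have e : ∀ x : F, ch F ((x - a) * (y - x)) = ch F (-1) * ch F ((x - a) * (x - y)) := by
    intro x
    rw [← ak_mul]
    congr 1
    ring
  rw [Finset.sum_congr rfl (fun x _ => e x), ← Finset.mul_sum]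
  congr 1
  split_ifs with h
  · subst h
    have e2 : ∀ x : F, ch F ((x - y) * (x - y)) = 1 - (if x = y then 1 else 0) := by
      intro x
      split_ifs with hx
      · subst hx
        rw [sub_self, mul_zero, ak_zero]
        norm_num
      · rw [ak_mul, ak_sq (sub_ne_zero.mpr hx)]
        norm_num
    rw [Finset.sum_congr rfl (fun x _ => e2 x), Finset.sum_sub_distrib, Finset.sum_ite_eq']
    simp [Finset.card_univ]
  · exact hJ a y (fun h' => h h'.symm)

/-- the term of the sum -/
private def akf (a b c d x : F) : ℤ :=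
  ch F ((b - a) * (c - a) * (d - a) * (x - a)) *
    (1 + ∑ y : F, ch F ((y - b) * (y - c) * (y - d) * (y - x)))

private theorem akf_eq (a b c d x : F) : akf a b c d x =
    ch F ((b - a) * (c - a) * (d - a)) * ch F (x - a) +
      ∑ y : F, ch F ((b - a) * (c - a) * (d - a)) * ch F ((y - b) * (y - c) * (y - d)) *
        ch F ((x - a) * (y - x)) := by
  unfold akf
  rw [mul_add, mul_one, ak_mul, Finset.mul_sum]
  congr 1
  apply Finset.sum_congr rfl
  intro y _
  rw [ak_mul ((y - b) * (y - c) * (y - d)) (y - x), ak_mul (x - a) (y - x)]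
  ring

private theorem akf_a (a b c d : F) : akf a b c d a = 0 := by
  unfold akf
  rw [sub_self, mul_zero, ak_zero, zero_mul]

/-- the term at `x = b`, for arbitrary order of the roots -/
private theorem ak_at (hJ : ∀ a b : F, a ≠ b → ∑ x : F, ch F ((x - a) * (x - b)) = -1)
    (t b c d : F) (hcd : c ≠ d) :
    -1 ≤ ch F t * (1 + ∑ y : F, ch F ((y - b) * (y - c) * (y - d) * (y - b))) ∧
      (ch F t * (1 + ∑ y : F, ch F ((y - b) * (y - c) * (y - d) * (y - b)))) ≤ 1 := by
  have e : ∀ y : F, ch F ((y - b) * (y - c) * (y - d) * (y - b)) =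
      ch F ((y - c) * (y - d)) - (if y = b then ch F ((b - c) * (b - d)) else 0) := by
    intro y
    split_ifs with hy
    · subst hy
      rw [sub_self, mul_zero, ak_zero]
      ring
    · have h1 : (y - b) * (y - c) * (y - d) * (y - b) = ((y - b) * (y - b)) * ((y - c) * (y - d)) := by
        ring
      rw [h1, ak_mul, ak_mul (y - b) (y - b), ak_sq (sub_ne_zero.mpr hy)]
      ring
  rw [Finset.sum_congr rfl (fun y _ => e y), Finset.sum_sub_distrib, hJ c d hcd,
    Finset.sum_ite_eq']
  have h1 := ak_bd t
  have h2 := ak_bd ((b - c) * (b - d))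
  have h3 : ch F t * (1 + (-1 - if b ∈ (univ : Finset F) then ch F ((b - c) * (b - d)) else 0)) =
      -(ch F (t * ((b - c) * (b - d)))) := by
    rw [if_pos (Finset.mem_univ b), ak_mul t]
    ring
  rw [h3]
  have h4 := ak_bd (t * ((b - c) * (b - d)))
  constructor <;> linarith [h4.1, h4.2]

end AvK

theorem tAvK (hJ0 : S_J) : S_AvK := by
  intro F _ _ hodd a b c d hab hac had hbc hbd hcd
  have hJ : ∀ a b : F, a ≠ b → ∑ x : F, ch F ((x - a) * (x - b)) = -1 := hJ0 F hodd
  have key : ∀ x : F, ch F ((b - a) * (c - a) * (d - a) * (x - a)) *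
      (1 + ∑ y : F, ch F ((y - b) * (y - c) * (y - d) * (y - x))) = akf a b c d x := fun x => rfl
  rw [Finset.sum_congr rfl (fun x _ => key x)]
  -- the full sum
  have hτ : ch F ((b - a) * (c - a) * (d - a)) * ch F ((b - a) * (c - a) * (d - a)) = 1 := by
    apply ak_sq
    exact mul_ne_zero (mul_ne_zero (sub_ne_zero.mpr hab.symm) (sub_ne_zero.mpr hac.symm))
      (sub_ne_zero.mpr had.symm)
  have hm : ch F (-1 : F) * ch F (-1) = 1 := ak_sq (by simp)
  have hρa : ch F ((a - b) * (a - c) * (a - d)) = ch F (-1) * ch F ((b - a) * (c - a) * (d - a)) := by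
    rw [← ak_mul]
    congr 1
    ring
  have hfull : ∑ x : F, akf a b c d x = (Fintype.card F : ℤ) -
      ch F ((b - a) * (c - a) * (d - a)) * ch F (-1) *
        ∑ y : F, ch F ((y - b) * (y - c) * (y - d)) := by
    rw [Finset.sum_congr rfl (fun x _ => akf_eq a b c d x), Finset.sum_add_distrib,
      ← Finset.mul_sum, ak_shift hodd, mul_zero, zero_add, Finset.sum_comm]
    have e : ∀ y : F, ∑ x : F, ch F ((b - a) * (c - a) * (d - a)) *
        ch F ((y - b) * (y - c) * (y - d)) * ch F ((x - a) * (y - x)) =
        (if y = a then ch F ((b - a) * (c - a) * (d - a)) * ch F (-1) *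
          ch F ((a - b) * (a - c) * (a - d)) * (Fintype.card F : ℤ) else 0) -
        ch F ((b - a) * (c - a) * (d - a)) * ch F (-1) * ch F ((y - b) * (y - c) * (y - d)) := by
      intro y
      rw [← Finset.mul_sum, ak_inner hJ a y]
      split_ifs with h
      · subst h
        ring
      · ring
    rw [Finset.sum_congr rfl (fun y _ => e y), Finset.sum_sub_distrib, Finset.sum_ite_eq',
      if_pos (Finset.mem_univ a), ← Finset.mul_sum, hρa]
    have : ch F ((b - a) * (c - a) * (d - a)) * ch F (-1) *
        (ch F (-1) * ch F ((b - a) * (c - a) * (d - a))) * (Fintype.card F : ℤ) =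
        (ch F ((b - a) * (c - a) * (d - a)) * ch F ((b - a) * (c - a) * (d - a))) *
          (ch F (-1 : F) * ch F (-1)) * (Fintype.card F : ℤ) := by ring
    rw [this, hτ, hm]
    ring
  -- bound of the sum of ρ
  have hR : -((Fintype.card F : ℤ) - 3) ≤ ∑ y : F, ch F ((y - b) * (y - c) * (y - d)) ∧
      ∑ y : F, ch F ((y - b) * (y - c) * (y - d)) ≤ (Fintype.card F : ℤ) - 3 := by
    have hsub : ({b, c, d} : Finset F).card = 3 := Finset.card_eq_three.mpr ⟨b, c, d, hbc, hbd, hcd, rfl⟩
    have hcard : ((univ \ {b, c, d} : Finset F).card : ℤ) = (Fintype.card F : ℤ) - 3 := by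
      have h := Finset.card_sdiff_add_card_eq_card (Finset.subset_univ ({b, c, d} : Finset F))
      rw [hsub, Finset.card_univ] at h
      omega
    have hz : ∑ y : F, ch F ((y - b) * (y - c) * (y - d)) =
        ∑ y ∈ (univ \ {b, c, d} : Finset F), ch F ((y - b) * (y - c) * (y - d)) := by
      symm
      apply Finset.sum_subset (Finset.subset_univ _)
      intro y _ hy
      have hy' : y = b ∨ y = c ∨ y = d := by
        by_contra hcon
        apply hy
        simp only [Finset.mem_sdiff, Finset.mem_univ, Finset.mem_insert, Finset.mem_singleton,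
          true_and]
        exact hcon
      have h0 : (y - b) * (y - c) * (y - d) = 0 := by
        rcases hy' with h | h | h <;> rw [h] <;> ring
      rw [h0, ak_zero]
    rw [hz, ← hcard]
    constructor
    · have h := Finset.card_nsmul_le_sum (univ \ {b, c, d} : Finset F)
        (fun y => ch F ((y - b) * (y - c) * (y - d))) (-1) (fun y _ => (ak_bd _).2)
      simp only [nsmul_eq_mul, mul_neg, mul_one] at h
      exact h
    · have h := Finset.sum_le_card_nsmul (univ \ {b, c, d} : Finset F)
        (fun y => ch F ((y - b) * (y - c) * (y - d))) 1 (fun y _ => (ak_bd _).1)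
      simp only [nsmul_eq_mul, mul_one] at h
      exact h
  -- the four missing terms
  have hsplit : ∑ x ∈ univ.filter (fun x : F => x ≠ a ∧ x ≠ b ∧ x ≠ c ∧ x ≠ d), akf a b c d x =
      ∑ x : F, akf a b c d x - (akf a b c d a + akf a b c d b + akf a b c d c + akf a b c d d) := by
    have hset : (univ.filter (fun x : F => x ≠ a ∧ x ≠ b ∧ x ≠ c ∧ x ≠ d)) =
        univ \ {a, b, c, d} := by
      ext x
      simp only [Finset.mem_filter, Finset.mem_univ, true_and, Finset.mem_sdiff,
        Finset.mem_insert, Finset.mem_singleton]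
      tauto
    have h4 : ∑ x ∈ ({a, b, c, d} : Finset F), akf a b c d x =
        akf a b c d a + akf a b c d b + akf a b c d c + akf a b c d d := by
      rw [Finset.sum_insert (by simp [hab, hac, had]), Finset.sum_insert (by simp [hbc, hbd]),
        Finset.sum_insert (by simp [hcd]), Finset.sum_singleton]
      ring
    rw [hset, ← h4]
    have := Finset.sum_sdiff (f := fun x => akf a b c d x) (Finset.subset_univ ({a, b, c, d} : Finset F))
    linarith
  have hb : -1 ≤ akf a b c d b := (ak_at hJ _ b c d hcd).1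
  have hc : -1 ≤ akf a b c d c := by
    have h := (ak_at hJ ((b - a) * (c - a) * (d - a) * (c - a)) c b d hbd).1
    have e : ∀ y : F, (y - c) * (y - b) * (y - d) * (y - c) = (y - b) * (y - c) * (y - d) * (y - c) := by
      intro y; ring
    rw [Finset.sum_congr rfl (fun y _ => by rw [e y])] at h
    exact h
  have hd : -1 ≤ akf a b c d d := by
    have h := (ak_at hJ ((b - a) * (c - a) * (d - a) * (d - a)) d b c hbc).1
    have e : ∀ y : F, (y - d) * (y - b) * (y - c) * (y - d) = (y - b) * (y - c) * (y - d) * (y - d) := by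
      intro y; ring
    rw [Finset.sum_congr rfl (fun y _ => by rw [e y])] at h
    exact h
  rw [hsplit, hfull, akf_a]
  have hs : ch F ((b - a) * (c - a) * (d - a)) * ch F (-1) *
      (∑ y : F, ch F ((y - b) * (y - c) * (y - d))) ≥ -((Fintype.card F : ℤ) - 3) := by
    rw [← ak_mul]
    have h1 := ak_bd ((b - a) * (c - a) * (d - a) * (-1))
    have h2 := ak_sq (F := F) (x := (b - a) * (c - a) * (d - a) * (-1))
      (mul_ne_zero (mul_ne_zero (mul_ne_zero (sub_ne_zero.mpr hab.symm) (sub_ne_zero.mpr hac.symm))
      (sub_ne_zero.mpr had.symm)) (by simp))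
    have h3 : ch F ((b - a) * (c - a) * (d - a) * (-1)) = 1 ∨
        ch F ((b - a) * (c - a) * (d - a) * (-1)) = -1 := by
      rcases Int.isUnit_iff.mp (IsUnit.of_mul_eq_one _ h2) with h | h
      · exact Or.inl h
      · exact Or.inr h
    rcases h3 with h | h <;> rw [h] <;> linarith [hR.1, hR.2]
  linarith

end Pool.Agent.CapThree
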