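import Pool.Agent.CapThree.Spec

/-!
# The cap from the four quadrics
-/

noncomputable section

namespace Pool.Agent.CapThree

open Finset Pool.Agent.Caps Pool.Agent.CapFive
open scoped Classical

section

variable {F : Type} [Field F] [Fintype F] {μ β : Fin 5 → F}

private theorem cap_wv_self (j : Fin 5) (z : Fin 5 → F) : wv μ β j z j = 0 := by
  unfold wv
  rw [sub_self, mul_zero, zero_mul]

private theorem cap_co_ne (hD : Dat F μ β) {j i : Fin 5} (h : i ≠ j) : β i * (μ i - μ j) ≠ 0 :=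
  mul_ne_zero (hD.ne i) (sub_ne_zero.2 (hD.inj.ne h))

private theorem cap_mem_Ys {j : Fin 5} {z : Fin 5 → F} (hz : z ∈ Ks μ β j) : z ∈ Ys μ β j := by
  unfold Ks at hz
  split_ifs at hz with h
  · exact hz
  · unfold Ps at hz
    exact (Finset.mem_filter.1 hz).1

private theorem cap_Ys {j : Fin 5} {z : Fin 5 → F} (hz : z ∈ Ys μ β j) :
    z j = 0 ∧ Qf μ β j z = 0 ∧ ∀ k, k ≠ j → k ≠ 4 → z k ≠ 0 := by
  unfold Ys at hz
  exact (Finset.mem_filter.1 hz).2

private theorem cap_wv_ne (hD : Dat F μ β) {j k : Fin 5} {z : Fin 5 → F} (hz : z ∈ Ks μ β j)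
    (hk : k ≠ j) (hk4 : k ≠ 4) : wv μ β j z k ≠ 0 := by
  unfold wv
  exact mul_ne_zero (cap_co_ne hD hk) ((cap_Ys (cap_mem_Ys hz)).2.2 k hk hk4)

private theorem cap_wv_inj (hD : Dat F μ β) {j : Fin 5} {z z' : Fin 5 → F} (h0 : z j = 0)
    (h0' : z' j = 0) (h : wv μ β j z = wv μ β j z') : z = z' := by
  funext i
  by_cases hi : i = j
  · rw [hi, h0, h0']
  · have h1 := congrFun h i
    unfold wv at h1
    exact mul_left_cancel₀ (cap_co_ne hD hi) h1

private theorem cap_ch_sq {x : F} (hx : x ≠ 0) : ch F (x ^ 2) = 1 := by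
  unfold ch
  exact quadraticChar_sq_one' hx

private theorem cap_ch_sq_mul {x : F} (hx : x ≠ 0) (y : F) : ch F (x ^ 2 * y) = ch F y := by
  have h1 := cap_ch_sq hx
  unfold ch at h1 ⊢
  rw [map_mul, h1, one_mul]

private theorem cap_Qf_smul (j : Fin 5) (c : F) (z : Fin 5 → F) :
    Qf μ β j (c • z) = c ^ 2 * Qf μ β j z := by
  unfold Qf
  rw [Finset.mul_sum]
  apply Finset.sum_congr rfl
  intro i _
  rw [Pi.smul_apply, smul_eq_mul]
  ring

private theorem cap_Rf_smul (c : F) (z : Fin 5 → F) : Rf β (c • z) = c ^ 2 * Rf β z := by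
  unfold Rf
  rw [Finset.mul_sum]
  apply Finset.sum_congr rfl
  intro i _
  rw [Pi.smul_apply, smul_eq_mul]
  ring

private theorem cap_Ys_smul {j : Fin 5} {c : F} (hc : c ≠ 0) {z : Fin 5 → F}
    (hz : z ∈ Ys μ β j) : c • z ∈ Ys μ β j := by
  obtain ⟨h1, h2, h3⟩ := cap_Ys hz
  unfold Ys
  rw [Finset.mem_filter]
  refine ⟨Finset.mem_univ _, ?_, ?_, ?_⟩
  · rw [Pi.smul_apply, h1, smul_zero]
  · rw [cap_Qf_smul, h2, mul_zero]
  · intro k hk hk4
    rw [Pi.smul_apply, smul_eq_mul]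
    exact mul_ne_zero hc (h3 k hk hk4)

private theorem cap_Ks_smul {j : Fin 5} {c : F} (hc : c ≠ 0) {z : Fin 5 → F}
    (hz : z ∈ Ks μ β j) : c • z ∈ Ks μ β j := by
  unfold Ks at hz ⊢
  split_ifs at hz ⊢ with h
  · exact cap_Ys_smul hc hz
  · unfold Ps at hz ⊢
    rw [Finset.mem_filter] at hz ⊢
    refine ⟨cap_Ys_smul hc hz.1, ?_⟩
    rw [cap_Rf_smul]
    have h1 : -(β j) * (c ^ 2 * Rf β z) = c ^ 2 * (-(β j) * Rf β z) := by ring
    rw [h1, cap_ch_sq_mul hc]
    exact hz.2

private theorem cap_wv_smul (j : Fin 5) (c : F) (z : Fin 5 → F) :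
    wv μ β j (c • z) = c • wv μ β j z := by
  funext i
  unfold wv
  rw [Pi.smul_apply, Pi.smul_apply, smul_eq_mul, smul_eq_mul]
  ring

private theorem cap_three (hKey : S_Key) (hD : Dat F μ β) {j k l : Fin 5} (hj : j ≠ 4)
    (hk : k ≠ 4) (hl : l ≠ 4) (hjk : j ≠ k) (hjl : j ≠ l) (hkl : k ≠ l) (hl01 : ¬ (l = 0 ∨ l = 1))
    {u v w : Fin 5 → F} (hu : u ∈ Ks μ β j) (hv : v ∈ Ks μ β k) (hw : w ∈ Ks μ β l)
    (hs : ∀ i, wv μ β j u i + wv μ β k v i + wv μ β l w i = 0) : False := by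
  obtain ⟨-, u2, u3⟩ := cap_Ys (cap_mem_Ys hu)
  obtain ⟨-, v2, -⟩ := cap_Ys (cap_mem_Ys hv)
  obtain ⟨w1, w2, -⟩ := cap_Ys (cap_mem_Ys hw)
  obtain ⟨ζ, hR, -, ⟨c1, -, h1⟩, -, ⟨c3, hc3, h3⟩⟩ :=
    hKey F μ β hD j k l hj hk hl hjk hjl hkl u v w u2 v2 w2 hs
  have hRw : c3 ^ 2 * Rf β ζ - Rf β w = β l * (c3 * ζ l) ^ 2 := by
    unfold Rf
    rw [Finset.mul_sum, ← Finset.sum_sub_distrib]
    rw [Finset.sum_eq_single l]
    · rw [w1]
      ring
    · intro i _ hi
      rw [h3 i hi]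
      ring
    · intro h
      exact absurd (Finset.mem_univ l) h
  rw [hR, mul_zero, zero_sub] at hRw
  have hζ : ζ l = 0 := by
    by_contra hne
    have hP : w ∈ Ps μ β l := by
      unfold Ks at hw
      rwa [if_neg hl01] at hw
    unfold Ps at hP
    have h4 := (Finset.mem_filter.1 hP).2
    apply h4
    have h5 : -(β l) * Rf β w = (β l * (c3 * ζ l)) ^ 2 := by
      linear_combination β l * hRw
    rw [h5]
    exact cap_ch_sq (mul_ne_zero (hD.ne l) (mul_ne_zero hc3 hne))
  have h6 := h1 l hjl.symm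
  rw [hζ, mul_zero] at h6
  exact u3 l hjl.symm hl h6

private theorem cap_two_ne (hodd : Odd (Fintype.card F)) : (2 : F) ≠ 0 := by
  intro h2
  obtain ⟨k, hk⟩ := hodd
  have h1 : ((Fintype.card F : ℕ) : F) = 0 := Nat.cast_card_eq_zero F
  rw [hk] at h1
  push_cast at h1
  rw [h2, zero_mul, zero_add] at h1
  exact one_ne_zero h1

/-- three vectors with sum zero -/
private theorem cap_sum (hKey : S_Key) (hEll : S_Ell) (hodd : Odd (Fintype.card F))
    (hD : Dat F μ β) {j k l : Fin 5} (hj : j ≠ 4) (hk : k ≠ 4) (hl : l ≠ 4) {u v w : Fin 5 → F}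
    (hu : u ∈ Ks μ β j) (hv : v ∈ Ks μ β k) (hw : w ∈ Ks μ β l)
    (hs : wv μ β j u + wv μ β k v + wv μ β l w = 0)
    (hnp : ∀ c : F, wv μ β j u ≠ c • wv μ β k v) : False := by
  have hs' : ∀ i, wv μ β j u i + wv μ β k v i + wv μ β l w i = 0 := fun i => congrFun hs i
  by_cases hjk : j = k
  · subst hjk
    by_cases hjl : j = l
    · subst hjl
      -- all equal
      obtain ⟨u1, u2, u3⟩ := cap_Ys (cap_mem_Ys hu)
      obtain ⟨v1, v2, v3⟩ := cap_Ys (cap_mem_Ys hv)
      obtain ⟨w1, w2, -⟩ := cap_Ys (cap_mem_Ys hw)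
      have hwz : ∀ i, w i = -(u i + v i) := by
        intro i
        by_cases hi : i = j
        · rw [hi, u1, v1, w1]
          ring
        · have h1 := hs' i
          unfold wv at h1
          have h2 : β i * (μ i - μ j) * (u i + v i + w i) = 0 := by linear_combination h1
          have h3 := (mul_eq_zero.1 h2).resolve_left (cap_co_ne hD hi)
          linear_combination h3
      have hB : 2 * ∑ i, β i * (μ i - μ j) * (v i * u i) = 0 := by
        have h1 : Qf μ β j w = Qf μ β j u + Qf μ β j v +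
            2 * ∑ i, β i * (μ i - μ j) * (v i * u i) := by
          unfold Qf
          rw [Finset.mul_sum, ← Finset.sum_add_distrib, ← Finset.sum_add_distrib]
          apply Finset.sum_congr rfl
          intro i _
          rw [hwz i]
          ring
        rw [w2, u2, v2] at h1
        linear_combination -h1
      have hB' := (mul_eq_zero.1 hB).resolve_left (cap_two_ne hodd)
      have hv0 : v ≠ 0 := by
        intro h0
        obtain ⟨t, ht1, ht2⟩ : ∃ t : Fin 5, t ≠ j ∧ t ≠ 4 := by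
          by_cases h : j = 0
          · exact ⟨1, by rw [h]; decide, by decide⟩
          · exact ⟨0, fun h' => h h'.symm, by decide⟩
        exact v3 t ht1 ht2 (by rw [h0]; rfl)
      obtain ⟨c, hc⟩ := hEll F μ β hD j hj v u v1 u1 v2 u2 hB' hv0
      apply hnp c
      rw [hc, cap_wv_smul]
    · -- the third one is different
      have h1 := hs' j
      rw [cap_wv_self, cap_wv_self, zero_add, zero_add] at h1
      exact cap_wv_ne hD hw hjl hj h1
  · by_cases hjl : j = l
    · subst hjl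
      have h1 := hs' j
      rw [cap_wv_self, cap_wv_self, zero_add, add_zero] at h1
      exact cap_wv_ne hD hv hjk hj h1
    · by_cases hkl : k = l
      · subst hkl
        have h1 := hs' k
        rw [cap_wv_self, cap_wv_self, add_zero, add_zero] at h1
        exact cap_wv_ne hD hu (Ne.symm hjk) hk h1
      · -- all different
        by_cases hl01 : l = 0 ∨ l = 1
        · by_cases hk01 : k = 0 ∨ k = 1
          · by_cases hj01 : j = 0 ∨ j = 1
            · rcases hl01 with rfl | rfl <;> rcases hk01 with rfl | rfl <;>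
                rcases hj01 with rfl | rfl <;> simp_all
            · apply cap_three hKey hD hk hl hj hkl (Ne.symm hjk) (Ne.symm hjl) hj01 hv hw hu
              intro i
              rw [← hs' i]
              ring
          · apply cap_three hKey hD hj hl hk hjl hjk (Ne.symm hkl) hk01 hu hw hv
            intro i
            rw [← hs' i]
            ring
        · exact cap_three hKey hD hj hk hl hjk hjl hkl hl01 hu hv hw hs'

end

theorem tCap (hKey : S_Key) (hEll : S_Ell) : S_Cap := by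
  intro F _ _ hodd μ β hD
  obtain ⟨S, hS⟩ : ∃ S : Finset (Fin 5 → F),
      S = (univ.erase 4).biUnion fun j => (Ks μ β j).image (wv μ β j) := ⟨_, rfl⟩
  have hmem : ∀ P, P ∈ S ↔ ∃ j : Fin 5, j ≠ 4 ∧ ∃ z ∈ Ks μ β j, wv μ β j z = P := by
    intro P
    rw [hS, Finset.mem_biUnion]
    constructor
    · rintro ⟨j, hj, hP⟩
      rw [Finset.mem_image] at hP
      exact ⟨j, (Finset.mem_erase.1 hj).1, hP⟩
    · rintro ⟨j, hj, hP⟩
      exact ⟨j, Finset.mem_erase.2 ⟨hj, Finset.mem_univ j⟩, Finset.mem_image.2 hP⟩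
  have hscal : ∀ v ∈ S, ∀ c : F, c ≠ 0 → c • v ∈ S := by
    intro v hv c hc
    obtain ⟨j, hj, z, hz, rfl⟩ := (hmem v).1 hv
    exact (hmem _).2 ⟨j, hj, c • z, cap_Ks_smul hc hz, cap_wv_smul j c z⟩
  have hzero : (0 : Fin 5 → F) ∉ S := by
    intro h0
    obtain ⟨j, hj, z, hz, h⟩ := (hmem 0).1 h0
    obtain ⟨t, ht1, ht2⟩ : ∃ t : Fin 5, t ≠ j ∧ t ≠ 4 := by
      by_cases h : j = 0
      · exact ⟨1, by rw [h]; decide, by decide⟩
      · exact ⟨0, fun h' => h h'.symm, by decide⟩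
    exact cap_wv_ne hD hz ht1 ht2 (by rw [h]; rfl)
  have hsum0 : ∀ P ∈ S, ∀ P' ∈ S, ∀ P'' ∈ S, P + P' + P'' = 0 → ∃ c : F, P = c • P' := by
    intro P hP P' hP' P'' hP'' hs
    obtain ⟨j, hj, u, hu, rfl⟩ := (hmem P).1 hP
    obtain ⟨k, hk, v, hv, rfl⟩ := (hmem P').1 hP'
    obtain ⟨l, hl, w, hw, rfl⟩ := (hmem P'').1 hP''
    by_contra hcon
    push Not at hcon
    exact cap_sum hKey hEll hodd hD hj hk hl hu hv hw hs hcon
  refine ⟨S, ?_, hzero, hscal, ?_⟩
  · rw [hS, Finset.card_biUnion]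
    · apply Finset.sum_congr rfl
      intro j _
      apply Finset.card_image_of_injOn
      intro z hz z' hz' h
      rw [Finset.mem_coe] at hz hz'
      exact cap_wv_inj hD (cap_Ys (cap_mem_Ys hz)).1 (cap_Ys (cap_mem_Ys hz')).1 h
    · intro j hj k _ hjk
      rw [Function.onFun, Finset.disjoint_left]
      intro P hP hP'
      obtain ⟨z, hz, rfl⟩ := Finset.mem_image.1 hP
      obtain ⟨z', hz', h⟩ := Finset.mem_image.1 hP'
      have h1 := congrFun h j
      rw [cap_wv_self] at h1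
      exact cap_wv_ne hD hz' hjk (Finset.mem_erase.1 hj).1 h1
  · intro u hu v hv w hw huv huw hvw
    have hu0 : u ≠ 0 := fun h => hzero (h ▸ hu)
    have hv0 : v ≠ 0 := fun h => hzero (h ▸ hv)
    have hw0 : w ≠ 0 := fun h => hzero (h ▸ hw)
    rw [Fintype.linearIndependent_iff]
    intro g hg
    rw [Fin.sum_univ_three] at hg
    simp only [Matrix.cons_val_zero, Matrix.cons_val_one, Matrix.cons_val_two, Matrix.head_cons,
      Matrix.tail_cons, Matrix.cons_val] at hg
    -- two nonproportional vectors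
    have hpair : ∀ x y : Fin 5 → F, x ≠ 0 → y ≠ 0 → (∀ c : F, x ≠ c • y) → ∀ a b : F,
        a • x + b • y = 0 → a = 0 ∧ b = 0 := by
      intro x y hx hy hxy a b hab
      have ha : a = 0 := by
        by_contra ha
        apply hxy (-(a⁻¹ * b))
        have h1 : a⁻¹ • (a • x + b • y) = 0 := by rw [hab, smul_zero]
        rw [smul_add, smul_smul, smul_smul, inv_mul_cancel₀ ha, one_smul] at h1
        rw [neg_smul]
        exact eq_neg_of_add_eq_zero_left h1
      refine ⟨ha, ?_⟩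
      rw [ha, zero_smul, zero_add] at hab
      exact (smul_eq_zero.1 hab).resolve_right hy
    have hall : g 0 = 0 ∧ g 1 = 0 ∧ g 2 = 0 := by
      by_cases h0 : g 0 = 0
      · rw [h0, zero_smul, zero_add] at hg
        obtain ⟨h1, h2⟩ := hpair v w hv0 hw0 hvw _ _ hg
        exact ⟨h0, h1, h2⟩
      by_cases h1 : g 1 = 0
      · rw [h1, zero_smul, add_zero] at hg
        obtain ⟨h0', h2⟩ := hpair u w hu0 hw0 huw _ _ hg
        exact absurd h0' h0
      by_cases h2 : g 2 = 0
      · rw [h2, zero_smul, add_zero] at hg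
        obtain ⟨h0', -⟩ := hpair u v hu0 hv0 huv _ _ hg
        exact absurd h0' h0
      exfalso
      obtain ⟨c, hc⟩ := hsum0 _ (hscal u hu _ h0) _ (hscal v hv _ h1) _ (hscal w hw _ h2) hg
      apply huv ((g 0)⁻¹ * (c * g 1))
      rw [← smul_smul, ← smul_smul, ← hc, smul_smul, inv_mul_cancel₀ h0, one_smul]
    intro i
    fin_cases i
    · exact hall.1
    · exact hall.2.1
    · exact hall.2.2

end Pool.Agent.CapThree
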