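import Pool.Agent.CapThree.Spec

/-! # CapThree: the beta exist -/

noncomputable section

namespace Pool.Agent.CapThree

open Finset Pool.Agent.Caps Pool.Agent.CapFive
open scoped Classical

private theorem vand {F : Type} [Field F] (μ : Fin 5 → F) :
    ∏ j, ∏ i ∈ univ.erase j, (μ i - μ j) =
      ((μ 0 - μ 1) * (μ 0 - μ 2) * (μ 0 - μ 3) * (μ 0 - μ 4) * (μ 1 - μ 2) * (μ 1 - μ 3) *
        (μ 1 - μ 4) * (μ 2 - μ 3) * (μ 2 - μ 4) * (μ 3 - μ 4)) ^ 2 := by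
  have e0 : (univ : Finset (Fin 5)).erase 0 = {1, 2, 3, 4} := by decide
  have e1 : (univ : Finset (Fin 5)).erase 1 = {0, 2, 3, 4} := by decide
  have e2 : (univ : Finset (Fin 5)).erase 2 = {0, 1, 3, 4} := by decide
  have e3 : (univ : Finset (Fin 5)).erase 3 = {0, 1, 2, 4} := by decide
  have e4 : (univ : Finset (Fin 5)).erase 4 = {0, 1, 2, 3} := by decide
  rw [Fin.prod_univ_five, e0, e1, e2, e3, e4]
  have p0 : ∏ i ∈ ({1, 2, 3, 4} : Finset (Fin 5)), (μ i - μ 0) =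
      (μ 1 - μ 0) * ((μ 2 - μ 0) * ((μ 3 - μ 0) * (μ 4 - μ 0))) := by
    rw [Finset.prod_insert (by decide), Finset.prod_insert (by decide),
      Finset.prod_insert (by decide), Finset.prod_singleton]
  have p1 : ∏ i ∈ ({0, 2, 3, 4} : Finset (Fin 5)), (μ i - μ 1) =
      (μ 0 - μ 1) * ((μ 2 - μ 1) * ((μ 3 - μ 1) * (μ 4 - μ 1))) := by
    rw [Finset.prod_insert (by decide), Finset.prod_insert (by decide),
      Finset.prod_insert (by decide), Finset.prod_singleton]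
  have p2 : ∏ i ∈ ({0, 1, 3, 4} : Finset (Fin 5)), (μ i - μ 2) =
      (μ 0 - μ 2) * ((μ 1 - μ 2) * ((μ 3 - μ 2) * (μ 4 - μ 2))) := by
    rw [Finset.prod_insert (by decide), Finset.prod_insert (by decide),
      Finset.prod_insert (by decide), Finset.prod_singleton]
  have p3 : ∏ i ∈ ({0, 1, 2, 4} : Finset (Fin 5)), (μ i - μ 3) =
      (μ 0 - μ 3) * ((μ 1 - μ 3) * ((μ 2 - μ 3) * (μ 4 - μ 3))) := by
    rw [Finset.prod_insert (by decide), Finset.prod_insert (by decide),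
      Finset.prod_insert (by decide), Finset.prod_singleton]
  have p4 : ∏ i ∈ ({0, 1, 2, 3} : Finset (Fin 5)), (μ i - μ 4) =
      (μ 0 - μ 4) * ((μ 1 - μ 4) * ((μ 2 - μ 4) * (μ 3 - μ 4))) := by
    rw [Finset.prod_insert (by decide), Finset.prod_insert (by decide),
      Finset.prod_insert (by decide), Finset.prod_singleton]
  rw [p0, p1, p2, p3, p4]
  obtain ⟨a01, h01⟩ : ∃ a, a = μ 0 - μ 1 := ⟨_, rfl⟩
  obtain ⟨a02, h02⟩ : ∃ a, a = μ 0 - μ 2 := ⟨_, rfl⟩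
  obtain ⟨a03, h03⟩ : ∃ a, a = μ 0 - μ 3 := ⟨_, rfl⟩
  obtain ⟨a04, h04⟩ : ∃ a, a = μ 0 - μ 4 := ⟨_, rfl⟩
  obtain ⟨a12, h12⟩ : ∃ a, a = μ 1 - μ 2 := ⟨_, rfl⟩
  obtain ⟨a13, h13⟩ : ∃ a, a = μ 1 - μ 3 := ⟨_, rfl⟩
  obtain ⟨a14, h14⟩ : ∃ a, a = μ 1 - μ 4 := ⟨_, rfl⟩
  obtain ⟨a23, h23⟩ : ∃ a, a = μ 2 - μ 3 := ⟨_, rfl⟩
  obtain ⟨a24, h24⟩ : ∃ a, a = μ 2 - μ 4 := ⟨_, rfl⟩
  obtain ⟨a34, h34⟩ : ∃ a, a = μ 3 - μ 4 := ⟨_, rfl⟩
  rw [← neg_sub (μ 0) (μ 1), ← neg_sub (μ 0) (μ 2), ← neg_sub (μ 0) (μ 3), ← neg_sub (μ 0) (μ 4),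
    ← neg_sub (μ 1) (μ 2), ← neg_sub (μ 1) (μ 3), ← neg_sub (μ 1) (μ 4), ← neg_sub (μ 2) (μ 3),
    ← neg_sub (μ 2) (μ 4), ← neg_sub (μ 3) (μ 4)]
  rw [← h01, ← h02, ← h03, ← h04, ← h12, ← h13, ← h14, ← h23, ← h24, ← h34]
  ring

private theorem ch_pm {F : Type} [Field F] [Fintype F] (x : F) (hx : x ≠ 0) :
    ch F x = 1 ∨ ch F x = -1 := by
  unfold ch
  exact quadraticChar_dichotomy hx

theorem tDat : S_Dat := by
  intro F _ _ hodd μ hinj
  have h2 : ringChar F ≠ 2 := by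
    intro h
    have := FiniteField.even_card_of_char_two h
    rw [Nat.odd_iff] at hodd
    omega
  have hmul : ∀ x y : F, ch F (x * y) = ch F x * ch F y := by
    intro x y
    unfold ch
    exact map_mul _ _ _
  have hprod : ∀ (s : Finset (Fin 5)) (f : Fin 5 → F), ch F (∏ i ∈ s, f i) = ∏ i ∈ s, ch F (f i) := by
    intro s f
    unfold ch
    exact map_prod _ _ _
  have hsub : ∀ i j : Fin 5, i ≠ j → μ i - μ j ≠ 0 := fun i j h h0 => h (hinj (sub_eq_zero.1 h0))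
  obtain ⟨P, hP⟩ : ∃ P : Fin 5 → F, P = fun j => ∏ i ∈ univ.erase j, (μ i - μ j) := ⟨_, rfl⟩
  have hPj : ∀ j, P j = ∏ i ∈ univ.erase j, (μ i - μ j) := fun j => by rw [hP]
  have hP0 : ∀ j, P j ≠ 0 := by
    intro j
    rw [hPj]
    exact Finset.prod_ne_zero_iff.2 fun i hi => hsub i j (Finset.ne_of_mem_erase hi)
  have hs : ∀ j, ch F (P j) = 1 ∨ ch F (P j) = -1 := fun j => ch_pm _ (hP0 j)
  have hsall : ∏ j, ch F (P j) = 1 := by
    rw [← hprod]
    have e := vand μ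
    rw [← Finset.prod_congr rfl (fun j _ => hPj j)] at e
    rw [e]
    unfold ch
    apply quadraticChar_sq_one'
    have n01 := hsub 0 1 (by decide)
    have n02 := hsub 0 2 (by decide)
    have n03 := hsub 0 3 (by decide)
    have n04 := hsub 0 4 (by decide)
    have n12 := hsub 1 2 (by decide)
    have n13 := hsub 1 3 (by decide)
    have n14 := hsub 1 4 (by decide)
    have n23 := hsub 2 3 (by decide)
    have n24 := hsub 2 4 (by decide)
    have n34 := hsub 3 4 (by decide)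
    simp only [ne_eq, mul_eq_zero, not_or]
    exact ⟨⟨⟨⟨⟨⟨⟨⟨⟨n01, n02⟩, n03⟩, n04⟩, n12⟩, n13⟩, n14⟩, n23⟩, n24⟩, n34⟩
  obtain ⟨t, ht⟩ : ∃ t : Fin 5 → ℤ, t = fun j => if j = 4 then ch F (P j) else -ch F (P j) :=
    ⟨_, rfl⟩
  have htj : ∀ j, t j = if j = 4 then ch F (P j) else -ch F (P j) := fun j => by rw [ht]
  have htpm : ∀ j, t j = 1 ∨ t j = -1 := by
    intro j
    rw [htj]
    rcases hs j with h | h <;> rw [h] <;> by_cases h4 : j = 4 <;> simp [h4]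
  have htall : ∏ j, t j = 1 := by
    rw [← hsall, Fin.prod_univ_five, Fin.prod_univ_five, htj 0, htj 1, htj 2, htj 3, htj 4]
    rw [if_neg (by decide), if_neg (by decide), if_neg (by decide), if_neg (by decide),
      if_pos rfl]
    ring
  have hex : ∀ j, ∃ y : F, y ≠ 0 ∧ ch F y = t j := by
    intro j
    rcases htpm j with h | h
    · refine ⟨1, one_ne_zero, ?_⟩
      rw [h]
      unfold ch
      exact map_one _
    · obtain ⟨a, ha⟩ := FiniteField.exists_nonsquare h2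
      refine ⟨a, ?_, ?_⟩
      · rintro rfl
        exact ha ⟨0, by simp⟩
      · rw [h]
        unfold ch
        exact quadraticChar_neg_one_iff_not_isSquare.2 ha
  choose β hβ0 hβ using hex
  have hmain : ∀ j, ch F (∏ i ∈ univ.erase j, (β i * (μ i - μ j))) = t j * ch F (P j) := by
    intro j
    rw [Finset.prod_mul_distrib, hmul, ← hPj, hprod]
    congr 1
    have e1 : ∏ i ∈ univ.erase j, ch F (β i) = ∏ i ∈ univ.erase j, t i :=
      Finset.prod_congr rfl fun i _ => hβ i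
    rw [e1]
    have e2 : t j * ∏ i ∈ univ.erase j, t i = 1 := by
      rw [Finset.mul_prod_erase univ t (mem_univ j)]
      exact htall
    rcases htpm j with h | h <;> rw [h] at e2 ⊢ <;> linarith
  refine ⟨β, hinj, hβ0, ?_, ?_⟩
  · intro j hj
    rw [hmain, htj, if_neg hj]
    rcases hs j with h | h <;> rw [h] <;> norm_num
  · rw [hmain, htj, if_pos rfl]
    rcases hs 4 with h | h <;> rw [h] <;> norm_num

end Pool.Agent.CapThree
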