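import Pool.Agent.CapThree.Spec

/-!
# Caps in PG(4, q): the quadrics contain no lines
-/

namespace Pool.Agent.CapThree

open Finset Pool.Agent.Caps Pool.Agent.CapFive
open scoped Classical

private theorem sq_aux {F : Type} [Field F] (a b c d u0 u1 u2 u3 v0 v1 v2 v3 : F)
    (ha : a ≠ 0) (hb : b ≠ 0) (hc : c ≠ 0) (hd : d ≠ 0)
    (hU : a * u0 ^ 2 + b * u1 ^ 2 + c * u2 ^ 2 + d * u3 ^ 2 = 0)
    (hV : a * v0 ^ 2 + b * v1 ^ 2 + c * v2 ^ 2 + d * v3 ^ 2 = 0)
    (hB : a * (u0 * v0) + b * (u1 * v1) + c * (u2 * v2) + d * (u3 * v3) = 0)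
    (hP : ∀ t : F, t ^ 2 ≠ a * b * c * d) :
    u0 * v1 - u1 * v0 = 0 ∧ u2 * v3 - u3 * v2 = 0 := by
  have key : a * b * (u0 * v1 - u1 * v0) ^ 2 = c * d * (u2 * v3 - u3 * v2) ^ 2 := by
    linear_combination (a * v0 ^ 2 + b * v1 ^ 2) * hU - (c * u2 ^ 2 + d * u3 ^ 2) * hV -
      (a * (u0 * v0) + b * (u1 * v1) - c * (u2 * v2) - d * (u3 * v3)) * hB
  have h1 : u0 * v1 - u1 * v0 = 0 := by
    by_contra hne
    refine hP (c * d * (u2 * v3 - u3 * v2) / (u0 * v1 - u1 * v0)) ?_
    rw [div_pow, div_eq_iff (pow_ne_zero 2 hne)]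
    linear_combination -(c * d) * key
  refine ⟨h1, ?_⟩
  rw [h1] at key
  have h2 : c * d * (u2 * v3 - u3 * v2) ^ 2 = 0 := by
    rw [← key]
    ring
  have h3 := (mul_eq_zero.1 h2).resolve_left (mul_ne_zero hc hd)
  exact pow_eq_zero_iff (two_ne_zero) |>.1 h3

private theorem four {F : Type} [Field F] (a u v : Fin 4 → F) (ha : ∀ i, a i ≠ 0)
    (hU : ∑ i, a i * u i ^ 2 = 0) (hV : ∑ i, a i * v i ^ 2 = 0)
    (hB : ∑ i, a i * (u i * v i) = 0) (hP : ∀ t : F, t ^ 2 ≠ ∏ i, a i) (i k : Fin 4) :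
    u i * v k - u k * v i = 0 := by
  simp only [Fin.sum_univ_four, Fin.prod_univ_four] at hU hV hB hP
  obtain ⟨h01, h23⟩ := sq_aux (a 0) (a 1) (a 2) (a 3) (u 0) (u 1) (u 2) (u 3) (v 0) (v 1) (v 2) (v 3)
    (ha 0) (ha 1) (ha 2) (ha 3) hU hV hB hP
  obtain ⟨h02, h13⟩ := sq_aux (a 0) (a 2) (a 1) (a 3) (u 0) (u 2) (u 1) (u 3) (v 0) (v 2) (v 1) (v 3)
    (ha 0) (ha 2) (ha 1) (ha 3) (by linear_combination hU) (by linear_combination hV)
    (by linear_combination hB) (fun t ht => hP t (by rw [ht]; ring))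
  obtain ⟨h03, h12⟩ := sq_aux (a 0) (a 3) (a 1) (a 2) (u 0) (u 3) (u 1) (u 2) (v 0) (v 3) (v 1) (v 2)
    (ha 0) (ha 3) (ha 1) (ha 2) (by linear_combination hU) (by linear_combination hV)
    (by linear_combination hB) (fun t ht => hP t (by rw [ht]; ring))
  fin_cases i <;> fin_cases k
  · ring
  · exact h01
  · exact h02
  · exact h03
  · change u 1 * v 0 - u 0 * v 1 = 0
    linear_combination -h01
  · ring
  · exact h12
  · exact h13
  · change u 2 * v 0 - u 0 * v 2 = 0
    linear_combination -h02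
  · change u 2 * v 1 - u 1 * v 2 = 0
    linear_combination -h12
  · ring
  · exact h23
  · change u 3 * v 0 - u 0 * v 3 = 0
    linear_combination -h03
  · change u 3 * v 1 - u 1 * v 3 = 0
    linear_combination -h13
  · change u 3 * v 2 - u 2 * v 3 = 0
    linear_combination -h23
  · ring

theorem tEll : S_Ell := by
  intro F _ _ μ β hD j hj u v huj hvj hU hV hB hu
  set a : Fin 4 → F := fun i => β (j.succAbove i) * (μ (j.succAbove i) - μ j) with hadef
  have ha : ∀ i, a i ≠ 0 := fun i =>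
    mul_ne_zero (hD.ne _) (sub_ne_zero.2 fun h => Fin.succAbove_ne j i (hD.inj h))
  have hQ : ∀ z : Fin 5 → F, Qf μ β j z = ∑ i, a i * z (j.succAbove i) ^ 2 := fun z => by
    rw [Qf, Fin.sum_univ_succAbove _ j]
    simp [hadef]
  rw [hQ] at hU hV
  rw [Fin.sum_univ_succAbove _ j] at hB
  have hB' : ∑ i, a i * (u (j.succAbove i) * v (j.succAbove i)) = 0 := by
    rw [← hB]
    simp [hadef]
  have hP : ∀ t : F, t ^ 2 ≠ ∏ i, a i := by
    intro t ht
    have h1 := hD.ty j hj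
    have h2 : ∏ i ∈ univ.erase j, (β i * (μ i - μ j)) = ∏ i, a i := by
      have h3 : (univ.erase j : Finset (Fin 5)) = univ.image j.succAbove := by
        ext i
        simp only [Finset.mem_erase, Finset.mem_univ, and_true, Finset.mem_image, true_and]
        constructor
        · intro h
          exact Fin.exists_succAbove_eq h
        · rintro ⟨k, rfl⟩
          exact Fin.succAbove_ne j k
      rw [h3, Finset.prod_image fun x _ y _ h => Fin.succAbove_right_injective h]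
    rw [h2, ← ht] at h1
    by_cases h0 : t = 0
    · rw [h0] at h1
      simp [ch] at h1
    · have h4 : ch F (t ^ 2) = 1 := quadraticChar_sq_one' h0
      rw [h4] at h1
      norm_num at h1
  have hall := four a (fun i => u (j.succAbove i)) (fun i => v (j.succAbove i)) ha hU hV hB' hP
  obtain ⟨i, hi⟩ : ∃ i, u i ≠ 0 := by
    by_contra h
    push Not at h
    exact hu (funext h)
  have hij : i ≠ j := fun h => hi (by rw [h]; exact huj)
  obtain ⟨i', rfl⟩ := Fin.exists_succAbove_eq hij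
  refine ⟨v (j.succAbove i') / u (j.succAbove i'), funext fun k => ?_⟩
  rw [Pi.smul_apply, smul_eq_mul]
  by_cases hk : k = j
  · rw [hk, huj, hvj, mul_zero]
  · obtain ⟨k', rfl⟩ := Fin.exists_succAbove_eq hk
    have h5 := hall i' k'
    rw [div_mul_eq_mul_div, eq_div_iff hi]
    linear_combination h5

end Pool.Agent.CapThree
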