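import Pool.Agent.CapThree.Spec

/-!
# MP_9c4077_co, project CapThree: the family in PG(4, F)
-/

noncomputable section

namespace Pool.Agent.CapThree

open Finset Pool.Agent.Caps Pool.Agent.CapFive
open scoped Classical

theorem tFour (hCap : S_Cap) (hQuot : S_Quot) (hXC : S_XC) (hTot : S_Tot) (hDat : S_Dat)
    (hAv : S_Av) : S_Four := by
  intro F _ _ hodd hq
  obtain ⟨μ, hinj, hsum⟩ := hAv F hodd hq
  obtain ⟨β, hD⟩ := hDat F hodd μ hinj
  obtain ⟨S, hScard, h0, hsc, hind⟩ := hCap F hodd μ β hD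
  obtain ⟨N, hN, hFam⟩ := hQuot F 5 S h0 hsc hind
  refine ⟨N, hFam, ?_⟩
  obtain ⟨q, hqq⟩ : ∃ q : ℤ, q = (Fintype.card F : ℤ) := ⟨_, rfl⟩
  have hq13 : (13 : ℤ) ≤ q := by rw [hqq]; exact_mod_cast hq
  have hNZ : (q - 1) * (N : ℤ) = ∑ j ∈ univ.erase 4, ((Ks μ β j).card : ℤ) := by
    have h1 : (Fintype.card F - 1) * N = ∑ j ∈ univ.erase 4, (Ks μ β j).card := by
      rw [hN, hScard]
    have h2 : (((Fintype.card F - 1) * N : ℕ) : ℤ) =
        ((∑ j ∈ univ.erase 4, (Ks μ β j).card : ℕ) : ℤ) := by rw [h1]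
    rw [Nat.cast_mul, Nat.cast_sub (by omega), Nat.cast_sum, Nat.cast_one, ← hqq] at h2
    exact h2
  have htot := hTot F hodd μ β hD
  rw [← hqq, ← hNZ] at htot
  have hX : ∀ k ∈ (univ : Finset (Fin 5)).erase 4, ((Xs μ β {k}).card : ℤ) - 1 =
      (q - 1) * (q + 1) - (q - 1) * (ch F (∏ i ∈ univ.erase k, (μ i - μ k)) *
        (1 + ∑ x : F, ch F (∏ i ∈ univ.erase k, (x - μ i)))) := by
    intro k hk
    have hk4 : k ≠ 4 := (Finset.mem_erase.1 hk).1
    have h1 := (hXC F hodd μ β hD).2 k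
    have h2 := hD.ty k hk4
    rw [Finset.prod_mul_distrib] at h2
    have h3 : ch F (∏ i ∈ univ.erase k, β i) * ch F (∏ i ∈ univ.erase k, (μ i - μ k)) = -1 := by
      rw [← h2]
      unfold ch
      rw [← map_mul]
    rw [h1, ← hqq]
    rcases Int.mul_eq_neg_one_iff_eq_one_or_neg_one.1 h3 with ⟨h4, h5⟩ | ⟨h4, h5⟩
    · rw [h4, h5]; ring
    · rw [h4, h5]; ring
  have hXs : ∑ k ∈ (univ : Finset (Fin 5)).erase 4, (((Xs μ β {k}).card : ℤ) - 1) =
      4 * ((q - 1) * (q + 1)) - (q - 1) * ∑ k ∈ (univ : Finset (Fin 5)).erase 4,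
        (ch F (∏ i ∈ univ.erase k, (μ i - μ k)) *
        (1 + ∑ x : F, ch F (∏ i ∈ univ.erase k, (x - μ i)))) := by
    rw [Finset.sum_congr rfl hX, Finset.sum_sub_distrib, Finset.sum_const, ← Finset.mul_sum]
    have : ((univ : Finset (Fin 5)).erase 4).card = 4 := by
      rw [Finset.card_erase_of_mem (Finset.mem_univ _), Finset.card_univ, Fintype.card_fin]
    rw [this]
    simp
  rw [hXs] at htot
  have h5 : (q - 1) * ∑ k ∈ (univ : Finset (Fin 5)).erase 4,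
        (ch F (∏ i ∈ univ.erase k, (μ i - μ k)) *
        (1 + ∑ x : F, ch F (∏ i ∈ univ.erase k, (x - μ i)))) ≤ (q - 1) * 11 :=
    mul_le_mul_of_nonneg_left hsum (by linarith)
  have h6 : (q - 1) * (3 * q ^ 2 - 6 * q - 16) ≤ (q - 1) * (N : ℤ) := by
    have e : (q - 1) * (3 * q ^ 2 - 6 * q - 16) =
      (q - 1) * (3 * q ^ 2 - 10 * q - 9) + 4 * ((q - 1) * (q + 1)) - (q - 1) * 11 := by ring
    rw [e]
    linarith
  rw [← hqq]
  exact le_of_mul_le_mul_left h6 (by linarith)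

end Pool.Agent.CapThree
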