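import Pool.Agent.CapThree.Spec

/-!
# Zeros of diagonal forms
-/

set_option autoImplicit false

noncomputable section

namespace Pool.Agent.CapThree

open Finset Pool.Agent.Caps Pool.Agent.CapFive
open scoped Classical

section aux

variable {F : Type} [Field F] [Fintype F]

private theorem char_ne (h : Odd (Fintype.card F)) : ringChar F ≠ 2 := by
  intro h2
  have h3 := FiniteField.even_card_iff_char_two.mp h2
  rw [Nat.odd_iff] at h
  omega

private theorem ch_mul (x y : F) : ch F (x * y) = ch F x * ch F y := map_mul _ _ _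

private theorem ch_zero : ch F (0 : F) = 0 := quadraticChar_zero

private theorem ch_sq {x : F} (hx : x ≠ 0) : ch F x * ch F x = 1 := by
  have h := quadraticChar_sq_one hx
  rw [pow_two] at h
  exact h

private theorem ch_sum (h : Odd (Fintype.card F)) : ∑ x : F, ch F x = 0 :=
  quadraticChar_sum_zero (char_ne h)

private theorem card_sq (h : Odd (Fintype.card F)) (y : F) :
    (((univ : Finset F).filter fun x => x ^ 2 = y).card : ℤ) = 1 + ch F y := by
  have h1 := quadraticChar_card_sqrts (char_ne h) y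
  have e : ({x : F | x ^ 2 = y} : Set F).toFinset = (univ : Finset F).filter fun x => x ^ 2 = y := by
    ext x
    simp
  rw [e] at h1
  rw [h1, add_comm]
  rfl

private theorem card_asq (h : Odd (Fintype.card F)) (a c : F) (ha : a ≠ 0) :
    (((univ : Finset F).filter fun x => c - a * x ^ 2 = 0).card : ℤ) = 1 + ch F (a * c) := by
  have e : ((univ : Finset F).filter fun x => c - a * x ^ 2 = 0) =
      (univ : Finset F).filter fun x => x ^ 2 = c / a := by
    ext x
    simp only [mem_filter, mem_univ, true_and]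
    rw [eq_div_iff ha, sub_eq_zero, mul_comm a, eq_comm]
  rw [e, card_sq h]
  have h1 : a * c = c / a * (a * a) := by
    field_simp
  rw [h1, ch_mul, ch_mul, ch_sq ha, mul_one]

/-- sums over the squares -/
private theorem sum_sq (h : Odd (Fintype.card F)) (f : F → ℤ) :
    ∑ x : F, f (x ^ 2) = ∑ y : F, (1 + ch F y) * f y := by
  rw [← Finset.sum_fiberwise univ (fun x : F => x ^ 2) fun x => f (x ^ 2)]
  refine Finset.sum_congr rfl fun y _ => ?_
  rw [Finset.sum_congr rfl (g := fun _ => f y) fun x hx => by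
    rw [(Finset.mem_filter.mp hx).2], Finset.sum_const, nsmul_eq_mul, card_sq h]

/-- the sum of the character over a quadratic polynomial -/
private theorem quad (hJ : S_J) (h : Odd (Fintype.card F)) (A B : F) (hA : A ≠ 0) :
    ∑ x : F, ch F (A * x ^ 2 + B) =
      -ch F A + if B = 0 then (Fintype.card F : ℤ) * ch F A else 0 := by
  have h2 : ∑ x : F, ch F (A * x ^ 2 + B) = ∑ y : F, (1 + ch F y) * ch F (A * y + B) :=
    sum_sq h fun y => ch F (A * y + B)
  rw [h2]
  have h3 : ∑ y : F, ch F (A * y + B) = 0 := by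
    rw [← ch_sum h]
    exact Fintype.sum_bijective (fun y : F => A * y + B)
      ⟨fun x y hxy => by simpa [hA] using hxy, fun y => ⟨(y - B) / A, by field_simp; ring⟩⟩ _ _
      fun _ => rfl
  have h4 : ∀ y : F, (1 + ch F y) * ch F (A * y + B) =
      ch F (A * y + B) + ch F A * ch F ((y - 0) * (y - -(B / A))) := by
    intro y
    have e : A * y + B = A * (y - -(B / A)) := by
      field_simp
      ring
    rw [e]
    simp only [ch_mul, sub_zero]
    ring
  rw [Finset.sum_congr rfl fun y _ => h4 y, Finset.sum_add_distrib, h3, ← Finset.mul_sum, zero_add]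
  split_ifs with hB
  · subst hB
    have h5 : ∀ y : F, ch F ((y - 0) * (y - -(0 / A))) = 1 - if y = 0 then 1 else 0 := by
      intro y
      rw [zero_div, neg_zero, sub_zero, ch_mul]
      split_ifs with hy
      · rw [hy, ch_zero]
        ring
      · rw [ch_sq hy, sub_zero]
    rw [Finset.sum_congr rfl fun y _ => h5 y, Finset.sum_sub_distrib, Finset.sum_ite_eq',
      if_pos (mem_univ _), Finset.sum_const, Finset.card_univ, nsmul_eq_mul]
    ring
  · rw [hJ F h 0 (-(B / A)) ?_]
    · ring
    · intro h0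
      have h6 : B / A = 0 := by
        rw [← neg_eq_zero]
        exact h0.symm
      rcases div_eq_zero_iff.mp h6 with h7 | h7
      · exact hB h7
      · exact hA h7

/-- the number of vectors with support in `A` on which the form has the value `c` -/
private def gg (a : Fin 5 → F) (A : Finset (Fin 5)) (c : F) : ℤ :=
  (((univ : Finset (Fin 5 → F)).filter fun z => (∀ i, i ∉ A → z i = 0) ∧
    ∑ i, a i * z i ^ 2 = c).card : ℤ)

private theorem gg_empty (a : Fin 5 → F) (c : F) : gg a ∅ c = 0 + if c = 0 then 1 else 0 := by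
  unfold gg
  split_ifs with hc
  · have e : ((univ : Finset (Fin 5 → F)).filter fun z => (∀ i, i ∉ (∅ : Finset (Fin 5)) → z i = 0) ∧
        ∑ i, a i * z i ^ 2 = c) = {0} := by
      ext z
      simp only [mem_filter, mem_univ, true_and, mem_singleton, notMem_empty, not_false_eq_true,
        forall_const]
      constructor
      · rintro ⟨h1, -⟩
        exact funext h1
      · rintro rfl
        refine ⟨fun _ => rfl, ?_⟩
        rw [hc]
        simp
    rw [e, card_singleton]
    norm_num
  · have e : ((univ : Finset (Fin 5 → F)).filter fun z => (∀ i, i ∉ (∅ : Finset (Fin 5)) → z i = 0) ∧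
        ∑ i, a i * z i ^ 2 = c) = ∅ := by
      rw [filter_eq_empty_iff]
      rintro z - ⟨h1, h2⟩
      apply hc
      rw [← h2]
      exact Finset.sum_eq_zero fun i _ => by
        rw [h1 i (notMem_empty i)]
        ring
    rw [e, card_empty]
    norm_num

omit [Fintype F] in
private theorem upd_sum (a : Fin 5 → F) (z : Fin 5 → F) (i : Fin 5) (x : F) :
    ∑ m, a m * Function.update z i x m ^ 2 = ∑ m, a m * z m ^ 2 - a i * z i ^ 2 + a i * x ^ 2 := by
  rw [← Finset.add_sum_erase univ (fun m => a m * Function.update z i x m ^ 2) (mem_univ i),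
    ← Finset.add_sum_erase univ (fun m => a m * z m ^ 2) (mem_univ i), Function.update_self]
  have e : ∑ m ∈ univ.erase i, a m * Function.update z i x m ^ 2 =
      ∑ m ∈ univ.erase i, a m * z m ^ 2 := by
    refine Finset.sum_congr rfl fun m hm => ?_
    rw [Function.update_of_ne (Finset.ne_of_mem_erase hm)]
  rw [e]
  ring

/-- the recursion -/
private theorem gg_insert (a : Fin 5 → F) (A : Finset (Fin 5)) (i : Fin 5) (hi : i ∉ A) (c : F) :
    gg a (insert i A) c = ∑ x : F, gg a A (c - a i * x ^ 2) := by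
  unfold gg
  rw [Finset.card_eq_sum_card_fiberwise (f := fun z : Fin 5 → F => z i) (t := univ)
    (fun z _ => mem_univ _)]
  push_cast
  refine Finset.sum_congr rfl fun x _ => ?_
  rw [Nat.cast_inj]
  refine Finset.card_bij' (fun z _ => Function.update z i 0) (fun z _ => Function.update z i x)
    ?_ ?_ ?_ ?_
  · intro z hz
    simp only [mem_filter, mem_univ, true_and] at hz ⊢
    obtain ⟨⟨h1, h2⟩, h3⟩ := hz
    refine ⟨fun m hm => ?_, ?_⟩
    · by_cases hmi : m = i
      · rw [hmi, Function.update_self]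
      · rw [Function.update_of_ne hmi]
        exact h1 m fun h => (Finset.mem_insert.mp h).elim hmi hm
    · rw [upd_sum, h2, h3]
      ring
  · intro z hz
    simp only [mem_filter, mem_univ, true_and] at hz ⊢
    obtain ⟨h1, h2⟩ := hz
    refine ⟨⟨fun m hm => ?_, ?_⟩, Function.update_self _ _ _⟩
    · have hmi : m ≠ i := fun h => hm (by rw [h]; exact Finset.mem_insert_self _ _)
      rw [Function.update_of_ne hmi]
      exact h1 m fun h => hm (Finset.mem_insert_of_mem h)
    · rw [upd_sum, h2, h1 i hi]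
      ring
  · intro z hz
    simp only [mem_filter, mem_univ, true_and] at hz
    rw [Function.update_idem, ← hz.2, Function.update_eq_self]
  · intro z hz
    simp only [mem_filter, mem_univ, true_and] at hz
    have h1 := hz.1 i hi
    rw [Function.update_idem, ← h1, Function.update_eq_self]

private theorem step_even (h : Odd (Fintype.card F)) (a : Fin 5 → F) (A : Finset (Fin 5))
    (i : Fin 5) (hi : i ∉ A) (ha : a i ≠ 0) (K L : ℤ)
    (hg : ∀ c, gg a A c = K + if c = 0 then L else 0) (c : F) :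
    gg a (insert i A) c = (Fintype.card F : ℤ) * K + L * (1 + ch F (a i * c)) := by
  rw [gg_insert a A i hi, Finset.sum_congr rfl fun x _ => hg (c - a i * x ^ 2),
    Finset.sum_add_distrib, Finset.sum_const, Finset.card_univ, nsmul_eq_mul, ← card_asq h _ _ ha,
    ← Finset.sum_filter, Finset.sum_const, nsmul_eq_mul]
  ring

private theorem step_odd (hJ : S_J) (h : Odd (Fintype.card F)) (a : Fin 5 → F)
    (A : Finset (Fin 5)) (i : Fin 5) (hi : i ∉ A) (ha : a i ≠ 0) (K L : ℤ) (D : F) (hD : D ≠ 0)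
    (hg : ∀ c, gg a A c = K + L * ch F (D * c)) (c : F) :
    gg a (insert i A) c = ((Fintype.card F : ℤ) * K - L * ch F (-(D * a i))) +
      if c = 0 then (Fintype.card F : ℤ) * L * ch F (-(D * a i)) else 0 := by
  rw [gg_insert a A i hi, Finset.sum_congr rfl fun x _ => hg (c - a i * x ^ 2),
    Finset.sum_add_distrib, Finset.sum_const, Finset.card_univ, nsmul_eq_mul, ← Finset.mul_sum]
  have e : ∀ x : F, ch F (D * (c - a i * x ^ 2)) = ch F (-(D * a i) * x ^ 2 + D * c) := by
    intro x
    have e1 : D * (c - a i * x ^ 2) = -(D * a i) * x ^ 2 + D * c := by ring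
    rw [e1]
  rw [Finset.sum_congr rfl fun x _ => e x,
    quad hJ h _ _ (neg_ne_zero.mpr (mul_ne_zero hD ha))]
  by_cases hc : c = 0
  · rw [if_pos (by rw [hc, mul_zero]), if_pos hc]
    ring
  · rw [if_neg (mul_ne_zero hD hc), if_neg hc]
    ring

private theorem n1 (h : Odd (Fintype.card F)) (a : Fin 5 → F) (A : Finset (Fin 5))
    (hA : A.card = 1) (ha : ∀ i ∈ A, a i ≠ 0) (c : F) :
    gg a A c = 1 + 1 * ch F ((∏ i ∈ A, a i) * c) := by
  obtain ⟨i, t, hi, rfl, ht⟩ := Finset.card_eq_succ.mp hA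
  rw [Finset.card_eq_zero] at ht
  subst ht
  rw [step_even h a ∅ i hi (ha i (Finset.mem_insert_self _ _)) 0 1 (gg_empty a) c,
    Finset.prod_insert hi, Finset.prod_empty]
  ring_nf

private theorem n2 (hJ : S_J) (h : Odd (Fintype.card F)) (a : Fin 5 → F) (A : Finset (Fin 5))
    (hA : A.card = 2) (ha : ∀ i ∈ A, a i ≠ 0) (c : F) :
    gg a A c = ((Fintype.card F : ℤ) - ch F (-(∏ i ∈ A, a i))) +
      if c = 0 then (Fintype.card F : ℤ) * ch F (-(∏ i ∈ A, a i)) else 0 := by
  obtain ⟨i, t, hi, rfl, ht⟩ := Finset.card_eq_succ.mp hA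
  have hat : ∀ j ∈ t, a j ≠ 0 := fun j hj => ha j (Finset.mem_insert_of_mem hj)
  rw [step_odd hJ h a t i hi (ha i (Finset.mem_insert_self _ _)) 1 1 (∏ i ∈ t, a i)
    (Finset.prod_ne_zero_iff.mpr hat) (n1 h a t ht hat) c, Finset.prod_insert hi,
    mul_comm (a i), mul_one, one_mul]

private theorem n3 (hJ : S_J) (h : Odd (Fintype.card F)) (a : Fin 5 → F) (A : Finset (Fin 5))
    (hA : A.card = 3) (ha : ∀ i ∈ A, a i ≠ 0) (c : F) :
    gg a A c = (Fintype.card F : ℤ) ^ 2 +
      (Fintype.card F : ℤ) * ch F (-(∏ i ∈ A, a i) * c) := by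
  obtain ⟨i, t, hi, rfl, ht⟩ := Finset.card_eq_succ.mp hA
  have hat : ∀ j ∈ t, a j ≠ 0 := fun j hj => ha j (Finset.mem_insert_of_mem hj)
  rw [step_even h a t i hi (ha i (Finset.mem_insert_self _ _)) _ _ (n2 hJ h a t ht hat) c,
    Finset.prod_insert hi]
  have e : -(a i * ∏ x ∈ t, a x) * c = -(∏ x ∈ t, a x) * (a i * c) := by ring
  rw [e, ch_mul (-(∏ x ∈ t, a x)) (a i * c)]
  ring

private theorem n4 (hJ : S_J) (h : Odd (Fintype.card F)) (a : Fin 5 → F) (A : Finset (Fin 5))
    (hA : A.card = 4) (ha : ∀ i ∈ A, a i ≠ 0) (c : F) :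
    gg a A c = ((Fintype.card F : ℤ) ^ 3 - (Fintype.card F : ℤ) * ch F (∏ i ∈ A, a i)) +
      if c = 0 then (Fintype.card F : ℤ) ^ 2 * ch F (∏ i ∈ A, a i) else 0 := by
  obtain ⟨i, t, hi, rfl, ht⟩ := Finset.card_eq_succ.mp hA
  have hat : ∀ j ∈ t, a j ≠ 0 := fun j hj => ha j (Finset.mem_insert_of_mem hj)
  rw [step_odd hJ h a t i hi (ha i (Finset.mem_insert_self _ _)) _ _ (-(∏ i ∈ t, a i))
    (neg_ne_zero.mpr (Finset.prod_ne_zero_iff.mpr hat)) (n3 hJ h a t ht hat) c,
    Finset.prod_insert hi]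
  have e : -(-(∏ x ∈ t, a x) * a i) = a i * ∏ x ∈ t, a x := by ring
  rw [e]
  have e1 : (Fintype.card F : ℤ) * (Fintype.card F : ℤ) ^ 2 = (Fintype.card F : ℤ) ^ 3 := by ring
  have e2 : (Fintype.card F : ℤ) * (Fintype.card F : ℤ) = (Fintype.card F : ℤ) ^ 2 := by ring
  rw [e1, e2]

private theorem n5 (hJ : S_J) (h : Odd (Fintype.card F)) (a : Fin 5 → F) (A : Finset (Fin 5))
    (hA : A.card = 5) (ha : ∀ i ∈ A, a i ≠ 0) (c : F) :
    gg a A c = (Fintype.card F : ℤ) ^ 4 +
      (Fintype.card F : ℤ) ^ 2 * ch F ((∏ i ∈ A, a i) * c) := by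
  obtain ⟨i, t, hi, rfl, ht⟩ := Finset.card_eq_succ.mp hA
  have hat : ∀ j ∈ t, a j ≠ 0 := fun j hj => ha j (Finset.mem_insert_of_mem hj)
  rw [step_even h a t i hi (ha i (Finset.mem_insert_self _ _)) _ _ (n4 hJ h a t ht hat) c,
    Finset.prod_insert hi]
  have e : a i * (∏ x ∈ t, a x) * c = (∏ x ∈ t, a x) * (a i * c) := by ring
  rw [e, ch_mul (∏ x ∈ t, a x) (a i * c)]
  ring

end aux

/-- **Zeros of diagonal forms.** -/
theorem tG (hJ : S_J) : S_G := by
  intro F _ _ h A a ha
  refine ⟨fun hA => ?_, fun hA => ?_, fun hA => ?_⟩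
  · have h1 := n3 hJ h a A hA ha 0
    rw [mul_zero, ch_zero, mul_zero, add_zero] at h1
    exact h1
  · have h1 := n4 hJ h a A hA ha 0
    rw [if_pos rfl] at h1
    refine Eq.trans h1 ?_
    ring
  · have h1 := n5 hJ h a A hA ha 0
    rw [mul_zero, ch_zero, mul_zero, add_zero] at h1
    exact h1

end Pool.Agent.CapThree
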