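import Pool.Agent.CapThree.Spec

/-! # CapThree: the other half -/

noncomputable section

namespace Pool.Agent.CapThree

open Finset Pool.Agent.Caps Pool.Agent.CapFive
open scoped Classical

private theorem sum_upd {F : Type} [Field F] (a z : Fin 5 → F) (j : Fin 5) (x : F) :
    ∑ i, a i * (Function.update z j x) i ^ 2 = ∑ i, a i * z i ^ 2 - a j * z j ^ 2 + a j * x ^ 2 := by
  rw [← Finset.add_sum_erase univ (fun i => a i * (Function.update z j x) i ^ 2) (mem_univ j),
    ← Finset.add_sum_erase univ (fun i => a i * z i ^ 2) (mem_univ j)]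
  have e : ∑ i ∈ univ.erase j, a i * (Function.update z j x) i ^ 2 =
      ∑ i ∈ univ.erase j, a i * z i ^ 2 := by
    refine Finset.sum_congr rfl fun i hi => ?_
    rw [Function.update_of_ne (Finset.ne_of_mem_erase hi)]
  simp only [Function.update_self]
  rw [e]
  ring

private theorem Qf_eq {F : Type} [Field F] (μ β : Fin 5 → F) (j : Fin 5) (z : Fin 5 → F) :
    Qf μ β j z = Mf μ β z - μ j * Rf β z := by
  unfold Qf Mf Rf
  rw [Finset.mul_sum, ← Finset.sum_sub_distrib]
  refine Finset.sum_congr rfl fun i _ => ?_
  ring

private theorem Qf_upd {F : Type} [Field F] (μ β : Fin 5 → F) (j : Fin 5) (z : Fin 5 → F) (x : F) :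
    Qf μ β j (Function.update z j x) = Qf μ β j z := by
  unfold Qf
  rw [sum_upd (fun i => β i * (μ i - μ j))]
  simp

private theorem Rf_upd {F : Type} [Field F] (β : Fin 5 → F) (j : Fin 5) (z : Fin 5 → F) (x : F) :
    Rf β (Function.update z j x) = Rf β z - β j * z j ^ 2 + β j * x ^ 2 := by
  unfold Rf
  exact sum_upd β z j x

theorem tHalf : S_Half := by
  intro F _ _ hodd μ β hD j hj
  have h2 : ringChar F ≠ 2 := by
    intro h
    have := FiniteField.even_card_of_char_two h
    rw [Nat.odd_iff] at hodd
    omega
  have hβ : β j ≠ 0 := hD.ne j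
  have hsplit := Finset.card_filter_add_card_filter_not (s := Ys μ β j)
    (fun z => ch F (-(β j) * Rf β z) = 1)
  have hPs : ((Ys μ β j).filter fun z => ¬ ch F (-(β j) * Rf β z) = 1) = Ps μ β j := rfl
  rw [hPs] at hsplit
  obtain ⟨Y', hY'⟩ : ∃ Y', Y' = (Ys μ β j).filter fun z => ch F (-(β j) * Rf β z) = 1 := ⟨_, rfl⟩
  rw [← hY'] at hsplit
  have hmap : ∀ ζ ∈ X0 μ β, Function.update ζ j 0 ∈ Y' := by
    intro ζ hζ
    obtain ⟨hR, hM, hne⟩ := (Finset.mem_filter.1 hζ).2
    rw [hY', Finset.mem_filter]
    constructor
    · refine Finset.mem_filter.2 ⟨mem_univ _, by simp, ?_, ?_⟩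
      · rw [Qf_upd, Qf_eq, hR, hM]
        ring
      · intro k hk hk4
        rw [Function.update_of_ne hk]
        exact hne k hk4
    · have e : -(β j) * Rf β (Function.update ζ j 0) = (β j * ζ j) ^ 2 := by
        rw [Rf_upd, hR]
        ring
      rw [e]
      unfold ch
      exact quadraticChar_sq_one' (mul_ne_zero hβ (hne j hj))
  have hfib : ∀ z ∈ Y', ((X0 μ β).filter fun ζ => Function.update ζ j 0 = z).card = 2 := by
    intro z hz
    rw [hY', Finset.mem_filter] at hz
    obtain ⟨hz1, hz2⟩ := hz
    obtain ⟨hzj, hQ, hne⟩ := (Finset.mem_filter.1 hz1).2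
    have hne0 : -(β j) * Rf β z ≠ 0 := by
      intro h0
      rw [h0] at hz2
      unfold ch at hz2
      simp at hz2
    have hsq : IsSquare (-(β j) * Rf β z) := (quadraticChar_one_iff_isSquare hne0).1 hz2
    obtain ⟨t, ht⟩ := hsq
    have ht0 : t ≠ 0 := by
      rintro rfl
      apply hne0
      rw [ht]
      ring
    obtain ⟨x, hx⟩ : ∃ x, x = t / β j := ⟨_, rfl⟩
    have hx0 : x ≠ 0 := by
      rw [hx]
      exact div_ne_zero ht0 hβ
    have hxR : Rf β z + β j * x ^ 2 = 0 := by
      have h1 : β j * (Rf β z + β j * x ^ 2) = 0 := by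
        have h3 : β j * x = t := by
          rw [hx]
          field_simp
        have h4 : β j * (β j * x ^ 2) = t * t := by
          rw [← h3]
          ring
        rw [mul_add, h4, ← ht]
        ring
      exact (mul_eq_zero.1 h1).resolve_left hβ
    have hxx : x ≠ -x := by
      intro h
      have h3 : (2 : F) * x = 0 := by linear_combination h
      rcases mul_eq_zero.1 h3 with h4 | h4
      · exact Ring.two_ne_zero h2 h4
      · exact hx0 h4
    have hset : ((X0 μ β).filter fun ζ => Function.update ζ j 0 = z) =
        {Function.update z j x, Function.update z j (-x)} := by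
      ext ζ
      simp only [Finset.mem_filter, Finset.mem_insert, Finset.mem_singleton]
      constructor
      · rintro ⟨hζ, hu⟩
        obtain ⟨hR, hM, _⟩ := (Finset.mem_filter.1 hζ).2
        have e1 : Rf β z = - (β j * ζ j ^ 2) := by
          rw [← hu, Rf_upd, hR]
          ring
        have e2 : (ζ j - x) * (ζ j + x) = 0 := by
          have h5 : β j * ((ζ j - x) * (ζ j + x)) = 0 := by
            linear_combination -hxR + e1
          exact (mul_eq_zero.1 h5).resolve_left hβ
        have e3 : ζ = Function.update z j (ζ j) := by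
          rw [← hu]
          simp
        rcases mul_eq_zero.1 e2 with h | h
        · left
          rw [sub_eq_zero.1 h] at e3
          exact e3
        · right
          rw [eq_neg_of_add_eq_zero_left h] at e3
          exact e3
      · have hmem : ∀ y : F, y ^ 2 = x ^ 2 → y ≠ 0 → Function.update z j y ∈ X0 μ β ∧
            Function.update (Function.update z j y) j 0 = z := by
          intro y hy hy0
          have hR : Rf β (Function.update z j y) = 0 := by
            rw [Rf_upd, hy, hzj]
            linear_combination hxR
          have hM : Mf μ β (Function.update z j y) = 0 := by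
            have h6 : Qf μ β j (Function.update z j y) = 0 := by rw [Qf_upd, hQ]
            rw [Qf_eq, hR] at h6
            linear_combination h6
          refine ⟨Finset.mem_filter.2 ⟨mem_univ _, hR, hM, ?_⟩, ?_⟩
          · intro k hk4
            by_cases hkj : k = j
            · rw [hkj, Function.update_self]
              exact hy0
            · rw [Function.update_of_ne hkj]
              exact hne k hkj hk4
          · rw [Function.update_idem, ← hzj, Function.update_eq_self]
        rintro (h | h)
        · rw [h]
          exact hmem x rfl hx0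
        · rw [h]
          exact hmem (-x) (by ring) (neg_ne_zero.2 hx0)
    rw [hset, Finset.card_pair]
    intro h
    apply hxx
    have := congrFun h j
    simpa using this
  have hX : (X0 μ β).card = 2 * Y'.card := by
    rw [Finset.card_eq_sum_card_fiberwise (f := fun ζ => Function.update ζ j 0) (t := Y')
      (fun ζ hζ => hmap ζ hζ)]
    rw [Finset.sum_congr rfl hfib, Finset.sum_const, smul_eq_mul]
    ring
  rw [hX]
  omega

end Pool.Agent.CapThree
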