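import Pool.Agent.CapThree.Spec

/-! # CapThree: inclusion and exclusion -/

noncomputable section

namespace Pool.Agent.CapThree

open Finset Pool.Agent.Caps Pool.Agent.CapFive
open scoped Classical

theorem tIE : S_IE := by
  intro F _ _ S T hT
  have h1 : (S.filter fun z => ∀ k ∈ T, z k ≠ 0).card =
      ∑ z ∈ S, (if ∀ k ∈ T, z k ≠ 0 then 1 else 0) := by
    rw [Finset.card_filter]
  have h2 : ∑ k ∈ T, (S.filter fun z => z k = 0).card =
      ∑ z ∈ S, (T.filter fun k => z k = 0).card := by
    simp only [Finset.card_filter]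
    rw [Finset.sum_comm]
  have h3 : ∑ p ∈ T.powersetCard 2, (S.filter fun z => ∀ k ∈ p, z k = 0).card =
      ∑ z ∈ S, ((T.filter fun k => z k = 0).card).choose 2 := by
    have e : ∀ z : Fin 5 → F, ((T.filter fun k => z k = 0).card).choose 2 =
        ∑ p ∈ T.powersetCard 2, (if ∀ k ∈ p, z k = 0 then 1 else 0) := by
      intro z
      rw [← Finset.card_powersetCard, ← Finset.card_filter]
      congr 1
      ext p
      simp only [Finset.mem_powersetCard, Finset.mem_filter]
      constructor
      · rintro ⟨hp, hc⟩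
        refine ⟨⟨fun k hk => (Finset.mem_filter.1 (hp hk)).1, hc⟩, fun k hk =>
          (Finset.mem_filter.1 (hp hk)).2⟩
      · rintro ⟨⟨hp, hc⟩, hz⟩
        exact ⟨fun k hk => Finset.mem_filter.2 ⟨hp hk, hz k hk⟩, hc⟩
    simp only [e]
    rw [Finset.sum_comm]
    refine Finset.sum_congr rfl fun p _ => ?_
    rw [Finset.card_filter]
  rw [h1, h2, h3, Finset.card_eq_sum_ones, ← Finset.sum_add_distrib, ← Finset.sum_add_distrib]
  refine Finset.sum_congr rfl fun z hz => ?_
  have hle := hT z hz
  by_cases h0 : ∀ k ∈ T, z k ≠ 0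
  · have hc : (T.filter fun k => z k = 0).card = 0 := by
      rw [Finset.card_eq_zero, Finset.filter_eq_empty_iff]
      exact fun k hk => h0 k hk
    rw [if_pos h0, hc]
    rfl
  · rw [if_neg h0]
    have hpos : 0 < (T.filter fun k => z k = 0).card := by
      rw [Finset.card_pos]
      push Not at h0
      obtain ⟨k, hk, hk0⟩ := h0
      exact ⟨k, Finset.mem_filter.2 ⟨hk, hk0⟩⟩
    obtain ⟨ν, hν⟩ : ∃ ν, ν = (T.filter fun k => z k = 0).card := ⟨_, rfl⟩
    rw [← hν] at hle hpos ⊢
    interval_cases ν <;> rfl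

end Pool.Agent.CapThree
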