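import Pool.Agent.CapThree.Spec

set_option autoImplicit false

namespace Pool.Agent.CapThree

open Finset Pool.Agent.Caps Pool.Agent.CapFive
open scoped Classical

theorem tJ : S_J := by
  intro F _ _ hodd a b hab
  have hc : b - a ≠ 0 := sub_ne_zero.2 (Ne.symm hab)
  have h2 : ringChar F ≠ 2 := by
    intro h
    have h3 := FiniteField.even_card_of_char_two h
    rw [Nat.odd_iff] at hodd
    omega
  have e1 : ∑ x : F, ch F ((x - a) * (x - b)) = ∑ y : F, ch F (y * (y - (b - a))) := by
    rw [← Equiv.sum_comp (Equiv.addRight a)]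
    refine Finset.sum_congr rfl fun y _ => ?_
    rw [Equiv.coe_addRight]
    congr 1
    ring
  have e2 : ∀ y : F, ch F (y * (y - (b - a))) =
      (fun t : F => ch F (1 - (b - a) * t) - if t = 0 then 1 else 0) (Equiv.inv F y) := by
    intro y
    by_cases hy : y = 0
    · subst hy
      simp [ch, Equiv.inv_apply]
    · have e : y * (y - (b - a)) = (y * y) * (1 - (b - a) * y⁻¹) := by
        field_simp
      have h1 : quadraticChar F y * quadraticChar F y = 1 := by
        rw [← pow_two]
        exact quadraticChar_sq_one hy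
      have h3 : y⁻¹ ≠ 0 := inv_ne_zero hy
      simp only [Equiv.inv_apply, h3, if_false, sub_zero]
      unfold ch
      rw [e, map_mul, map_mul, h1, one_mul]
  have e4 := Equiv.sum_comp (Equiv.inv F)
    (fun t : F => ch F (1 - (b - a) * t) - if t = 0 then 1 else 0)
  rw [e1, Finset.sum_congr rfl (fun y _ => e2 y), e4, Finset.sum_sub_distrib]
  have e3 : ∑ t : F, ch F (1 - (b - a) * t) = 0 := by
    have h4 : ∑ t : F, quadraticChar F t = 0 := quadraticChar_sum_zero h2
    have h5 := Equiv.sum_comp ((Equiv.mulLeft₀ (b - a) hc).trans (Equiv.subLeft (1 : F)))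
      (fun t => quadraticChar F t)
    exact h5.trans h4
  rw [e3, Finset.sum_ite_eq']
  simp

end Pool.Agent.CapThree
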