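import Pool.Agent.CapThree.Spec

set_option autoImplicit false

namespace Pool.Agent.CapThree

open Finset Pool.Agent.Caps Pool.Agent.CapFive

private theorem key_exists : ∀ j k l : Fin 5, j ≠ 4 → k ≠ 4 → l ≠ 4 → j ≠ k → j ≠ l → k ≠ l →
    ∃ m : Fin 5, m ≠ 4 ∧ m ≠ j ∧ m ≠ k ∧ m ≠ l := by
  decide

private theorem key_quad {F : Type} [Field F] (_x A B C U V W : F) (h : A + B + C = 0)
    (r : A * U + B * V + C * W = 0) :
    C * (A * U ^ 2 + B * V ^ 2 + C * W ^ 2) = -(A * B * (U - V) ^ 2) := by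
  have hC : C = -A - B := by linear_combination h
  have e : C * (A * U ^ 2 + B * V ^ 2 + C * W ^ 2) = C * (A * U ^ 2 + B * V ^ 2) +
      (A * U + B * V) ^ 2 := by
    linear_combination (C * W - A * U - B * V) * r
  rw [e, hC]
  ring

private theorem key_alg {F : Type} [Field F] (mj mk ml mm m4 bj bk bl bm b4 Uk Ul Um U4 Vj Vl Vm V4
    Wj Wk Wm W4 : F) (hj : Vj = Wj) (hk : Uk = Wk) (hl : Ul = Vl)
    (rm : (mm - mj) * (mk - ml) * Um + (mm - mk) * (ml - mj) * Vm +
      (mm - ml) * (mj - mk) * Wm = 0)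
    (r4 : (m4 - mj) * (mk - ml) * U4 + (m4 - mk) * (ml - mj) * V4 +
      (m4 - ml) * (mj - mk) * W4 = 0)
    (Qj : bk * (mk - mj) * Uk ^ 2 + bl * (ml - mj) * Ul ^ 2 + bm * (mm - mj) * Um ^ 2 +
      b4 * (m4 - mj) * U4 ^ 2 = 0)
    (Qk : bj * (mj - mk) * Vj ^ 2 + bl * (ml - mk) * Vl ^ 2 + bm * (mm - mk) * Vm ^ 2 +
      b4 * (m4 - mk) * V4 ^ 2 = 0)
    (Ql : bj * (mj - ml) * Wj ^ 2 + bk * (mk - ml) * Wk ^ 2 + bm * (mm - ml) * Wm ^ 2 +
      b4 * (m4 - ml) * W4 ^ 2 = 0) :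
    bm * ((m4 - ml) * (mj - mk)) * ((mm - mj) * (mk - ml) * ((mm - mk) * (ml - mj))) *
        (Um - Vm) ^ 2 +
      b4 * ((mm - ml) * (mj - mk)) * ((m4 - mj) * (mk - ml) * ((m4 - mk) * (ml - mj))) *
        (U4 - V4) ^ 2 = 0 := by
  subst hj hk hl
  have e1 := key_quad (mm - ml) _ _ _ _ _ _ (by ring) rm
  have e2 := key_quad (m4 - ml) _ _ _ _ _ _ (by ring) r4
  have e3 : bm * ((mm - mj) * (mk - ml) * Um ^ 2 + (mm - mk) * (ml - mj) * Vm ^ 2 +
      (mm - ml) * (mj - mk) * Wm ^ 2) + b4 * ((m4 - mj) * (mk - ml) * U4 ^ 2 +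
      (m4 - mk) * (ml - mj) * V4 ^ 2 + (m4 - ml) * (mj - mk) * W4 ^ 2) = 0 := by
    linear_combination (mk - ml) * Qj + (ml - mj) * Qk + (mj - mk) * Ql
  generalize (mm - mj) * (mk - ml) = Am at *
  generalize (mm - mk) * (ml - mj) = Bm at *
  generalize (mm - ml) * (mj - mk) = Cm at *
  generalize (m4 - mj) * (mk - ml) = A4 at *
  generalize (m4 - mk) * (ml - mj) = B4 at *
  generalize (m4 - ml) * (mj - mk) = C4 at *
  linear_combination (-(Cm * C4)) * e3 + bm * C4 * e1 + b4 * Cm * e2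

private theorem key_sq {F : Type} [Field F] (mj mk ml mm m4 bj bk bl bm b4 d e : F)
    (h1 : mk - ml ≠ 0) (h2 : ml - mj ≠ 0) (h3 : mj - mk ≠ 0)
    (hn : ¬ IsSquare ((bj * (mj - mm) * (bk * (mk - mm)) * (bl * (ml - mm)) * (b4 * (m4 - mm))) *
      (bj * (mj - m4) * (bk * (mk - m4)) * (bl * (ml - m4)) * (bm * (mm - m4)))))
    (hr : bm * ((m4 - ml) * (mj - mk)) * ((mm - mj) * (mk - ml) * ((mm - mk) * (ml - mj))) *
        d ^ 2 +
      b4 * ((mm - ml) * (mj - mk)) * ((m4 - mj) * (mk - ml) * ((m4 - mk) * (ml - mj))) *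
        e ^ 2 = 0) : e = 0 := by
  by_contra he
  apply hn
  -- divide the relation by `V = (mk - ml) (ml - mj) (mj - mk)`
  have hV : (mk - ml) * (ml - mj) * (mj - mk) ≠ 0 := mul_ne_zero (mul_ne_zero h1 h2) h3
  have hr' : bm * (m4 - ml) * (mm - mj) * (mm - mk) * d ^ 2 +
      b4 * (mm - ml) * (m4 - mj) * (m4 - mk) * e ^ 2 = 0 := by
    have h' : ((mk - ml) * (ml - mj) * (mj - mk)) * (bm * (m4 - ml) * (mm - mj) * (mm - mk) * d ^ 2 +
      b4 * (mm - ml) * (m4 - mj) * (m4 - mk) * e ^ 2) = 0 := by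
      rw [← hr]
      ring
    exact (mul_eq_zero.1 h').resolve_left hV
  refine ⟨bj * bk * bl * (m4 - mm) * (bm * (m4 - ml) * (mm - mj) * (mm - mk)) * d / e, ?_⟩
  have hs : (bj * bk * bl * (m4 - mm) * (bm * (m4 - ml) * (mm - mj) * (mm - mk)) * d) ^ 2 =
      -((bj * bk * bl * (m4 - mm)) ^ 2 * (bm * (m4 - ml) * (mm - mj) * (mm - mk)) *
        (b4 * (mm - ml) * (m4 - mj) * (m4 - mk)) * e ^ 2) := by
    generalize bm * (m4 - ml) * (mm - mj) * (mm - mk) = X at *
    generalize b4 * (mm - ml) * (m4 - mj) * (m4 - mk) = Y at *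
    linear_combination (bj * bk * bl * (m4 - mm)) ^ 2 * X * hr'
  rw [div_mul_div_comm, ← pow_two, hs, eq_div_iff (mul_ne_zero he he)]
  ring

open scoped Classical in
theorem tKey : S_Key := by
  intro F _ _ μ β hD j k l hj4 hk4 hl4 hjk hjl hkl u v w hu hv hw hrel
  obtain ⟨m, hm4, hmj, hmk, hml⟩ := key_exists j k l hj4 hk4 hl4 hjk hjl hkl
  have hun : (univ : Finset (Fin 5)) = {j, k, l, m, 4} := by
    symm
    apply eq_univ_of_card
    rw [Fintype.card_fin, card_insert_of_notMem (by simp [hjk, hjl, hmj.symm, hj4]),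
      card_insert_of_notMem (by simp [hkl, hmk.symm, hk4]),
      card_insert_of_notMem (by simp [hml.symm, hl4]), card_insert_of_notMem (by simp [hm4]),
      card_singleton]
  have hcases : ∀ i : Fin 5, i = j ∨ i = k ∨ i = l ∨ i = m ∨ i = 4 := by
    intro i
    have h := mem_univ i
    rw [hun] at h
    simpa only [mem_insert, mem_singleton] using h
  have hne : ∀ a b : Fin 5, a ≠ b → μ a - μ b ≠ 0 := fun a b h =>
    sub_ne_zero.2 fun h' => h (hD.inj h')
  have hsum : ∀ f : Fin 5 → F, ∑ i, f i = f j + (f k + (f l + (f m + f 4))) := by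
    intro f
    rw [hun, sum_insert (by simp [hjk, hjl, hmj.symm, hj4]),
      sum_insert (by simp [hkl, hmk.symm, hk4]), sum_insert (by simp [hml.symm, hl4]),
      sum_insert (by simp [hm4]), sum_singleton]
  have h1 := hne k l hkl
  have h2 := hne l j hjl.symm
  have h3 := hne j k hjk
  -- scaled vectors
  obtain ⟨U, hU⟩ : ∃ U : Fin 5 → F, ∀ i, u i = (μ k - μ l) * U i :=
    ⟨fun i => u i / (μ k - μ l), fun i => (mul_div_cancel₀ (u i) h1).symm⟩
  obtain ⟨V, hV⟩ : ∃ V : Fin 5 → F, ∀ i, v i = (μ l - μ j) * V i :=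
    ⟨fun i => v i / (μ l - μ j), fun i => (mul_div_cancel₀ (v i) h2).symm⟩
  obtain ⟨W, hW⟩ : ∃ W : Fin 5 → F, ∀ i, w i = (μ j - μ k) * W i :=
    ⟨fun i => w i / (μ j - μ k), fun i => (mul_div_cancel₀ (w i) h3).symm⟩
  -- the relation
  have hr : ∀ i, (μ i - μ j) * (μ k - μ l) * U i + (μ i - μ k) * (μ l - μ j) * V i +
      (μ i - μ l) * (μ j - μ k) * W i = 0 := by
    intro i
    have h := hrel i
    unfold wv at h
    rw [hU, hV, hW] at h
    have h' : β i * ((μ i - μ j) * (μ k - μ l) * U i + (μ i - μ k) * (μ l - μ j) * V i +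
      (μ i - μ l) * (μ j - μ k) * W i) = 0 := by
      linear_combination h
    exact (mul_eq_zero.1 h').resolve_left (hD.ne i)
  have hVW : V j = W j := by
    have h := hr j
    have h' : ((μ j - μ k) * (μ l - μ j)) * (V j - W j) = 0 := by
      linear_combination h
    exact sub_eq_zero.1 ((mul_eq_zero.1 h').resolve_left (mul_ne_zero h3 h2))
  have hUW : U k = W k := by
    have h := hr k
    have h' : ((μ j - μ k) * (μ k - μ l)) * (U k - W k) = 0 := by
      linear_combination -h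
    exact sub_eq_zero.1 ((mul_eq_zero.1 h').resolve_left (mul_ne_zero h3 h1))
  have hUV : U l = V l := by
    have h := hr l
    have h' : ((μ l - μ j) * (μ k - μ l)) * (U l - V l) = 0 := by
      linear_combination h
    exact sub_eq_zero.1 ((mul_eq_zero.1 h').resolve_left (mul_ne_zero h2 h1))
  -- the quadrics
  have qj : β k * (μ k - μ j) * U k ^ 2 + β l * (μ l - μ j) * U l ^ 2 +
      β m * (μ m - μ j) * U m ^ 2 + β 4 * (μ 4 - μ j) * U 4 ^ 2 = 0 := by
    unfold Qf at hu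
    rw [hsum] at hu
    simp only [hU] at hu
    have h' : (μ k - μ l) ^ 2 * (β k * (μ k - μ j) * U k ^ 2 + β l * (μ l - μ j) * U l ^ 2 +
      β m * (μ m - μ j) * U m ^ 2 + β 4 * (μ 4 - μ j) * U 4 ^ 2) = 0 := by
      linear_combination hu
    exact (mul_eq_zero.1 h').resolve_left (pow_ne_zero 2 h1)
  have qk : β j * (μ j - μ k) * V j ^ 2 + β l * (μ l - μ k) * V l ^ 2 +
      β m * (μ m - μ k) * V m ^ 2 + β 4 * (μ 4 - μ k) * V 4 ^ 2 = 0 := by
    unfold Qf at hv
    rw [hsum] at hv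
    simp only [hV] at hv
    have h' : (μ l - μ j) ^ 2 * (β j * (μ j - μ k) * V j ^ 2 + β l * (μ l - μ k) * V l ^ 2 +
      β m * (μ m - μ k) * V m ^ 2 + β 4 * (μ 4 - μ k) * V 4 ^ 2) = 0 := by
      linear_combination hv
    exact (mul_eq_zero.1 h').resolve_left (pow_ne_zero 2 h2)
  have ql : β j * (μ j - μ l) * W j ^ 2 + β k * (μ k - μ l) * W k ^ 2 +
      β m * (μ m - μ l) * W m ^ 2 + β 4 * (μ 4 - μ l) * W 4 ^ 2 = 0 := by
    unfold Qf at hw
    rw [hsum] at hw
    simp only [hW] at hw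
    have h' : (μ j - μ k) ^ 2 * (β j * (μ j - μ l) * W j ^ 2 + β k * (μ k - μ l) * W k ^ 2 +
      β m * (μ m - μ l) * W m ^ 2 + β 4 * (μ 4 - μ l) * W 4 ^ 2) = 0 := by
      linear_combination hw
    exact (mul_eq_zero.1 h').resolve_left (pow_ne_zero 2 h3)
  have halg := key_alg (μ j) (μ k) (μ l) (μ m) (μ 4) (β j) (β k) (β l) (β m) (β 4) (U k) (U l) (U m)
    (U 4) (V j) (V l) (V m) (V 4) (W j) (W k) (W m) (W 4) hVW hUW hUV (hr m) (hr 4) qj qk ql
  -- the product is not a square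
  have hns : ¬ IsSquare ((β j * (μ j - μ m) * (β k * (μ k - μ m)) * (β l * (μ l - μ m)) *
      (β 4 * (μ 4 - μ m))) * (β j * (μ j - μ 4) * (β k * (μ k - μ 4)) * (β l * (μ l - μ 4)) *
      (β m * (μ m - μ 4)))) := by
    have e1 := hD.ty m hm4
    have e2 := hD.ty4
    have er1 : (univ : Finset (Fin 5)).erase m = {j, k, l, 4} := by
      ext i
      simp only [mem_erase, mem_univ, and_true, mem_insert, mem_singleton]
      constructor
      · intro h
        rcases hcases i with h' | h' | h' | h' | h'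
        · exact Or.inl h'
        · exact Or.inr (Or.inl h')
        · exact Or.inr (Or.inr (Or.inl h'))
        · exact absurd h' h
        · exact Or.inr (Or.inr (Or.inr h'))
      · rintro (rfl | rfl | rfl | rfl)
        · exact hmj.symm
        · exact hmk.symm
        · exact hml.symm
        · exact hm4.symm
    have er2 : (univ : Finset (Fin 5)).erase 4 = {j, k, l, m} := by
      ext i
      simp only [mem_erase, mem_univ, and_true, mem_insert, mem_singleton]
      constructor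
      · intro h
        rcases hcases i with h' | h' | h' | h' | h'
        · exact Or.inl h'
        · exact Or.inr (Or.inl h')
        · exact Or.inr (Or.inr (Or.inl h'))
        · exact Or.inr (Or.inr (Or.inr h'))
        · exact absurd h' h
      · rintro (rfl | rfl | rfl | rfl) <;> assumption
    unfold ch at e1 e2
    rw [er1,
      prod_insert (by simp [hjk, hjl, hj4]), prod_insert (by simp [hkl, hk4]),
      prod_insert (by simp [hl4]), prod_singleton] at e1
    rw [er2,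
      prod_insert (by simp [hjk, hjl, hmj.symm]), prod_insert (by simp [hkl, hmk.symm]),
      prod_insert (by simp [hml.symm]), prod_singleton] at e2
    have e3 : quadraticChar F ((β j * (μ j - μ m) * (β k * (μ k - μ m)) * (β l * (μ l - μ m)) *
      (β 4 * (μ 4 - μ m))) * (β j * (μ j - μ 4) * (β k * (μ k - μ 4)) * (β l * (μ l - μ 4)) *
      (β m * (μ m - μ 4)))) = -1 := by
      rw [map_mul]
      have e4 : β j * (μ j - μ m) * (β k * (μ k - μ m)) * (β l * (μ l - μ m)) * (β 4 * (μ 4 - μ m))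
        = β j * (μ j - μ m) * (β k * (μ k - μ m) * (β l * (μ l - μ m) * (β 4 * (μ 4 - μ m)))) := by
        ring
      have e5 : β j * (μ j - μ 4) * (β k * (μ k - μ 4)) * (β l * (μ l - μ 4)) * (β m * (μ m - μ 4))
        = β j * (μ j - μ 4) * (β k * (μ k - μ 4) * (β l * (μ l - μ 4) * (β m * (μ m - μ 4)))) := by
        ring
      rw [e4, e5, e1, e2]
      norm_num
    exact quadraticChar_neg_one_iff_not_isSquare.1 e3
  have hd4 : U 4 - V 4 = 0 := key_sq _ _ _ _ _ _ _ _ _ _ _ _ h1 h2 h3 hns halg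
  have hdm : U m - V m = 0 := by
    rw [hd4] at halg
    have h' : (β m * ((μ 4 - μ l) * (μ j - μ k)) * ((μ m - μ j) * (μ k - μ l) *
        ((μ m - μ k) * (μ l - μ j)))) * (U m - V m) ^ 2 = 0 := by
      linear_combination halg
    have h4l := hne 4 l hl4.symm
    have hmj' := hne m j hmj
    have hmk' := hne m k hmk
    exact pow_eq_zero_iff (two_ne_zero) |>.1 ((mul_eq_zero.1 h').resolve_left
      (mul_ne_zero (mul_ne_zero (hD.ne m) (mul_ne_zero h4l h3))
        (mul_ne_zero (mul_ne_zero hmj' h1) (mul_ne_zero hmk' h2))))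
  have hUWi : ∀ i, i ≠ l → U i - V i = 0 → U i = W i := by
    intro i hil hi
    have h := hr i
    have h' : ((μ i - μ l) * (μ j - μ k)) * (U i - W i) = 0 := by
      linear_combination -h + (μ i - μ k) * (μ l - μ j) * (-1) * hi
    exact sub_eq_zero.1 ((mul_eq_zero.1 h').resolve_left (mul_ne_zero (hne i l hil) h3))
  have hW4 := hUWi 4 hl4.symm hd4
  have hWm := hUWi m hml hdm
  rw [sub_eq_zero] at hd4 hdm
  -- the common vector
  obtain ⟨ζ, hζj, hζ⟩ : ∃ ζ : Fin 5 → F, ζ j = V j ∧ ∀ i, i ≠ j → ζ i = U i :=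
    ⟨Function.update U j (V j), Function.update_self _ _ _, fun i hi =>
      Function.update_of_ne hi _ _⟩
  have hζk := hζ k hjk.symm
  have hζl := hζ l hjl.symm
  have hζm := hζ m hmj
  have hζ4 := hζ 4 hj4.symm
  have hQj : β j * μ j * ζ j ^ 2 + (β k * μ k * ζ k ^ 2 + (β l * μ l * ζ l ^ 2 +
      (β m * μ m * ζ m ^ 2 + β 4 * μ 4 * ζ 4 ^ 2))) - μ j * (β j * ζ j ^ 2 + (β k * ζ k ^ 2 +
      (β l * ζ l ^ 2 + (β m * ζ m ^ 2 + β 4 * ζ 4 ^ 2)))) = 0 := by
    rw [hζk, hζl, hζm, hζ4]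
    linear_combination qj
  have hQk : β j * μ j * ζ j ^ 2 + (β k * μ k * ζ k ^ 2 + (β l * μ l * ζ l ^ 2 +
      (β m * μ m * ζ m ^ 2 + β 4 * μ 4 * ζ 4 ^ 2))) - μ k * (β j * ζ j ^ 2 + (β k * ζ k ^ 2 +
      (β l * ζ l ^ 2 + (β m * ζ m ^ 2 + β 4 * ζ 4 ^ 2)))) = 0 := by
    rw [hζj, hζl, hζm, hζ4, hUV, hdm, hd4]
    linear_combination qk
  have hR : Rf β ζ = 0 := by
    unfold Rf
    rw [hsum]
    have h' : (μ j - μ k) * (β j * ζ j ^ 2 + (β k * ζ k ^ 2 +
      (β l * ζ l ^ 2 + (β m * ζ m ^ 2 + β 4 * ζ 4 ^ 2)))) = 0 := by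
      linear_combination hQk - hQj
    exact (mul_eq_zero.1 h').resolve_left h3
  have hM : Mf μ β ζ = 0 := by
    have hR' := hR
    unfold Rf at hR'
    unfold Mf
    rw [hsum] at hR' ⊢
    linear_combination hQj + μ j * hR'
  refine ⟨ζ, hR, hM, ⟨μ k - μ l, h1, fun i hi => ?_⟩, ⟨μ l - μ j, h2, fun i hi => ?_⟩,
    ⟨μ j - μ k, h3, fun i hi => ?_⟩⟩
  · rw [hU, hζ i hi]
  · rw [hV]
    rcases hcases i with rfl | rfl | rfl | rfl | rfl
    · rw [hζj]
    · exact absurd rfl hi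
    · rw [hζl, hUV]
    · rw [hζm, hdm]
    · rw [hζ4, hd4]
  · rw [hW]
    rcases hcases i with rfl | rfl | rfl | rfl | rfl
    · rw [hζj, hVW]
    · rw [hζk, hUW]
    · exact absurd rfl hi
    · rw [hζm, hWm]
    · rw [hζ4, hW4]

end Pool.Agent.CapThree
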