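import Mathlib
import Pool.Agent.Caps.Defs
import Pool.Agent.CapFive.Spec

/-!
# Caps with `3 q^2 - 6 q - 16` points in PG(4, q), `q` odd

Every `S_X : Prop` of this file is to be proved as `theorem tX : S_X` (with the `S_Y` named under Uses as
explicit hypotheses) in `CapThree/X.lean`. The docstrings contain the complete proofs.

Idea. `F` a field with `q` elements, `q` odd, `μ_0, …, μ_4 ∈ F` distinct, `β_i ∈ F^*`. For `z ∈ F^5` put
`Q_j(z) = ∑ β_i (μ_i - μ_j) z_i^2` (it does not depend on `z_j`), `R(z) = ∑ β_i z_i^2`, `M(z) = ∑ β_i μ_i z_i^2`, so `Q_j = M - μ_j R`.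
For `j ≤ 3` the points `w_j(z) = (β_i (μ_i - μ_j) z_i)_i` with `z_j = 0`, `Q_j(z) = 0` form an elliptic quadric `Y_j` in the solid
`x_j = 0` (the `β` are chosen such that the discriminants are right). THREE POINTS OF THREE DIFFERENT `Y_j`, `j ≤ 3`, ARE COLLINEAR ONLY IF
THEY COME FROM ONE AND THE SAME POINT `ζ` OF `X : R = M = 0` (`S_Key`). So the union of `Y_0`, `Y_1` and of those points of `Y_2`, `Y_3`
which do not come from a point of `X` (about one half), without the points with a coordinate `x_k = 0`, `k ≤ 3`, `k ≠ j`, is a cap.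
-/

noncomputable section

namespace Pool.Agent.CapThree

open Finset Pool.Agent.Caps Pool.Agent.CapFive
open scoped Classical

/-- the quadratic character of `F`, with values in `ℤ` -/
def ch (F : Type) [Field F] [Fintype F] (x : F) : ℤ := quadraticChar F x

variable {F : Type} [Field F]

/-- `Q_j(z)` -/
def Qf (μ β : Fin 5 → F) (j : Fin 5) (z : Fin 5 → F) : F := ∑ i, β i * (μ i - μ j) * z i ^ 2

/-- `R(z)` -/
def Rf (β : Fin 5 → F) (z : Fin 5 → F) : F := ∑ i, β i * z i ^ 2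

/-- `M(z)` -/
def Mf (μ β : Fin 5 → F) (z : Fin 5 → F) : F := ∑ i, β i * μ i * z i ^ 2

/-- the point of `PG(4,F)` belonging to `z` and `j` -/
def wv (μ β : Fin 5 → F) (j : Fin 5) (z : Fin 5 → F) : Fin 5 → F := fun i => β i * (μ i - μ j) * z i

/-- The conditions on the parameters. -/
structure Dat (F : Type) [Field F] [Fintype F] (μ β : Fin 5 → F) : Prop where
  inj : Function.Injective μ
  ne : ∀ i, β i ≠ 0
  ty : ∀ j, j ≠ 4 → ch F (∏ i ∈ univ.erase j, (β i * (μ i - μ j))) = -1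
  ty4 : ch F (∏ i ∈ univ.erase 4, (β i * (μ i - μ 4))) = 1

variable [Fintype F]

/-- `Y_j` (vectors `z`, not only up to scalars), without the points with a zero coordinate `k ≤ 3`, `k ≠ j` -/
def Ys (μ β : Fin 5 → F) (j : Fin 5) : Finset (Fin 5 → F) :=
  univ.filter fun z => z j = 0 ∧ Qf μ β j z = 0 ∧ ∀ k, k ≠ j → k ≠ 4 → z k ≠ 0

/-- those which do not come from a point of `X` with `ζ_j ≠ 0` -/
def Ps (μ β : Fin 5 → F) (j : Fin 5) : Finset (Fin 5 → F) :=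
  (Ys μ β j).filter fun z => ch F (-(β j) * Rf β z) ≠ 1

/-- The vectors which we use: all of `Y_0`, `Y_1`, half of `Y_2`, `Y_3`. -/
def Ks (μ β : Fin 5 → F) (j : Fin 5) : Finset (Fin 5 → F) :=
  if j = 0 ∨ j = 1 then Ys μ β j else Ps μ β j

/-- the vectors of `X` (with the zero vector) which vanish at the places `k ∈ A` -/
def Xs (μ β : Fin 5 → F) (A : Finset (Fin 5)) : Finset (Fin 5 → F) :=
  univ.filter fun z => Rf β z = 0 ∧ Mf μ β z = 0 ∧ ∀ k ∈ A, z k = 0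

/-- the vectors of `X` with `ζ_0 ζ_1 ζ_2 ζ_3 ≠ 0` -/
def X0 (μ β : Fin 5 → F) : Finset (Fin 5 → F) :=
  univ.filter fun z => Rf β z = 0 ∧ Mf μ β z = 0 ∧ ∀ k, k ≠ 4 → z k ≠ 0

/-- nonzero vectors with support in `{m, 4}` and `Q_j = 0` -/
def As (μ β : Fin 5 → F) (j m : Fin 5) : Finset (Fin 5 → F) :=
  univ.filter fun z => z ≠ 0 ∧ (∀ k, k ≠ m → k ≠ 4 → z k = 0) ∧ Qf μ β j z = 0

/-! ## Geometry -/

/-- (120 lines) **Three points of three different quadrics.** Uses nothing.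
PROOF. `m` is the fifth index, `{j,k,l,m} = {0,1,2,3}`. Write `μ_{ab} = μ_a - μ_b`, put `U = u/μ_{kl}`, `V = v/μ_{lj}`, `W = w/μ_{jk}` (scalar
multiples of `u, v, w`; the three denominators are not zero). The hypothesis `wv j u + wv k v + wv l w = 0` at the coordinate `j` is
`μ_{jk} μ_{lj} V_j + μ_{jl} μ_{jk} W_j = 0` (divided by `β_j`), so `V_j = W_j =: ζ_j`; in the same way `U_k = W_k =: ζ_k`, `U_l = V_l =: ζ_l`. At a
coordinate `i ∈ {m, 4}`: `A_i U_i + B_i V_i + C_i W_i = 0` with `A_i = μ_{ij} μ_{kl}`, `B_i = μ_{ik} μ_{lj}`, `C_i = μ_{il} μ_{jk}`, all nonzero, and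
`A_i + B_i + C_i = 0` (ring). The combination `μ_{kl} Q_j(U) + μ_{lj} Q_k(V) + μ_{jk} Q_l(W) = 0` has no terms with `ζ_j, ζ_k, ζ_l` (ring: e.g.
`ζ_j^2` has the coefficient `β_j (μ_{lj} μ_{jk} + μ_{jk} μ_{jl}) = 0`), so it is
`∑_{i ∈ {m,4}} β_i (A_i U_i^2 + B_i V_i^2 + C_i W_i^2) = 0`. As `C_i W_i = - A_i U_i - B_i V_i`, `C_i = - A_i - B_i`:
`C_i (A_i U_i^2 + B_i V_i^2 + C_i W_i^2) = - A_i B_i (U_i - V_i)^2`. With `d_i = U_i - V_i`:
`β_m (A_m B_m / C_m) d_m^2 + β_4 (A_4 B_4 / C_4) d_4^2 = 0`. If one of `d_m, d_4` is not zero then both are not, and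
`- β_m β_4 (A_m B_m C_m) (A_4 B_4 C_4)` is a square (times squares: `- a b = (a d_m/d_4)^2` if `a d_m^2 + b d_4^2 = 0`). But
`A_i B_i C_i = μ_{ij} μ_{ik} μ_{il} * (μ_{kl} μ_{lj} μ_{jk})`, so `- β_m β_4 ∏_{a ∈ {j,k,l}} μ_{ma} μ_{4a}` would be a nonzero square. On the other hand
the product of the two expressions in `ty m` and `ty4` is `β_m β_4 (β_j β_k β_l)^2 μ_{4m} μ_{m4} ∏_{a ∈ {j,k,l}} μ_{am} μ_{a4}`, that is
`- β_m β_4 ∏_a μ_{ma} μ_{4a}` times the square `(β_j β_k β_l μ_{4m})^2`, and its character is `-1 * 1 = -1`. Contradiction. So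
`d_m = d_4 = 0`, and (from `A + B + C = 0`, `C ≠ 0`) also `W_i = U_i`. Take `ζ_i` for `i = m, 4` the common value. Then
`Q_j(ζ) = Q_j(U) = 0` (coordinate `j` does not occur), `Q_k(ζ) = 0`, so `R(ζ) = M(ζ) = 0` (`Q_j = M - μ_j R`). -/
def S_Key : Prop :=
  ∀ (F : Type) [Field F] [Fintype F] (μ β : Fin 5 → F), Dat F μ β → ∀ j k l : Fin 5,
    j ≠ 4 → k ≠ 4 → l ≠ 4 → j ≠ k → j ≠ l → k ≠ l → ∀ u v w : Fin 5 → F,
    Qf μ β j u = 0 → Qf μ β k v = 0 → Qf μ β l w = 0 →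
    (∀ i, wv μ β j u i + wv μ β k v i + wv μ β l w i = 0) →
    ∃ ζ : Fin 5 → F, Rf β ζ = 0 ∧ Mf μ β ζ = 0 ∧
      (∃ c : F, c ≠ 0 ∧ ∀ i, i ≠ j → u i = c * ζ i) ∧
      (∃ c : F, c ≠ 0 ∧ ∀ i, i ≠ k → v i = c * ζ i) ∧
      ∃ c : F, c ≠ 0 ∧ ∀ i, i ≠ l → w i = c * ζ i

/-- (100 lines) **The quadrics `Y_j` contain no lines.** Uses nothing.
PROOF. Only the four coordinates `i ≠ j` matter; put `a_i = β_i (μ_i - μ_j) ≠ 0`. By contradiction: `u`, `v` are not proportional, i.e. some minor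
`u_s v_t - u_t v_s ≠ 0`, `s, t ≠ j`. Replace `u, v` by the combinations `u' = (v_t u - u_t v)/δ`, `v' = (u_s v - v_s u)/δ`,
`δ = u_s v_t - u_t v_s`: then `u'_s = 1, u'_t = 0, v'_s = 0, v'_t = 1` and still `Q(u') = Q(v') = B(u',v') = 0`. With `x, y` the two other indices:
`a_s = - (a_x u'_x^2 + a_y u'_y^2)`, `a_t = - (a_x v'_x^2 + a_y v'_y^2)`, `a_x u'_x v'_x + a_y u'_y v'_y = 0`, so
`a_s a_t = (a_x u'_x v'_x + a_y u'_y v'_y)^2 + a_x a_y (u'_x v'_y - u'_y v'_x)^2 = a_x a_y (…)^2`, and `a_s a_t a_x a_y` is a square: its character is not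
`-1`, against `Dat.ty`. (One may avoid the case distinction over `s, t` by an equivalence of the set of the four indices with `Fin 4`, or just do the finitely many
cases of `j, s, t` with `fin_cases`.) -/
def S_Ell : Prop :=
  ∀ (F : Type) [Field F] [Fintype F] (μ β : Fin 5 → F), Dat F μ β → ∀ j : Fin 5, j ≠ 4 →
    ∀ u v : Fin 5 → F, u j = 0 → v j = 0 → Qf μ β j u = 0 → Qf μ β j v = 0 →
    ∑ i, β i * (μ i - μ j) * (u i * v i) = 0 → u ≠ 0 → ∃ c : F, v = c • u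

/-- (150 lines) **The cap.** Uses `S_Key`, `S_Ell`.
PROOF. `S` = the union over `j ∈ {0,1,2,3}` of the images of `Ks μ β j` under `wv μ β j`. For `z ∈ Ks j`: `wv j z` has `j`-th coordinate `0`, and the
coordinates `k ≠ j`, `k ≤ 3` are not zero; so `0 ∉ S` and the four images are disjoint; `wv j` is injective on vectors with `z j = 0`. Hence the
number of elements. Scalars: `wv j (c z) = c wv j z`, `Qf (c z) = c^2 Qf z`, `Rf (c z) = c^2 Rf z`, `ch (c^2 x) = ch x` for `c ≠ 0`.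
Independence: three vectors `P_1 = wv j_1 z_1`, … of `S`, pairwise not proportional, and a relation `a_1 P_1 + a_2 P_2 + a_3 P_3 = 0`. If some `a_i = 0` then, two vectors
of `S` being not proportional, all vanish. Let all `a_i ≠ 0`.
(1) `j_1, j_2, j_3` different. Apply `S_Key` to `u = a_1 z_1`, … . One of the `j`s is `2` or `3`, say `j_3 = l ∈ {2,3}` (the three cases are symmetric: the relation may be
permuted). `a_3 z_3 = c ζ` outside `l` and `(z_3)_l = 0`, so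
`a_3^2 R(z_3) = c^2 (R(ζ) - β_l ζ_l^2) = - c^2 β_l ζ_l^2`, so `- β_l R(z_3)` is the square of `c β_l ζ_l / a_3`. Since `z_3 ∈ Ps l` its character is not `1`, so `ζ_l = 0`
(`ch (x^2) = 1` for `x ≠ 0`). But `a_1 (z_1)_l = c' ζ_l = 0` and `(z_1)_l ≠ 0` (`l ≠ j_1`, `l ≠ 4`): contradiction.
(2) exactly two equal, say `j_1 = j_2 = j ≠ k = j_3`: the `j`-th coordinate of the relation is `a_3 β_j (μ_j - μ_k) (z_3)_j = 0`, but all factors are nonzero.
(3) all equal to `j`: `wv j` is linear and injective on `{z | z j = 0}`, so `z_1, z_2` are not proportional and `a_1 z_1 + a_2 z_2 + a_3 z_3 = 0`. `Q_j(a_1 z_1 + a_2 z_2) = 0`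
gives `2 a_1 a_2 B = 0` with `B = ∑ β_i (μ_i - μ_j) (z_1)_i (z_2)_i`; the characteristic is not 2 (`Dat.ty` : `ch` takes the value `-1`, impossible in characteristic 2, where
every element is a square; or use the hypothesis that `card F` is odd), so `B = 0`, against `S_Ell`. -/
def S_Cap : Prop :=
  ∀ (F : Type) [Field F] [Fintype F], Odd (Fintype.card F) → ∀ μ β : Fin 5 → F, Dat F μ β →
    ∃ S : Finset (Fin 5 → F), S.card = ∑ j ∈ univ.erase 4, (Ks μ β j).card ∧ 0 ∉ S ∧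
      (∀ v ∈ S, ∀ c : F, c ≠ 0 → c • v ∈ S) ∧
      ∀ u ∈ S, ∀ v ∈ S, ∀ w ∈ S, (∀ c : F, u ≠ c • v) → (∀ c : F, u ≠ c • w) →
        (∀ c : F, v ≠ c • w) → LinearIndependent F ![u, v, w]

/-- (80 lines) **From a set of vectors closed under scalars to a family.** Uses nothing.
PROOF. Proportionality (`∃ c ≠ 0, u = c • v`) is an equivalence relation on `S`; every class has `q - 1` elements (`c ↦ c • v` is injective on `F^*`, as `v ≠ 0`), so
`S.card = (q - 1) N` with `N` the number of classes (`Finset.card_eq_sum_card_fiberwise` for the map `v ↦ Projectivization.mk F v _` or for a quotient map). Choose a representative in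
each class and number them by `Fin N`. -/
def S_Quot : Prop :=
  ∀ (F : Type) [Field F] [Fintype F] (n : ℕ) (S : Finset (Fin n → F)), 0 ∉ S →
    (∀ v ∈ S, ∀ c : F, c ≠ 0 → c • v ∈ S) →
    (∀ u ∈ S, ∀ v ∈ S, ∀ w ∈ S, (∀ c : F, u ≠ c • v) → (∀ c : F, u ≠ c • w) →
      (∀ c : F, v ≠ c • w) → LinearIndependent F ![u, v, w]) →
    ∃ N : ℕ, (Fintype.card F - 1) * N = S.card ∧ Fam F n N

/-! ## Counting -/

/-- (50 lines) **Quadratic polynomials.** Uses nothing.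
PROOF. `∑_x χ((x-a)(x-b))`: substitute `x = a + (b-a) t`: `(b-a)^2 t (t-1)`, so it is `∑_t χ(t (t-1)) = χ(-1) ∑_t χ(t) χ(1-t)`, a Jacobi sum:
`jacobiSum_nontrivial_inv` (`χ⁻¹ = χ`, `quadraticChar_isQuadratic`), or by hand: for `t ≠ 0`, `χ(t(t-1)) = χ(1 - t⁻¹)`, and `1 - t⁻¹` runs through all elements
except `1`, so the sum is `0 - χ(1) = -1` (`quadraticChar_sum_zero`). -/
def S_J : Prop :=
  ∀ (F : Type) [Field F] [Fintype F], Odd (Fintype.card F) → ∀ a b : F, a ≠ b →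
    ∑ x : F, ch F ((x - a) * (x - b)) = -1

/-- (160 lines) **Zeros of diagonal forms.** Uses `S_J`. Put `q = |F|`, `P = ∏_{i ∈ A} a_i`.
PROOF. Let `g(A, c)` be the number of `z` with `z_i = 0` for `i ∉ A` and `∑_{i ∈ A} a_i z_i^2 = c`. Then
`g(insert i A, c) = ∑_{x ∈ F} g(A, c - a_i x^2)`, and (a) `|A| = 1`: `g = 1 + χ(P c)` (`quadraticChar_card_sqrts`); (b) `|A| = 2`:
`g = ∑_x (1 + χ(a_1 (c - a_2 x^2)))`, which is `q - χ(-P)` for `c ≠ 0` and `q + (q-1) χ(-P)` for `c = 0`, because `∑_x χ(A x^2 + B) = -χ(A)` for `A, B ≠ 0` and `= (q-1) χ(A)` for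
`B = 0` [for `A, B ≠ 0`: the number of `x` with `x^2 = y` is `1 + χ(y)`, so `∑_x χ(A x^2 + B) = ∑_y (1 + χ(y)) χ(A y + B) = χ(A) ∑_y χ(y (y + B/A)) = -χ(A)` by `S_J`];
(c) `|A| = 3`: `g = ∑_x (q - χ(-P')) + q χ(-P') #{x | a x^2 = c} = q^2 + q χ(-P c)`; (d) `|A| = 4`, `c = 0`:
`g = ∑_x (q^2 + q χ(- P' (- a x^2))) = q^3 + q (q-1) χ(P)`; `c ≠ 0`: `q^3 + q ∑_x χ(P x^2 - P' c) = q^3 - q χ(P)`; (e) `|A| = 5`, `c = 0`:
`g = ∑_x g(A', - a x^2) = q^3 + q (q-1) χ(P') + (q-1) (q^3 - q χ(P')) = q^4`. -/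
def S_G : Prop :=
  ∀ (F : Type) [Field F] [Fintype F], Odd (Fintype.card F) → ∀ (A : Finset (Fin 5)) (a : Fin 5 → F),
    (∀ i ∈ A, a i ≠ 0) →
    (A.card = 3 → (((univ : Finset (Fin 5 → F)).filter fun z =>
      (∀ i, i ∉ A → z i = 0) ∧ ∑ i, a i * z i ^ 2 = 0).card : ℤ) = (Fintype.card F : ℤ) ^ 2) ∧
    (A.card = 4 → (((univ : Finset (Fin 5 → F)).filter fun z =>
      (∀ i, i ∉ A → z i = 0) ∧ ∑ i, a i * z i ^ 2 = 0).card : ℤ) =
        (Fintype.card F : ℤ) ^ 3 + ch F (∏ i ∈ A, a i) * ((Fintype.card F : ℤ) - 1) *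
          (Fintype.card F : ℤ)) ∧
    (A.card = 5 → (((univ : Finset (Fin 5 → F)).filter fun z =>
      (∀ i, i ∉ A → z i = 0) ∧ ∑ i, a i * z i ^ 2 = 0).card : ℤ) = (Fintype.card F : ℤ) ^ 4)

/-- (160 lines) **Number of vectors of `X`.** Uses `S_G`. Note that `Xs μ β ∅` and `Xs μ β {k}` contain the zero vector.
PROOF. Put `Q_λ = M - λ R = ∑ β_i (μ_i - λ) z_i^2`. On a subspace `V` (all of `F^5`, or `z_k = 0`) count the pairs `(λ, z)` with `Q_λ(z) = 0`: a `z` with `R(z) ≠ 0`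
occurs for exactly one `λ`, a `z` with `R(z) = 0` for all `q` values `λ` if `M(z) = 0`, otherwise for none. So
`∑_λ #{z ∈ V | Q_λ(z) = 0} = |V| - #{z ∈ V | R(z) = 0} + q |X ∩ V|`. (1) `V = F^5`: `#{R = 0} = q^4`; `#{Q_λ = 0} = q^4` if `λ` is none of the `μ_i`; for `λ = μ_j` the coordinate `z_j` is
free and `#{Q_j = 0} = q (q^3 + T_j (q-1) q)` with `T_j` the character of `∏_{i ≠ j} β_i (μ_i - μ_j)`, that is `-1` for `j ≠ 4`, `1` for `j = 4` (`Dat`). So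
`q |X| = q^5 - 3 (q-1) q^2 - q^5 + q^4`, `|X| = q^3 - 3 q^2 + 3 q = (q-1)^3 + 1`. (2) `V: z_k = 0`, `A = univ.erase k`, `Π = ∏_{i ≠ k} β_i`: `#{R = 0} = q^3 + χ(Π) (q-1) q`,
`#{Q_λ = 0} = q^3 + χ(∏_{i≠k} β_i (μ_i - λ)) (q-1) q` for all `λ` (for `λ = μ_i`, `i ≠ k`, the coordinate `z_i` is free and there are `q * q^2` vectors, by the case of three variables; the character is `0`). So
`q |X_k| = q^4 + (q-1) q χ(Π) ∑_λ χ(∏_{i≠k} (λ - μ_i)) - q^4 + q^3 + χ(Π) (q-1) q` (four factors, so the signs may be changed). Divide by `q`. -/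
def S_XC : Prop :=
  ∀ (F : Type) [Field F] [Fintype F], Odd (Fintype.card F) → ∀ μ β : Fin 5 → F, Dat F μ β →
    ((Xs μ β ∅).card : ℤ) = ((Fintype.card F : ℤ) - 1) ^ 3 + 1 ∧
    ∀ k : Fin 5, ((Xs μ β {k}).card : ℤ) = (Fintype.card F : ℤ) ^ 2 +
      ch F (∏ i ∈ univ.erase k, β i) * ((Fintype.card F : ℤ) - 1) *
        (1 + ∑ x : F, ch F (∏ i ∈ univ.erase k, (x - μ i)))

/-- (60 lines) **Inclusion and exclusion.** Uses nothing.
PROOF. Both sides are sums over `z ∈ S`; if `z` has `ν` zeros at the places of `T` its contributions are `[ν = 0] + ν` on the left and `1 + C(ν,2)` on the right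
(`C(ν,2)` = number of the 2-subsets of the set of zeros, `Finset.card_powersetCard`), equal for `ν = 0, 1, 2`. -/
def S_IE : Prop :=
  ∀ (F : Type) [Field F] [Fintype F] (S : Finset (Fin 5 → F)) (T : Finset (Fin 5)),
    (∀ z ∈ S, (T.filter fun k => z k = 0).card ≤ 2) →
    (S.filter fun z => ∀ k ∈ T, z k ≠ 0).card + ∑ k ∈ T, (S.filter fun z => z k = 0).card =
      S.card + ∑ p ∈ T.powersetCard 2, (S.filter fun z => ∀ k ∈ p, z k = 0).card

/-- (120 lines) **Number of vectors of `Y_j`.** Uses `S_G`, `S_IE`.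
PROOF. `S_IE` with `S = {z | z ≠ 0, z j = 0, Q_j(z) = 0}` and `T = {0,1,2,3} \ {j}` (three elements). If `z ∈ S` vanished at the three places of `T`, then only `z 4` would be
nonzero and `Q_j(z) = β_4 (μ_4 - μ_j) (z 4)^2 ≠ 0`. `S.card = q^3 - (q-1) q - 1 = (q-1)(q^2+1)` by `S_G` with `A = univ.erase j` and `Dat.ty`;
`#{z ∈ S | z k = 0} = q^2 - 1` by `S_G` with `A = univ \ {j,k}`; for `p = T \ {m}` the set `{z ∈ S | ∀ k ∈ p, z k = 0}` is `As μ β j m` (for `m ≠ j`; note that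
in `As μ β j m` the coordinate `j` is `0` as `j ≠ m, 4`). The first term is `(Ys μ β j).card` (vectors of `Ys` are not zero). -/
def S_Y : Prop :=
  ∀ (F : Type) [Field F] [Fintype F], Odd (Fintype.card F) → ∀ μ β : Fin 5 → F, Dat F μ β →
    ∀ j : Fin 5, j ≠ 4 → ((Ys μ β j).card : ℤ) =
      ((Fintype.card F : ℤ) - 1) * ((Fintype.card F : ℤ) ^ 2 - 3 * (Fintype.card F : ℤ) - 2) +
        ∑ m ∈ (univ.erase 4).erase j, ((As μ β j m).card : ℤ)

/-- (90 lines) **The other half.** Uses nothing.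
PROOF. `Ys` is the disjoint union of `Ps` and of `Y' = {z ∈ Ys | ch (-β_j R(z)) = 1}`. The map `ζ ↦ z` (replace the coordinate `ζ_j` by `0`: `Function.update ζ j 0`) goes from `X0` to `Y'`: `Q_j(z) = Q_j(ζ) = M(ζ) - μ_j R(ζ) = 0`,
`R(z) = R(ζ) - β_j ζ_j^2 = - β_j ζ_j^2`, so `-β_j R(z) = (β_j ζ_j)^2` with `ζ_j ≠ 0`. Every fibre has exactly two elements: for `z ∈ Y'` write `-β_j R(z) = t^2`, `t ≠ 0`; `ζ` is in the fibre iff
`ζ = Function.update z j x` with `R(ζ) = R(z) + β_j x^2 = 0` (then `M(ζ) = Q_j(ζ) + μ_j R(ζ) = 0` too), i.e. `(β_j x)^2 = t^2`, `x = ± t/β_j`, two different values as the characteristic is not 2. -/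
def S_Half : Prop :=
  ∀ (F : Type) [Field F] [Fintype F], Odd (Fintype.card F) → ∀ μ β : Fin 5 → F, Dat F μ β →
    ∀ j : Fin 5, j ≠ 4 → 2 * (Ys μ β j).card = 2 * (Ps μ β j).card + (X0 μ β).card

/-- (90 lines) **Points of `X` with two zero coordinates.** Uses nothing. Here `{j, m, k, l} = {0, 1, 2, 3}`.
PROOF. Let `ζ ∈ Xs {k,l}`, `ζ ≠ 0`: only `ζ_j, ζ_m, ζ_4` can be nonzero, `R(ζ) = M(ζ) = 0`, so `Q_j(ζ) = Q_m(ζ) = Q_4(ζ) = 0`; each of these is a relation `a x^2 + b y^2 = 0` between two of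
the three coordinates with nonzero `a, b`, so all three coordinates are nonzero. `ζ ↦ Function.update ζ j 0` maps into `As μ β j m` (`Q_j` does not depend on `ζ_j`), and each fibre has at most two elements
(`ζ_j^2` is determined by `R(ζ) = 0`). So the number is at most `2 |As j m|`. In the same way it is at most `2 |As m j|`. Add and halve. -/
def S_XA : Prop :=
  ∀ (F : Type) [Field F] [Fintype F] (μ β : Fin 5 → F), Dat F μ β → ∀ j m k l : Fin 5,
    ({j, m, k, l} : Finset (Fin 5)) = univ.erase 4 →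
    ((Xs μ β {k, l}).filter fun z => z ≠ 0).card ≤ (As μ β j m).card + (As μ β m j).card

/-- (120 lines) **Total.** Uses `S_XC`, `S_IE`, `S_Y`, `S_Half`, `S_XA`.
PROOF. `S_IE` with `S = {ζ ∈ Xs ∅ | ζ ≠ 0}`, `T = {0,1,2,3}`: a nonzero vector of `X` with three zeros among `0,…,3` would have two nonzero coordinates at most, `x, y` say, with
`β_x ζ_x^2 + β_y ζ_y^2 = 0 = β_x μ_x ζ_x^2 + β_y μ_y ζ_y^2`, so `ζ_x = ζ_y = 0` as `μ_x ≠ μ_y`. The first term of `S_IE` is `|X0|`, so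
`|X0| = (q-1)^3 - ∑_{k ≤ 3} (|Xs {k}| - 1) + ∑_p |Xs p \ 0|`, `p` over the six pairs; by `S_XA`, `∑_p |Xs p \ 0| ≤ ∑_{j ≠ m} |As j m|` (the complement of `p` in `{0,1,2,3}` is `{j, m}`; each unordered pair once). By
`S_Half`, `|Ps 2| + |Ps 3| = |Ys 2| + |Ys 3| - |X0|`. So `∑_j |Ks j| = ∑_{j ≤ 3} |Ys j| - |X0|`, and with `S_Y` this is at least
`4 (q-1) (q^2 - 3q - 2) - (q-1)^3 + ∑_k (|Xs {k}| - 1)`, and `4 (q^2 - 3 q - 2) - (q-1)^2 = 3 q^2 - 10 q - 9`. -/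
def S_Tot : Prop :=
  ∀ (F : Type) [Field F] [Fintype F], Odd (Fintype.card F) → ∀ μ β : Fin 5 → F, Dat F μ β →
    ((Fintype.card F : ℤ) - 1) * (3 * (Fintype.card F : ℤ) ^ 2 - 10 * (Fintype.card F : ℤ) - 9) +
      ∑ k ∈ univ.erase 4, (((Xs μ β {k}).card : ℤ) - 1) ≤
    ∑ j ∈ univ.erase 4, ((Ks μ β j).card : ℤ)

/-! ## Choice of the parameters -/

/-- (70 lines) **The `β` exist.** Uses nothing.
PROOF. Let `s_j = χ(∏_{i≠j} (μ_i - μ_j)) ∈ {1,-1}`, `t_j = - s_j` for `j ≠ 4`, `t_4 = s_4`. `∏_j s_j = χ(∏_{i ≠ j} (μ_i - μ_j)) = χ(∏_{i<j} (-(μ_i - μ_j)^2)) = 1` (ten factors `-1`), so `∏_j t_j = 1`.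
Choose `β_j` with `χ(β_j) = t_j` (`1` or a nonsquare, which exists as `q` is odd: `FiniteField.exists_nonsquare`). Then `χ(∏_{i≠j} β_i) = t_j ∏_i t_i = t_j` (as `t_j^2 = 1`), so
`χ(∏_{i≠j} β_i (μ_i - μ_j)) = t_j s_j`, which is `-1` for `j ≠ 4` and `1` for `j = 4`. -/
def S_Dat : Prop :=
  ∀ (F : Type) [Field F] [Fintype F], Odd (Fintype.card F) → ∀ μ : Fin 5 → F,
    Function.Injective μ → ∃ β : Fin 5 → F, Dat F μ β

/-- (120 lines) **Average over the fifth parameter.** Uses `S_J`.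
PROOF. `τ = χ((b-a)(c-a)(d-a))`, `ρ(y) = χ((y-b)(y-c)(y-d))`, `R = ∑_y ρ(y)`. The sum over ALL `x ∈ F` is `τ ∑_x χ(x-a) + τ ∑_y ρ(y) ∑_x χ((x-a)(y-x))`. The first is `0`;
`∑_x χ((x-a)(y-x)) = χ(-1) ∑_x χ((x-a)(x-y))` is `-χ(-1)` for `y ≠ a` (`S_J`), `(q-1) χ(-1)` for `y = a`; `ρ(a) = χ(-1) τ`. So the sum over all `x` is `τ χ(-1) (- R + q ρ(a)) = q - τ χ(-1) R`.
Term `x = a`: `0`. Term `x = b`: `τ χ(b-a) (1 + ∑_{y ≠ b} χ((y-c)(y-d))) = τ χ(b-a) (1 - 1 - χ((b-c)(b-d))) = - τ χ((b-a)(b-c)(b-d)) ≥ -1`; in the same way for `c`, `d`. So the sum over the `x` different from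
`a, b, c, d` is at most `q + |R| + 3 ≤ q + (q - 3) + 3`, because `ρ` vanishes at `b, c, d`. -/
def S_AvK : Prop :=
  ∀ (F : Type) [Field F] [Fintype F], Odd (Fintype.card F) → ∀ a b c d : F,
    a ≠ b → a ≠ c → a ≠ d → b ≠ c → b ≠ d → c ≠ d →
    ∑ x ∈ univ.filter (fun x : F => x ≠ a ∧ x ≠ b ∧ x ≠ c ∧ x ≠ d),
      ch F ((b - a) * (c - a) * (d - a) * (x - a)) *
        (1 + ∑ y : F, ch F ((y - b) * (y - c) * (y - d) * (y - x))) ≤
      2 * (Fintype.card F : ℤ)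

/-- (100 lines) **Good `μ` exist.** Uses `S_AvK`.
PROOF. Take distinct `a_0, …, a_3 ∈ F`, and for `x` different from these `μ = ![a_0, a_1, a_2, a_3, x]`. For `k = 0` the term is that of `S_AvK` with `a = a_0`, `{b,c,d} = {a_1,a_2,a_3}`, etc. (the order of the factors does not
matter). If the sum over `k` were at least `12` for all `q - 4` values of `x`, then `12 (q-4) ≤ 4 * 2 q`, `q ≤ 12`. -/
def S_Av : Prop :=
  ∀ (F : Type) [Field F] [Fintype F], Odd (Fintype.card F) → 13 ≤ Fintype.card F →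
    ∃ μ : Fin 5 → F, Function.Injective μ ∧
      ∑ k ∈ univ.erase 4, ch F (∏ i ∈ univ.erase k, (μ i - μ k)) *
        (1 + ∑ x : F, ch F (∏ i ∈ univ.erase k, (x - μ i))) ≤ 11

/-- (80 lines) **The family in PG(4,F).** Uses `S_Cap`, `S_Quot`, `S_XC`, `S_Tot`, `S_Dat`, `S_Av`.
PROOF. `μ` from `S_Av`, `β` from `S_Dat`, `S` from `S_Cap`, `N` from `S_Quot`: `(q-1) N = ∑_{j ≠ 4} |Ks j|`. By `S_XC` and `χ(∏_{i≠k} β_i) χ(∏_{i≠k} (μ_i - μ_k)) = -1` (`Dat.ty`, `k ≠ 4`), so that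
`χ(∏ β_i) = - θ_k`, `θ_k = χ(∏_{i≠k} (μ_i - μ_k)) = ±1`: `|Xs {k}| - 1 = (q-1) (q + 1 - θ_k (1 + S_k))`. With `S_Tot` and `S_Av`:
`(q-1) N ≥ (q-1) (3 q^2 - 10 q - 9 + 4 (q+1) - 11)`; cancel `q - 1 > 0`. -/
def S_Four : Prop :=
  ∀ (F : Type) [Field F] [Fintype F], Odd (Fintype.card F) → 13 ≤ Fintype.card F →
    ∃ N : ℕ, Fam F 5 N ∧
      3 * (Fintype.card F : ℤ) ^ 2 - 6 * (Fintype.card F : ℤ) - 16 ≤ (N : ℤ)

/-- Families in all dimensions `3 s + 5`. -/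
theorem fam5 (hProd : S_Prod) (F : Type) [Field F] [Fintype F] (N : ℕ) (hN : 3 ≤ N)
    (h : Fam F 5 N) (s : ℕ) : Fam F (3 * s + 5) (Fintype.card F ^ (2 * s) * N) := by
  induction s with
  | zero => simpa using h
  | succ s ih =>
    have hpos : 0 < Fintype.card F := Fintype.card_pos
    have h3 : 3 ≤ Fintype.card F ^ (2 * s) * N :=
      le_trans hN (Nat.le_mul_of_pos_left _ (pow_pos hpos _))
    have h1 := hProd F (3 * s + 5) _ h3 ih
    have e1 : 3 * (s + 1) + 5 = 3 * s + 5 + 3 := by ring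
    have e2 : Fintype.card F ^ (2 * (s + 1)) * N =
        Fintype.card F ^ 2 * (Fintype.card F ^ (2 * s) * N) := by ring
    rw [e1, e2]
    exact h1

/-- The main theorem from the parts. -/
theorem main (hConv : S_Conv) (hProd : S_Prod) (hFour : S_Four) (F : Type) [Field F] [Fintype F]
    (hodd : Odd (Fintype.card F)) (hq : 13 ≤ Fintype.card F) (s : ℕ) :
    (∃ K : Finset (Projectivization F (Fin (3 * s + 4 + 1) → F)), IsCap F (3 * s + 4) K ∧
      (Fintype.card F : ℤ) ^ (2 * s) *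
        (3 * (Fintype.card F : ℤ) ^ 2 - 6 * (Fintype.card F : ℤ) - 16) ≤ (K.card : ℤ)) ∧
    (Fintype.card F : ℤ) ^ (2 * s) *
        (3 * (Fintype.card F : ℤ) ^ 2 - 6 * (Fintype.card F : ℤ) - 16) ≤
      (capMax F (3 * s + 4) : ℤ) := by
  obtain ⟨N, hN, hle⟩ := hFour F hodd hq
  have hqz : (13 : ℤ) ≤ (Fintype.card F : ℤ) := by exact_mod_cast hq
  have hN3 : 3 ≤ N := by
    have : (3 : ℤ) ≤ (N : ℤ) := by nlinarith
    exact_mod_cast this
  have hfam := fam5 hProd F N hN3 hN s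
  have hpos : 0 < Fintype.card F := Fintype.card_pos
  have h3 : 3 ≤ Fintype.card F ^ (2 * s) * N :=
    le_trans hN3 (Nat.le_mul_of_pos_left _ (pow_pos hpos _))
  obtain ⟨⟨K, hK, hc⟩, hm⟩ := hConv F (3 * s + 4) _ h3 hfam
  have hb : (Fintype.card F : ℤ) ^ (2 * s) *
      (3 * (Fintype.card F : ℤ) ^ 2 - 6 * (Fintype.card F : ℤ) - 16) ≤
      ((Fintype.card F ^ (2 * s) * N : ℕ) : ℤ) := by
    push_cast
    exact mul_le_mul_of_nonneg_left hle (by positivity)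
  refine ⟨⟨K, hK, ?_⟩, ?_⟩
  · rw [hc]; exact hb
  · exact hb.trans (by exact_mod_cast hm)

end Pool.Agent.CapThree
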