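import Mathlib
import Pool.Agent.CapThree.Spec

/-!
# From a set of vectors closed under scalars to a family
-/

set_option autoImplicit false

noncomputable section

namespace Pool.Agent.CapThree

open Finset Pool.Agent.Caps Pool.Agent.CapFive
open scoped Classical

/-- the class of `v` -/
private def cls {F : Type} [Field F] [Fintype F] {n : ℕ} (v : Fin n → F) : Finset (Fin n → F) :=
  (univ.erase (0 : F)).image fun c => c • v

private theorem mem_cls {F : Type} [Field F] [Fintype F] {n : ℕ} (u v : Fin n → F) :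
    u ∈ cls v ↔ ∃ c : F, c ≠ 0 ∧ c • v = u := by
  unfold cls
  simp only [mem_image, mem_erase, mem_univ, and_true]

private theorem self_mem {F : Type} [Field F] [Fintype F] {n : ℕ} (v : Fin n → F) : v ∈ cls v :=
  (mem_cls v v).2 ⟨1, one_ne_zero, one_smul F v⟩

private theorem cls_eq {F : Type} [Field F] [Fintype F] {n : ℕ} {u v : Fin n → F}
    (h : u ∈ cls v) : cls u = cls v := by
  obtain ⟨c, hc, rfl⟩ := (mem_cls u v).1 h
  ext w
  rw [mem_cls, mem_cls]
  constructor
  · rintro ⟨a, ha, rfl⟩
    exact ⟨a * c, mul_ne_zero ha hc, (smul_smul a c v).symm⟩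
  · rintro ⟨a, ha, rfl⟩
    refine ⟨a * c⁻¹, mul_ne_zero ha (inv_ne_zero hc), ?_⟩
    rw [smul_smul, mul_assoc, inv_mul_cancel₀ hc, mul_one]

private theorem card_cls {F : Type} [Field F] [Fintype F] {n : ℕ} {v : Fin n → F} (hv : v ≠ 0) :
    (cls v).card = Fintype.card F - 1 := by
  unfold cls
  rw [card_image_of_injective]
  · rw [card_erase_of_mem (mem_univ _), card_univ]
  · intro a b h
    exact smul_left_injective F hv h

theorem tQuot : S_Quot := by
  intro F _ _ n S h0 hsm hli
  have hne : ∀ v ∈ S, v ≠ 0 := fun v hv h => h0 (h ▸ hv)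
  set T : Finset (Finset (Fin n → F)) := S.image cls with hT
  refine ⟨T.card, ?_, ?_⟩
  · rw [card_eq_sum_card_image cls S, ← hT]
    have : ∀ t ∈ T, (S.filter fun u => cls u = t).card = Fintype.card F - 1 := by
      intro t ht
      obtain ⟨v, hv, rfl⟩ := mem_image.1 ht
      rw [← card_cls (hne v hv)]
      congr 1
      ext u
      rw [mem_filter]
      constructor
      · rintro ⟨_, h⟩
        rw [← h]
        exact self_mem u
      · intro h
        refine ⟨?_, cls_eq h⟩
        obtain ⟨c, hc, rfl⟩ := (mem_cls u v).1 h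
        exact hsm v hv c hc
    rw [sum_congr rfl this, sum_const, smul_eq_mul, mul_comm]
  · have hch : ∀ t : T, ∃ v ∈ S, cls v = t.1 := fun t => mem_image.1 t.2
    choose r hr1 hr2 using hch
    refine ⟨fun i => r (T.equivFin.symm i), ?_⟩
    have key : ∀ i j : Fin T.card, i ≠ j → ∀ c : F,
        r (T.equivFin.symm i) ≠ c • r (T.equivFin.symm j) := by
      intro i j hij c h
      have hc : c ≠ 0 := by
        rintro rfl
        rw [zero_smul] at h
        exact hne _ (hr1 _) h
      have h1 : cls (r (T.equivFin.symm i)) = cls (r (T.equivFin.symm j)) :=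
        cls_eq ((mem_cls _ _).2 ⟨c, hc, h.symm⟩)
      rw [hr2, hr2] at h1
      exact hij (T.equivFin.symm.injective (Subtype.ext h1))
    intro i j k hij hik hjk
    exact hli _ (hr1 _) _ (hr1 _) _ (hr1 _) (key i j hij) (key i k hik) (key j k hjk)

end Pool.Agent.CapThree
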