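import Pool.Agent.CapThree.Spec

/-!
# Total number of vectors
-/

noncomputable section

namespace Pool.Agent.CapThree

open Finset Pool.Agent.Caps Pool.Agent.CapFive
open scoped Classical

section Tot

private theorem to_erase4 : (univ.erase 4 : Finset (Fin 5)) = {0, 1, 2, 3} := by decide
private theorem to_e0 : ((univ.erase 4 : Finset (Fin 5)).erase 0) = {1, 2, 3} := by decide
private theorem to_e1 : ((univ.erase 4 : Finset (Fin 5)).erase 1) = {0, 2, 3} := by decide
private theorem to_e2 : ((univ.erase 4 : Finset (Fin 5)).erase 2) = {0, 1, 3} := by decide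
private theorem to_e3 : ((univ.erase 4 : Finset (Fin 5)).erase 3) = {0, 1, 2} := by decide

private theorem to_pow : (univ.erase 4 : Finset (Fin 5)).powersetCard 2 =
    {{0, 1}, {0, 2}, {0, 3}, {1, 2}, {1, 3}, {2, 3}} := by decide

private theorem to_sum4 (f : Fin 5 → ℤ) : ∑ j ∈ univ.erase 4, f j = f 0 + f 1 + f 2 + f 3 := by
  rw [to_erase4, Finset.sum_insert (by decide), Finset.sum_insert (by decide),
    Finset.sum_insert (by decide), Finset.sum_singleton]
  ring

private theorem to_sum6 (g : Finset (Fin 5) → ℤ) :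
    ∑ p ∈ (univ.erase 4 : Finset (Fin 5)).powersetCard 2, g p =
      g {0, 1} + g {0, 2} + g {0, 3} + g {1, 2} + g {1, 3} + g {2, 3} := by
  rw [to_pow, Finset.sum_insert (by decide), Finset.sum_insert (by decide),
    Finset.sum_insert (by decide), Finset.sum_insert (by decide), Finset.sum_insert (by decide),
    Finset.sum_singleton]
  ring

private theorem to_sum3 (f : Fin 5 → ℤ) (a b c : Fin 5) (hab : a ∉ ({b, c} : Finset (Fin 5)))
    (hbc : b ∉ ({c} : Finset (Fin 5))) :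
    ∑ j ∈ ({a, b, c} : Finset (Fin 5)), f j = f a + f b + f c := by
  rw [Finset.sum_insert hab, Finset.sum_insert hbc, Finset.sum_singleton]
  ring

variable {F : Type} [Field F] [Fintype F]

private theorem to_X (μ β : Fin 5 → F) (A : Finset (Fin 5)) (z : Fin 5 → F) :
    z ∈ Xs μ β A ↔ Rf β z = 0 ∧ Mf μ β z = 0 ∧ ∀ k ∈ A, z k = 0 := by
  unfold Xs
  rw [Finset.mem_filter]
  simp

private theorem to_X0mem (μ β : Fin 5 → F) (A : Finset (Fin 5)) : (0 : Fin 5 → F) ∈ Xs μ β A := by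
  rw [to_X]
  refine ⟨?_, ?_, fun k _ => rfl⟩
  · unfold Rf; simp
  · unfold Mf; simp

private theorem to_card (μ β : Fin 5 → F) (A : Finset (Fin 5)) :
    (((Xs μ β A).filter fun z => z ≠ 0).card : ℤ) = ((Xs μ β A).card : ℤ) - 1 := by
  have h : (Xs μ β A).filter (fun z => z ≠ 0) = (Xs μ β A).erase 0 := by
    ext z
    rw [Finset.mem_filter, Finset.mem_erase]
    tauto
  rw [h, Finset.card_erase_of_mem (to_X0mem μ β A)]
  have hpos : 0 < (Xs μ β A).card := Finset.card_pos.mpr ⟨0, to_X0mem μ β A⟩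
  omega

/-- a nonzero vector of `X` has at most two zeros among the places `0, …, 3` -/
private theorem to_two (μ β : Fin 5 → F) (hD : Dat F μ β) (z : Fin 5 → F) (hR : Rf β z = 0)
    (hM : Mf μ β z = 0) (x : Fin 5) (hx : x ≠ 4) (hz : ∀ k, k ≠ x → k ≠ 4 → z k = 0) : z = 0 := by
  have e1 : Mf μ β z - μ 4 * Rf β z = β x * (μ x - μ 4) * z x ^ 2 := by
    unfold Mf Rf
    rw [Finset.mul_sum, ← Finset.sum_sub_distrib]
    rw [Finset.sum_eq_single x]
    · ring
    · intro i _ hi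
      by_cases h4 : i = 4
      · subst h4; ring
      · rw [hz i hi h4]; ring
    · intro h; exact absurd (Finset.mem_univ _) h
  have hx0 : z x = 0 := by
    rw [hR, hM] at e1
    have h1 : β x * (μ x - μ 4) * z x ^ 2 = 0 := by rw [← e1]; ring
    rcases mul_eq_zero.mp h1 with h | h
    · exact absurd h (mul_ne_zero (hD.ne x) (sub_ne_zero.mpr (fun h' => hx (hD.inj h'))))
    · exact pow_eq_zero_iff (two_ne_zero) |>.mp h
  have hz4 : ∀ k, k ≠ 4 → z k = 0 := by
    intro k hk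
    by_cases h : k = x
    · rw [h]; exact hx0
    · exact hz k h hk
  have e2 : Rf β z = β 4 * z 4 ^ 2 := by
    unfold Rf
    apply Finset.sum_eq_single 4
    · intro i _ hi
      rw [hz4 i hi]; ring
    · intro h; exact absurd (Finset.mem_univ _) h
  have h4 : z 4 = 0 := by
    rw [hR] at e2
    rcases mul_eq_zero.mp e2.symm with h | h
    · exact absurd h (hD.ne 4)
    · exact pow_eq_zero_iff (two_ne_zero) |>.mp h
  funext k
  by_cases h : k = 4
  · rw [h]; exact h4
  · exact hz4 k h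

end Tot

theorem tTot (hXC : S_XC) (hIE : S_IE) (hY : S_Y) (hHalf : S_Half) (hXA : S_XA) : S_Tot := by
  intro F _ _ hodd μ β hD
  set T : Finset (Fin 5) := univ.erase 4 with hTdef
  set S : Finset (Fin 5 → F) := (Xs μ β ∅).filter fun z => z ≠ 0 with hSdef
  have hTm : ∀ k, k ∈ T ↔ k ≠ 4 := by
    intro k
    rw [hTdef, Finset.mem_erase]
    simp
  have hTc : T.card = 4 := by
    rw [hTdef, Finset.card_erase_of_mem (Finset.mem_univ _)]
    simp
  have hSm : ∀ z, z ∈ S ↔ Rf β z = 0 ∧ Mf μ β z = 0 ∧ z ≠ 0 := by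
    intro z
    rw [hSdef, Finset.mem_filter, to_X]
    constructor
    · rintro ⟨⟨h1, h2, _⟩, h3⟩; exact ⟨h1, h2, h3⟩
    · rintro ⟨h1, h2, h3⟩; exact ⟨⟨h1, h2, fun k hk => absurd hk (Finset.notMem_empty _)⟩, h3⟩
  have hIE1 := hIE F S T (by
    intro z hz
    by_contra hcon
    push Not at hcon
    have hsplit := Finset.card_filter_add_card_filter_not (s := T) (fun k => z k = 0)
    have hle : (T.filter fun k => ¬ z k = 0).card ≤ 1 := by omega
    obtain ⟨h1, h2, h3⟩ := (hSm z).mp hz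
    apply h3
    rcases Finset.card_le_one_iff_subset_singleton.mp hle with ⟨x, hx⟩
    by_cases hx4 : x = 4
    · apply to_two μ β hD z h1 h2 0 (by decide)
      intro k _ hk4
      by_contra hk
      have : k ∈ T.filter fun k => ¬ z k = 0 := Finset.mem_filter.mpr ⟨(hTm k).mpr hk4, hk⟩
      have h5 := hx this
      rw [Finset.mem_singleton] at h5
      exact hk4 (h5.trans hx4)
    · apply to_two μ β hD z h1 h2 x hx4
      intro k hkx hk4
      by_contra hk
      have : k ∈ T.filter fun k => ¬ z k = 0 := Finset.mem_filter.mpr ⟨(hTm k).mpr hk4, hk⟩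
      have h5 := hx this
      rw [Finset.mem_singleton] at h5
      exact hkx h5)
  have e1 : (S.filter fun z => ∀ k ∈ T, z k ≠ 0) = X0 μ β := by
    ext z
    rw [Finset.mem_filter, hSm]
    unfold X0
    rw [Finset.mem_filter]
    constructor
    · rintro ⟨⟨h1, h2, _⟩, h3⟩
      exact ⟨Finset.mem_univ _, h1, h2, fun k hk => h3 k ((hTm k).mpr hk)⟩
    · rintro ⟨_, h1, h2, h3⟩
      refine ⟨⟨h1, h2, ?_⟩, fun k hk => h3 k ((hTm k).mp hk)⟩
      intro h0
      exact h3 0 (by decide) (by rw [h0]; rfl)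
  have ek : ∀ A : Finset (Fin 5), (S.filter fun z => ∀ k ∈ A, z k = 0) =
      (Xs μ β A).filter fun z => z ≠ 0 := by
    intro A
    ext z
    rw [Finset.mem_filter, hSm, Finset.mem_filter, to_X]
    tauto
  have ek1 : ∀ k : Fin 5, ((S.filter fun z => z k = 0).card : ℤ) = ((Xs μ β {k}).card : ℤ) - 1 := by
    intro k
    rw [← to_card, ← ek]
    congr 2
    apply Finset.filter_congr
    intro z _
    simp
  have eS : (S.card : ℤ) = ((Fintype.card F : ℤ) - 1) ^ 3 := by
    rw [hSdef, to_card, (hXC F hodd μ β hD).1]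
    ring
  have hIE2 : ((X0 μ β).card : ℤ) + ∑ k ∈ T, (((Xs μ β {k}).card : ℤ) - 1) =
      (S.card : ℤ) + ∑ p ∈ T.powersetCard 2, (((Xs μ β p).filter fun z => z ≠ 0).card : ℤ) := by
    have h1 : ∑ k ∈ T, (((Xs μ β {k}).card : ℤ) - 1) =
        ((∑ k ∈ T, (S.filter fun z => z k = 0).card : ℕ) : ℤ) := by
      push_cast
      exact Finset.sum_congr rfl (fun k _ => (ek1 k).symm)
    have h2 : ∑ p ∈ T.powersetCard 2, (((Xs μ β p).filter fun z => z ≠ 0).card : ℤ) =
        ((∑ p ∈ T.powersetCard 2, (S.filter fun z => ∀ k ∈ p, z k = 0).card : ℕ) : ℤ) := by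
      push_cast
      exact Finset.sum_congr rfl (fun p _ => by rw [ek p])
    rw [h1, h2, ← e1]
    exact_mod_cast hIE1
  -- the pairs
  have hA := hXA F μ β hD
  have hp01 := hA 2 3 0 1 (by decide)
  have hp02 := hA 1 3 0 2 (by decide)
  have hp03 := hA 1 2 0 3 (by decide)
  have hp12 := hA 0 3 1 2 (by decide)
  have hp13 := hA 0 2 1 3 (by decide)
  have hp23 := hA 0 1 2 3 (by decide)
  have hY' := hY F hodd μ β hD
  have y0 := hY' 0 (by decide)
  have y1 := hY' 1 (by decide)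
  have y2 := hY' 2 (by decide)
  have y3 := hY' 3 (by decide)
  rw [to_e0, to_sum3 _ _ _ _ (by decide) (by decide)] at y0
  rw [to_e1, to_sum3 _ _ _ _ (by decide) (by decide)] at y1
  rw [to_e2, to_sum3 _ _ _ _ (by decide) (by decide)] at y2
  rw [to_e3, to_sum3 _ _ _ _ (by decide) (by decide)] at y3
  have h2 := hHalf F hodd μ β hD 2 (by decide)
  have h3 := hHalf F hodd μ β hD 3 (by decide)
  rw [eS, hTdef, to_sum6] at hIE2
  have k0 : Ks μ β 0 = Ys μ β 0 := by unfold Ks; rw [if_pos (Or.inl rfl)]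
  have k1 : Ks μ β 1 = Ys μ β 1 := by unfold Ks; rw [if_pos (Or.inr rfl)]
  have k2 : Ks μ β 2 = Ps μ β 2 := by unfold Ks; rw [if_neg (by decide)]
  have k3 : Ks μ β 3 = Ps μ β 3 := by unfold Ks; rw [if_neg (by decide)]
  rw [to_sum4 (fun j => ((Ks μ β j).card : ℤ)), k0, k1, k2, k3]
  have h2' : 2 * ((Ys μ β 2).card : ℤ) = 2 * ((Ps μ β 2).card : ℤ) + ((X0 μ β).card : ℤ) := by
    exact_mod_cast h2
  have h3' : 2 * ((Ys μ β 3).card : ℤ) = 2 * ((Ps μ β 3).card : ℤ) + ((X0 μ β).card : ℤ) := by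
    exact_mod_cast h3
  have p01 : (((Xs μ β {0, 1}).filter fun z => z ≠ 0).card : ℤ) ≤
      ((As μ β 2 3).card : ℤ) + ((As μ β 3 2).card : ℤ) := by exact_mod_cast hp01
  have p02 : (((Xs μ β {0, 2}).filter fun z => z ≠ 0).card : ℤ) ≤
      ((As μ β 1 3).card : ℤ) + ((As μ β 3 1).card : ℤ) := by exact_mod_cast hp02
  have p03 : (((Xs μ β {0, 3}).filter fun z => z ≠ 0).card : ℤ) ≤
      ((As μ β 1 2).card : ℤ) + ((As μ β 2 1).card : ℤ) := by exact_mod_cast hp03
  have p12 : (((Xs μ β {1, 2}).filter fun z => z ≠ 0).card : ℤ) ≤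
      ((As μ β 0 3).card : ℤ) + ((As μ β 3 0).card : ℤ) := by exact_mod_cast hp12
  have p13 : (((Xs μ β {1, 3}).filter fun z => z ≠ 0).card : ℤ) ≤
      ((As μ β 0 2).card : ℤ) + ((As μ β 2 0).card : ℤ) := by exact_mod_cast hp13
  have p23 : (((Xs μ β {2, 3}).filter fun z => z ≠ 0).card : ℤ) ≤
      ((As μ β 0 1).card : ℤ) + ((As μ β 1 0).card : ℤ) := by exact_mod_cast hp23
  generalize hG : ∑ k ∈ univ.erase 4, (((Xs μ β {k}).card : ℤ) - 1) = G at hIE2 ⊢
  have hpoly : ((Fintype.card F : ℤ) - 1) * (3 * (Fintype.card F : ℤ) ^ 2 -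
      10 * (Fintype.card F : ℤ) - 9) = 4 * (((Fintype.card F : ℤ) - 1) *
        ((Fintype.card F : ℤ) ^ 2 - 3 * (Fintype.card F : ℤ) - 2)) - ((Fintype.card F : ℤ) - 1) ^ 3 := by
    ring
  rw [hpoly]
  linarith

end Pool.Agent.CapThree
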