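import Pool.Agent.CapThree.Spec

/-!
# Points of `X` with two zero coordinates
-/

noncomputable section

namespace Pool.Agent.CapThree

open Finset Pool.Agent.Caps Pool.Agent.CapFive
open scoped Classical

private lemma XA_Qf_update {F : Type} [Field F] (μ β : Fin 5 → F) (j : Fin 5) (z : Fin 5 → F)
    (x : F) : Qf μ β j (Function.update z j x) = Qf μ β j z := by
  unfold Qf
  refine Finset.sum_congr rfl fun i _ => ?_
  by_cases h : i = j
  · subst h
    simp
  · rw [Function.update_of_ne h]

private lemma XA_Qf {F : Type} [Field F] (μ β : Fin 5 → F) (j : Fin 5) (z : Fin 5 → F) :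
    Qf μ β j z = Mf μ β z - μ j * Rf β z := by
  unfold Qf Mf Rf
  rw [Finset.mul_sum, ← Finset.sum_sub_distrib]
  exact Finset.sum_congr rfl fun i _ => by ring

private lemma XA_half {F : Type} [Field F] [Fintype F] (μ β : Fin 5 → F) (hD : Dat F μ β)
    (j m k l : Fin 5) (h : ({j, m, k, l} : Finset (Fin 5)) = univ.erase 4) :
    ((Xs μ β {k, l}).filter fun z => z ≠ 0).card ≤ 2 * (As μ β j m).card := by
  have hcase : ∀ i : Fin 5, i = j ∨ i = m ∨ i = k ∨ i = l ∨ i = 4 := by
    intro i
    by_cases h4 : i = 4
    · exact Or.inr (Or.inr (Or.inr (Or.inr h4)))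
    · have h5 : i ∈ ({j, m, k, l} : Finset (Fin 5)) := by
        rw [h]
        exact Finset.mem_erase.2 ⟨h4, Finset.mem_univ _⟩
      simp only [Finset.mem_insert, Finset.mem_singleton] at h5
      tauto
  have hmem : ∀ z : Fin 5 → F, z ∈ ((Xs μ β {k, l}).filter fun z => z ≠ 0) ↔
      (Rf β z = 0 ∧ Mf μ β z = 0 ∧ z k = 0 ∧ z l = 0) ∧ z ≠ 0 := by
    intro z
    simp only [Xs, Finset.mem_filter, Finset.mem_univ, true_and, Finset.mem_insert,
      Finset.mem_singleton, forall_eq_or_imp, forall_eq]
  have hrest : ∀ z : Fin 5 → F, Rf β z = β j * z j ^ 2 + ∑ i ∈ univ.erase j, β i * z i ^ 2 :=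
    fun z => (Finset.add_sum_erase univ (fun i => β i * z i ^ 2) (Finset.mem_univ j)).symm
  refine Finset.card_le_mul_card_image_of_maps_to (f := fun z => Function.update z j 0)
    (fun z hz => ?_) 2 fun b _ => ?_
  · obtain ⟨⟨hR, hM, hk, hl⟩, h0⟩ := (hmem z).1 hz
    refine Finset.mem_filter.2 ⟨Finset.mem_univ _, ?_, ?_, ?_⟩
    · intro hu
      have hz' : ∀ i, i ≠ j → z i = 0 := fun i hi => by
        have h1 := congrFun hu i
        rwa [Function.update_of_ne hi] at h1
      have h2 : ∑ i ∈ univ.erase j, β i * z i ^ 2 = 0 := by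
        refine Finset.sum_eq_zero fun i hi => ?_
        rw [hz' i (Finset.ne_of_mem_erase hi)]
        ring
      have h3 := hrest z
      rw [hR, h2, add_zero] at h3
      have h4 : z j = 0 := by
        have h5 := mul_eq_zero.1 h3.symm
        rcases h5 with h5 | h5
        · exact absurd h5 (hD.ne j)
        · exact pow_eq_zero_iff (two_ne_zero) |>.1 h5
      apply h0
      funext i
      by_cases hi : i = j
      · rw [hi]
        exact h4
      · exact hz' i hi
    · intro i hm h4
      rcases hcase i with h5 | h5 | h5 | h5 | h5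
      · rw [h5]
        simp
      · exact absurd h5 hm
      · by_cases hij : i = j
        · rw [hij]
          simp
        · show Function.update z j 0 i = 0
          rw [Function.update_of_ne hij, h5]
          exact hk
      · by_cases hij : i = j
        · rw [hij]
          simp
        · show Function.update z j 0 i = 0
          rw [Function.update_of_ne hij, h5]
          exact hl
      · exact absurd h5 h4
    · show Qf μ β j (Function.update z j 0) = 0
      rw [XA_Qf_update, XA_Qf, hR, hM]
      ring
  · rcases Finset.eq_empty_or_nonempty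
      ((((Xs μ β {k, l}).filter fun z => z ≠ 0)).filter fun z => Function.update z j 0 = b)
      with he | ⟨z, hz⟩
    · rw [he]
      simp
    · refine (Finset.card_le_card (t := {z, Function.update z j (-(z j))}) ?_).trans
        Finset.card_le_two
      intro w hw
      obtain ⟨hz1, hz2⟩ := Finset.mem_filter.1 hz
      obtain ⟨hw1, hw2⟩ := Finset.mem_filter.1 hw
      obtain ⟨⟨hR, -, -, -⟩, -⟩ := (hmem z).1 hz1
      obtain ⟨⟨hR', -, -, -⟩, -⟩ := (hmem w).1 hw1
      have hag : ∀ i, i ≠ j → w i = z i := fun i hi => by
        have h1 := congrFun (hw2.trans hz2.symm) i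
        simp only [Function.update_of_ne hi] at h1
        exact h1
      have h2 : ∑ i ∈ univ.erase j, β i * w i ^ 2 = ∑ i ∈ univ.erase j, β i * z i ^ 2 := by
        refine Finset.sum_congr rfl fun i hi => ?_
        rw [hag i (Finset.ne_of_mem_erase hi)]
      have h3 := hrest z
      have h4 := hrest w
      rw [hR] at h3
      rw [hR', h2] at h4
      have h5 : β j * (w j ^ 2 - z j ^ 2) = 0 := by linear_combination h3 - h4
      have h6 : w j ^ 2 = z j ^ 2 := by
        rcases mul_eq_zero.1 h5 with h7 | h7
        · exact absurd h7 (hD.ne j)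
        · exact sub_eq_zero.1 h7
      rcases sq_eq_sq_iff_eq_or_eq_neg.1 h6 with h7 | h7
      · refine Finset.mem_insert.2 (Or.inl ?_)
        funext i
        by_cases hi : i = j
        · rw [hi]
          exact h7
        · exact hag i hi
      · refine Finset.mem_insert.2 (Or.inr (Finset.mem_singleton.2 ?_))
        funext i
        by_cases hi : i = j
        · rw [hi, Function.update_self]
          exact h7
        · rw [Function.update_of_ne hi]
          exact hag i hi

/-- see the docstring of `S_XA` -/
theorem tXA : S_XA := by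
  intro F _ _ μ β hD j m k l h
  have h1 := XA_half μ β hD j m k l h
  have h2 := XA_half μ β hD m j k l (by rw [← h]; exact Finset.insert_comm m j {k, l})
  omega

end Pool.Agent.CapThree
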