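import Pool.Agent.CapThree.Spec

/-!
# The number of vectors of an intersection of two diagonal quadrics
-/

noncomputable section

namespace Pool.Agent.CapThree

open Finset Pool.Agent.Caps Pool.Agent.CapFive
open scoped Classical

variable {F : Type} [Field F] [Fintype F]

/-- vectors with support in `B` on the quadric `∑ a_i z_i^2 = 0` -/
private def Zs (B : Finset (Fin 5)) (a : Fin 5 → F) : Finset (Fin 5 → F) :=
  univ.filter fun z => (∀ i, i ∉ B → z i = 0) ∧ ∑ i, a i * z i ^ 2 = 0

/-- vectors with support in `B` -/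
private def Vs (F : Type) [Field F] [Fintype F] (B : Finset (Fin 5)) : Finset (Fin 5 → F) :=
  univ.filter fun z => ∀ i, i ∉ B → z i = 0

omit [Fintype F] in
private theorem lin (μ β : Fin 5 → F) (l : F) (z : Fin 5 → F) :
    ∑ i, β i * (μ i - l) * z i ^ 2 = Mf μ β z - l * Rf β z := by
  rw [Mf, Rf, mul_sum, ← sum_sub_distrib]
  exact sum_congr rfl fun i _ => by ring

/-- double counting -/
private theorem dc (μ β : Fin 5 → F) (B : Finset (Fin 5)) :
    ∑ l : F, ((Zs B fun i => β i * (μ i - l)).card : ℤ) + ((Zs B β).card : ℤ) =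
      ((Vs F B).card : ℤ) + (Fintype.card F : ℤ) *
        (((univ : Finset (Fin 5 → F)).filter fun z =>
          Rf β z = 0 ∧ Mf μ β z = 0 ∧ ∀ i, i ∉ B → z i = 0).card : ℤ) := by
  unfold Zs Vs
  simp only [card_filter, lin]
  push_cast
  rw [sum_comm, mul_sum, ← sum_add_distrib, ← sum_add_distrib]
  refine sum_congr rfl fun z _ => ?_
  have hR : ∑ i, β i * z i ^ 2 = Rf β z := rfl
  rw [hR]
  by_cases hP : ∀ i, i ∉ B → z i = 0
  · by_cases h0 : Rf β z = 0
    · by_cases h1 : Mf μ β z = 0
      · simp [h0, h1, add_comm]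
      · simp [h0, h1]
    · have h2 : ∀ l : F, (Mf μ β z - l * Rf β z = 0) ↔ l = Mf μ β z / Rf β z := by
        intro l
        rw [eq_div_iff h0, sub_eq_zero]
        exact eq_comm
      have hP' : (∀ i, i ∉ B → z i = 0) = True := eq_true hP
      simp only [hP', true_and, and_true, h0, h2, if_false, false_and, mul_zero, add_zero, if_true,
        Finset.sum_ite_eq', mem_univ]
  · simp [hP]

/-- the number of vectors with support in `B` -/
private theorem card_Vs (B : Finset (Fin 5)) : (Vs F B).card = Fintype.card F ^ B.card := by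
  have h : Vs F B = Fintype.piFinset fun i => if i ∈ B then (univ : Finset F) else {0} := by
    ext z
    simp only [Vs, mem_filter, mem_univ, true_and, Fintype.mem_piFinset]
    refine forall_congr' fun i => ?_
    by_cases hi : i ∈ B <;> simp [hi]
  rw [h, Fintype.card_piFinset, ← prod_subset (subset_univ B) (fun i _ hi => by simp [hi])]
  rw [prod_congr rfl fun i hi => by rw [if_pos hi], prod_const, card_univ]

/-- a free coordinate -/
private theorem free {B : Finset (Fin 5)} {a : Fin 5 → F} {j : Fin 5} (hj : j ∈ B) (ha : a j = 0) :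
    (Zs B a).card = Fintype.card F * (Zs (B.erase j) a).card := by
  rw [← card_univ (α := F), ← card_product]
  refine card_bij' (fun z _ => (z j, Function.update z j 0)) (fun p _ => Function.update p.2 j p.1)
    ?_ ?_ ?_ ?_
  · intro z hz
    simp only [Zs, mem_filter, mem_univ, true_and, mem_product] at hz ⊢
    refine ⟨fun i hi => ?_, ?_⟩
    · by_cases hij : i = j
      · subst hij; simp
      · rw [Function.update_of_ne hij]
        exact hz.1 i fun h => hi (mem_erase.2 ⟨hij, h⟩)
    · rw [← hz.2]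
      refine sum_congr rfl fun i _ => ?_
      by_cases hij : i = j
      · subst hij; simp [ha]
      · rw [Function.update_of_ne hij]
  · intro p hp
    simp only [Zs, mem_filter, mem_univ, true_and, mem_product] at hp ⊢
    refine ⟨fun i hi => ?_, ?_⟩
    · have hij : i ≠ j := fun h => hi (h ▸ hj)
      rw [Function.update_of_ne hij]
      exact hp.1 i fun h => hi (mem_of_mem_erase h)
    · rw [← hp.2]
      refine sum_congr rfl fun i _ => ?_
      by_cases hij : i = j
      · subst hij; simp [ha]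
      · rw [Function.update_of_ne hij]
  · intro z hz
    simp
  · intro p hp
    simp only [Zs, mem_filter, mem_univ, true_and, mem_product] at hp
    have h0 : p.2 j = 0 := hp.1 j (notMem_erase j B)
    ext1
    · simp
    · simp only [Function.update_idem]
      rw [← h0, Function.update_eq_self]

private theorem c_erase (j : Fin 5) : (univ.erase j : Finset (Fin 5)).card = 4 := by
  rw [card_erase_of_mem (mem_univ j), card_univ, Fintype.card_fin]

private theorem c_erase2 {j k : Fin 5} (h : j ≠ k) :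
    ((univ.erase k).erase j : Finset (Fin 5)).card = 3 := by
  rw [card_erase_of_mem (mem_erase.2 ⟨h, mem_univ j⟩), c_erase]

private theorem part1 (hG : S_G) (hodd : Odd (Fintype.card F)) {μ β : Fin 5 → F}
    (hD : Dat F μ β) : ((Xs μ β ∅).card : ℤ) = ((Fintype.card F : ℤ) - 1) ^ 3 + 1 := by
  set q : ℤ := (Fintype.card F : ℤ) with hq
  have hq0 : q ≠ 0 := by
    rw [hq]
    exact_mod_cast Fintype.card_ne_zero
  let T : Fin 5 → ℤ := fun j => ch F (∏ i ∈ univ.erase j, (β i * (μ i - μ j)))
  have hN : ∀ l : F, ((Zs univ fun i => β i * (μ i - l)).card : ℤ) =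
      q ^ 4 + ∑ j, if μ j = l then q ^ 2 * (q - 1) * T j else 0 := by
    intro l
    by_cases h : ∃ j, μ j = l
    · obtain ⟨j, rfl⟩ := h
      have h1 := free (B := univ) (a := fun i => β i * (μ i - μ j)) (mem_univ j) (by simp)
      have h2 := (hG F hodd (univ.erase j) (fun i => β i * (μ i - μ j)) (fun i hi =>
        mul_ne_zero (hD.ne i) (sub_ne_zero.2 (hD.inj.ne (ne_of_mem_erase hi))))).2.1 (c_erase j)
      have h3 : ((Zs (univ.erase j) fun i => β i * (μ i - μ j)).card : ℤ) =
        q ^ 3 + T j * (q - 1) * q := h2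
      rw [h1]
      push_cast
      rw [h3]
      simp only [hD.inj.eq_iff, sum_ite_eq', mem_univ, if_true]
      ring
    · have h : ∀ j, μ j ≠ l := fun j hj => h ⟨j, hj⟩
      have h2 := (hG F hodd univ (fun i => β i * (μ i - l)) (fun i _ =>
        mul_ne_zero (hD.ne i) (sub_ne_zero.2 (h i)))).2.2 (by simp)
      have h3 : ((Zs univ fun i => β i * (μ i - l)).card : ℤ) = q ^ 4 := h2
      rw [h3, sum_eq_zero fun j _ => if_neg (h j), add_zero]
  have hR : ((Zs univ β).card : ℤ) = q ^ 4 :=
    (hG F hodd univ β fun i _ => hD.ne i).2.2 (by simp)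
  have hV : ((Vs F univ).card : ℤ) = q ^ 5 := by
    rw [card_Vs]
    push_cast
    simp [hq]
  have hT : ∑ j, T j = -3 := by
    rw [Fin.sum_univ_five]
    have e0 : T 0 = -1 := hD.ty 0 (by decide)
    have e1 : T 1 = -1 := hD.ty 1 (by decide)
    have e2 : T 2 = -1 := hD.ty 2 (by decide)
    have e3 : T 3 = -1 := hD.ty 3 (by decide)
    have e4 : T 4 = 1 := hD.ty4
    rw [e0, e1, e2, e3, e4]
    norm_num
  have hX : ((univ : Finset (Fin 5 → F)).filter fun z =>
      Rf β z = 0 ∧ Mf μ β z = 0 ∧ ∀ i, i ∉ (univ : Finset (Fin 5)) → z i = 0) = Xs μ β ∅ := by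
    ext z
    simp [Xs]
  have hdc := dc μ β univ
  rw [hX, hR, hV, sum_congr rfl fun l _ => hN l, sum_add_distrib, sum_comm] at hdc
  simp only [sum_ite_eq, mem_univ, if_true, sum_const, card_univ, nsmul_eq_mul] at hdc
  rw [← mul_sum, hT, ← hq] at hdc
  have h5 : q * ((Xs μ β ∅).card : ℤ) = q * ((q - 1) ^ 3 + 1) := by linear_combination -hdc
  exact mul_left_cancel₀ hq0 h5

private theorem part2 (hG : S_G) (hodd : Odd (Fintype.card F)) {μ β : Fin 5 → F}
    (hD : Dat F μ β) (k : Fin 5) : ((Xs μ β {k}).card : ℤ) = (Fintype.card F : ℤ) ^ 2 +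
      ch F (∏ i ∈ univ.erase k, β i) * ((Fintype.card F : ℤ) - 1) *
        (1 + ∑ x : F, ch F (∏ i ∈ univ.erase k, (x - μ i))) := by
  set q : ℤ := (Fintype.card F : ℤ) with hq
  have hq0 : q ≠ 0 := by
    rw [hq]
    exact_mod_cast Fintype.card_ne_zero
  have hN : ∀ l : F, ((Zs (univ.erase k) fun i => β i * (μ i - l)).card : ℤ) =
      q ^ 3 + ch F (∏ i ∈ univ.erase k, β i) * ch F (∏ i ∈ univ.erase k, (l - μ i)) *
        (q - 1) * q := by
    intro l
    by_cases h : ∃ j, j ≠ k ∧ μ j = l
    · obtain ⟨j, hjk, rfl⟩ := h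
      have hjm : j ∈ univ.erase k := mem_erase.2 ⟨hjk, mem_univ j⟩
      have h1 := free (B := univ.erase k) (a := fun i => β i * (μ i - μ j)) hjm (by simp)
      have h2 := (hG F hodd ((univ.erase k).erase j) (fun i => β i * (μ i - μ j)) (fun i hi =>
        mul_ne_zero (hD.ne i) (sub_ne_zero.2 (hD.inj.ne (ne_of_mem_erase hi))))).1 (c_erase2 hjk)
      have h3 : ((Zs ((univ.erase k).erase j) fun i => β i * (μ i - μ j)).card : ℤ) = q ^ 2 := h2
      have h4 : ∏ i ∈ univ.erase k, (μ j - μ i) = 0 := prod_eq_zero hjm (sub_self _)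
      have h5 : ch F (0 : F) = 0 := by simp [ch]
      rw [h1, h4, h5]
      push_cast
      rw [h3]
      ring
    · have h : ∀ j, j ≠ k → μ j ≠ l := fun j hjk hj => h ⟨j, hjk, hj⟩
      have h2 := (hG F hodd (univ.erase k) (fun i => β i * (μ i - l)) (fun i hi =>
        mul_ne_zero (hD.ne i) (sub_ne_zero.2 (h i (ne_of_mem_erase hi))))).2.1 (c_erase k)
      have h3 : ((Zs (univ.erase k) fun i => β i * (μ i - l)).card : ℤ) =
        q ^ 3 + ch F (∏ i ∈ univ.erase k, (β i * (μ i - l))) * (q - 1) * q := h2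
      have h4 : ∏ i ∈ univ.erase k, (μ i - l) = ∏ i ∈ univ.erase k, (l - μ i) := by
        have h5 : ∀ i ∈ univ.erase k, μ i - l = (-1) * (l - μ i) := fun i _ => by ring
        rw [prod_congr rfl h5, prod_mul_distrib, prod_const, c_erase]
        norm_num
      have h6 : ∀ x y : F, ch F (x * y) = ch F x * ch F y := fun x y => map_mul _ x y
      rw [h3, prod_mul_distrib, h4, h6]
  have hR : ((Zs (univ.erase k) β).card : ℤ) =
      q ^ 3 + ch F (∏ i ∈ univ.erase k, β i) * (q - 1) * q :=
    (hG F hodd (univ.erase k) β fun i _ => hD.ne i).2.1 (c_erase k)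
  have hV : ((Vs F (univ.erase k)).card : ℤ) = q ^ 4 := by
    rw [card_Vs, c_erase]
    push_cast
    rfl
  have hX : ((univ : Finset (Fin 5 → F)).filter fun z =>
      Rf β z = 0 ∧ Mf μ β z = 0 ∧ ∀ i, i ∉ (univ.erase k : Finset (Fin 5)) → z i = 0) =
        Xs μ β {k} := by
    ext z
    simp [Xs]
  have hdc := dc μ β (univ.erase k)
  rw [hX, hR, hV, sum_congr rfl fun l _ => hN l, sum_add_distrib] at hdc
  simp only [sum_const, card_univ, nsmul_eq_mul] at hdc
  rw [← sum_mul, ← sum_mul, ← mul_sum, ← hq] at hdc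
  have h5 : q * ((Xs μ β {k}).card : ℤ) = q * (q ^ 2 +
      ch F (∏ i ∈ univ.erase k, β i) * (q - 1) *
        (1 + ∑ x : F, ch F (∏ i ∈ univ.erase k, (x - μ i)))) := by linear_combination -hdc
  exact mul_left_cancel₀ hq0 h5

theorem tXC (hG : S_G) : S_XC := by
  intro F _ _ hodd μ β hD
  exact ⟨part1 hG hodd hD, fun k => part2 hG hodd hD k⟩

end Pool.Agent.CapThree
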