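import Pool.Agent.CapThree.Spec

/-!
# Number of vectors of `Y_j`
-/

noncomputable section

namespace Pool.Agent.CapThree

open Finset Pool.Agent.Caps Pool.Agent.CapFive
open scoped Classical

section YY

variable {F : Type} [Field F] [Fintype F]

/-- the two-element subsets of a set of three elements -/
private theorem y_pow (T : Finset (Fin 5)) (hT : T.card = 3) :
    T.powersetCard 2 = T.image (fun m => T.erase m) := by
  ext p
  rw [Finset.mem_powersetCard, Finset.mem_image]
  constructor
  · rintro ⟨hp, hc⟩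
    have h1 : (T \ p).card = 1 := by
      have := Finset.card_sdiff_add_card_eq_card hp
      omega
    obtain ⟨m, hm⟩ := Finset.card_eq_one.mp h1
    have hmT : m ∈ T \ p := by rw [hm]; exact Finset.mem_singleton_self m
    refine ⟨m, (Finset.mem_sdiff.mp hmT).1, ?_⟩
    ext x
    rw [Finset.mem_erase]
    constructor
    · rintro ⟨hx, hxT⟩
      by_contra hxp
      have : x ∈ T \ p := Finset.mem_sdiff.mpr ⟨hxT, hxp⟩
      rw [hm, Finset.mem_singleton] at this
      exact hx this
    · intro hx
      refine ⟨?_, hp hx⟩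
      rintro rfl
      exact (Finset.mem_sdiff.mp hmT).2 hx
  · rintro ⟨m, hm, rfl⟩
    refine ⟨Finset.erase_subset _ _, ?_⟩
    rw [Finset.card_erase_of_mem hm, hT]

private theorem y_inj (T : Finset (Fin 5)) : Set.InjOn (fun m => T.erase m) (T : Set (Fin 5)) := by
  intro a ha b hb h
  by_contra hab
  have h1 : a ∈ T.erase b := Finset.mem_erase.mpr ⟨hab, ha⟩
  have h2 : a ∈ T.erase a := by
    have h' : T.erase a = T.erase b := h
    rw [h']
    exact h1
  exact (Finset.notMem_erase a T) h2

omit [Fintype F] in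
private theorem y_zero (μ β : Fin 5 → F) (j : Fin 5) : Qf μ β j 0 = 0 := by
  unfold Qf
  simp

end YY

theorem tY (hG : S_G) (hIE : S_IE) : S_Y := by
  intro F _ _ hodd μ β hD j hj
  set T : Finset (Fin 5) := (univ.erase 4).erase j with hTdef
  have hjT : j ∈ (univ.erase 4 : Finset (Fin 5)) := Finset.mem_erase.mpr ⟨hj, Finset.mem_univ _⟩
  have hTc : T.card = 3 := by
    rw [hTdef, Finset.card_erase_of_mem hjT, Finset.card_erase_of_mem (Finset.mem_univ _)]
    simp
  have hTm : ∀ k, k ∈ T ↔ k ≠ j ∧ k ≠ 4 := by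
    intro k
    rw [hTdef, Finset.mem_erase, Finset.mem_erase]
    simp
  set S : Finset (Fin 5 → F) := univ.filter fun z => z ≠ 0 ∧ z j = 0 ∧ Qf μ β j z = 0 with hSdef
  have hSm : ∀ z, z ∈ S ↔ z ≠ 0 ∧ z j = 0 ∧ Qf μ β j z = 0 := by
    intro z
    rw [hSdef, Finset.mem_filter]
    simp
  have ha : ∀ i, i ≠ j → β i * (μ i - μ j) ≠ 0 := fun i hi =>
    mul_ne_zero (hD.ne i) (sub_ne_zero.mpr (fun h => hi (hD.inj h)))
  -- no vector of S vanishes on T
  have hno : ∀ z ∈ S, ¬ ∀ k ∈ T, z k = 0 := by
    intro z hz hall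
    obtain ⟨h0, h1, h2⟩ := (hSm z).mp hz
    have h4 : ∀ i, i ≠ 4 → z i = 0 := by
      intro i hi
      by_cases hij : i = j
      · rw [hij]; exact h1
      · exact hall i ((hTm i).mpr ⟨hij, hi⟩)
    have hQ : Qf μ β j z = β 4 * (μ 4 - μ j) * z 4 ^ 2 := by
      unfold Qf
      apply Finset.sum_eq_single 4
      · intro i _ hi
        rw [h4 i hi]; ring
      · intro h; exact absurd (Finset.mem_univ _) h
    rw [hQ] at h2
    have h5 : z 4 = 0 := by
      rcases mul_eq_zero.mp h2 with h | h
      · exact absurd h (ha 4 hj.symm)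
      · exact pow_eq_zero_iff (two_ne_zero) |>.mp h
    apply h0
    funext i
    by_cases hi : i = 4
    · rw [hi]; exact h5
    · exact h4 i hi
  have hIE1 := hIE F S T (by
    intro z hz
    have hle : (T.filter fun k => z k = 0).card ≤ T.card := Finset.card_filter_le _ _
    by_contra hcon
    have h3 : (T.filter fun k => z k = 0).card = T.card := by omega
    have h4 := Finset.eq_of_subset_of_card_le (Finset.filter_subset (fun k => z k = 0) T) (by omega)
    apply hno z hz
    intro k hk
    rw [← h4] at hk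
    exact (Finset.mem_filter.mp hk).2)
  -- first term
  have e1 : (S.filter fun z => ∀ k ∈ T, z k ≠ 0) = Ys μ β j := by
    ext z
    rw [Finset.mem_filter, hSm]
    unfold Ys
    rw [Finset.mem_filter]
    constructor
    · rintro ⟨⟨_, h1, h2⟩, h3⟩
      exact ⟨Finset.mem_univ _, h1, h2, fun k hk hk4 => h3 k ((hTm k).mpr ⟨hk, hk4⟩)⟩
    · rintro ⟨_, h1, h2, h3⟩
      have hne : T.Nonempty := by
        rw [← Finset.card_pos, hTc]; norm_num
      obtain ⟨k, hk⟩ := hne
      refine ⟨⟨?_, h1, h2⟩, fun k hk => h3 k ((hTm k).mp hk).1 ((hTm k).mp hk).2⟩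
      intro h0
      apply h3 k ((hTm k).mp hk).1 ((hTm k).mp hk).2
      rw [h0]; rfl
  -- the counts of S_G
  have hq := hG F hodd
  have hcount : ∀ (A : Finset (Fin 5)), j ∉ A →
      (((univ : Finset (Fin 5 → F)).filter fun z =>
        (∀ i, i ∉ A → z i = 0) ∧ ∑ i, β i * (μ i - μ j) * z i ^ 2 = 0).card : ℤ) =
      ((S.filter fun z => ∀ i, i ∉ A → z i = 0).card : ℤ) + 1 := by
    intro A hjA
    have hset : ((univ : Finset (Fin 5 → F)).filter fun z =>
        (∀ i, i ∉ A → z i = 0) ∧ ∑ i, β i * (μ i - μ j) * z i ^ 2 = 0) =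
        insert 0 (S.filter fun z => ∀ i, i ∉ A → z i = 0) := by
      ext z
      rw [Finset.mem_filter, Finset.mem_insert, Finset.mem_filter, hSm]
      constructor
      · rintro ⟨_, h1, h2⟩
        by_cases h0 : z = 0
        · exact Or.inl h0
        · exact Or.inr ⟨⟨h0, h1 j hjA, h2⟩, h1⟩
      · rintro (h0 | ⟨⟨_, _, h2⟩, h3⟩)
        · rw [h0]
          exact ⟨Finset.mem_univ _, fun i _ => rfl, y_zero μ β j⟩
        · exact ⟨Finset.mem_univ _, h3, h2⟩
    rw [hset, Finset.card_insert_of_notMem]
    · push_cast; ring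
    · intro h
      rw [Finset.mem_filter, hSm] at h
      exact h.1.1 rfl
  -- S.card
  have eS : (S.card : ℤ) = ((Fintype.card F : ℤ) - 1) * ((Fintype.card F : ℤ) ^ 2 + 1) := by
    have h1 := hcount (univ.erase j) (Finset.notMem_erase _ _)
    have h2 : (S.filter fun z => ∀ i, i ∉ univ.erase j → z i = 0) = S := by
      apply Finset.filter_true_of_mem
      intro z hz i hi
      have : i = j := by
        by_contra h
        exact hi (Finset.mem_erase.mpr ⟨h, Finset.mem_univ _⟩)
      rw [this]
      exact ((hSm z).mp hz).2.1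
    rw [h2] at h1
    have h3 := (hq (univ.erase j) (fun i => β i * (μ i - μ j))
      (fun i hi => ha i (Finset.mem_erase.mp hi).1)).2.1 (by
        rw [Finset.card_erase_of_mem (Finset.mem_univ _)]; simp)
    have h4 := hD.ty j hj
    rw [h1, h4] at h3
    linear_combination h3
  -- one zero coordinate
  have ek : ∀ k ∈ T, ((S.filter fun z => z k = 0).card : ℤ) = (Fintype.card F : ℤ) ^ 2 - 1 := by
    intro k hk
    have hkj := ((hTm k).mp hk).1
    have h1 := hcount ((univ.erase j).erase k) (fun h =>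
      (Finset.notMem_erase j univ) (Finset.mem_of_mem_erase h))
    have h2 : (S.filter fun z => ∀ i, i ∉ (univ.erase j).erase k → z i = 0) =
        S.filter fun z => z k = 0 := by
      apply Finset.filter_congr
      intro z hz
      constructor
      · intro h
        exact h k (Finset.notMem_erase _ _)
      · intro h i hi
        have : i = k ∨ i = j := by
          by_contra hcon
          push Not at hcon
          exact hi (Finset.mem_erase.mpr ⟨hcon.1, Finset.mem_erase.mpr ⟨hcon.2, Finset.mem_univ _⟩⟩)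
        rcases this with h' | h'
        · rw [h']; exact h
        · rw [h']; exact ((hSm z).mp hz).2.1
    rw [h2] at h1
    have h3 := (hq ((univ.erase j).erase k) (fun i => β i * (μ i - μ j))
      (fun i hi => ha i (Finset.mem_erase.mp (Finset.mem_of_mem_erase hi)).1)).1 (by
        rw [Finset.card_erase_of_mem (Finset.mem_erase.mpr ⟨hkj, Finset.mem_univ _⟩),
          Finset.card_erase_of_mem (Finset.mem_univ _)]; simp)
    rw [h1] at h3
    linear_combination h3
  -- two zero coordinates
  have em : ∀ m ∈ T, (S.filter fun z => ∀ k ∈ T.erase m, z k = 0) = As μ β j m := by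
    intro m hm
    have hmj := ((hTm m).mp hm).1
    have hm4 := ((hTm m).mp hm).2
    ext z
    rw [Finset.mem_filter, hSm]
    unfold As
    rw [Finset.mem_filter]
    constructor
    · rintro ⟨⟨h0, h1, h2⟩, h3⟩
      refine ⟨Finset.mem_univ _, h0, ?_, h2⟩
      intro k hkm hk4
      by_cases hkj : k = j
      · rw [hkj]; exact h1
      · exact h3 k (Finset.mem_erase.mpr ⟨hkm, (hTm k).mpr ⟨hkj, hk4⟩⟩)
    · rintro ⟨_, h0, h3, h2⟩
      refine ⟨⟨h0, h3 j hmj.symm hj, h2⟩, ?_⟩
      intro k hk
      exact h3 k (Finset.mem_erase.mp hk).1 ((hTm k).mp (Finset.mem_of_mem_erase hk)).2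
  have em2 : ∑ m ∈ T, (S.filter fun z => ∀ k ∈ T.erase m, z k = 0).card =
      ∑ m ∈ T, (As μ β j m).card := Finset.sum_congr rfl (fun m hm => by rw [em m hm])
  rw [e1, y_pow T hTc, Finset.sum_image (y_inj T), em2] at hIE1
  have hIE2 : ((Ys μ β j).card : ℤ) + ∑ k ∈ T, ((S.filter fun z => z k = 0).card : ℤ) =
      (S.card : ℤ) + ∑ m ∈ T, ((As μ β j m).card : ℤ) := by
    exact_mod_cast hIE1
  rw [Finset.sum_congr rfl ek, Finset.sum_const, hTc, eS] at hIE2
  simp only [nsmul_eq_mul] at hIE2
  push_cast at hIE2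
  linear_combination hIE2

end Pool.Agent.CapThree
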